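import Pool.Agent.P.MP_08fd93_co.FK.K5
import Pool.Agent.P.MP_08fd93_co.FN.N12
import Pool.Agent.P.MP_08fd93_co.FZ.E1
import Pool.Agent.P.MP_08fd93_co.FR.Ori

/-! Frames with one orbit of spikes: special tops, periodic edges and the plan at the root. -/

set_option autoImplicit false

namespace Pool.Agent.P.MP_08fd93_co.FK

open OV PkPrtP FB FE FZ FN FU FR

variable {J : Type} {G : VD J} {P Vs B : Set (Vx J)} {pL pR : Prop} {p : PD J} {M : MU J}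
  {d : DD (Vx J)} {φ : Vx J → Vx J} {e t v l r k x y g : Vx J} {f f' : Sym2 (Vx J)} {j : ℤ}

section tops

variable (h : SV G) (hp : PS (FL G) (XL G) G.Pr p (PQ1 G P Vs pL pR)) (st : StC G p Vs pL pR)
  (vis : ∀ e ∈ G.LA, VisE G P Vs (pL ∨ HL G) (pR ∨ HR G) e)
include h hp st vis

theorem csol2 (hd : VC G M d) (o : ∀ u ∈ M.us, (PQ1 G P Vs pL pR).Ok0 (FL G) u)
    (k : Sl (FL G) p ((PQ1 G P Vs pL pR).Ok (FL G)) M d ((PQ1 G P Vs pL pR).SU (FL G) M) B) :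
    CSol (FL G) (XL G) p ((PQ1 G P Vs pL pR).Ok (FL G)) M :=
  csol1 h hp st hd o (fun _ _ y m => vis y (h.lay.la m.1)) k

theorem csol_b2 (he : e ∈ G.LA) (k : Sl (FL G) p ((PQ1 G P Vs pL pR).Ok (FL G)) (Mb G e) (Bc G e)
    (SS G P pL pR e) B) : CSol (FL G) (XL G) p ((PQ1 G P Vs pL pR).Ok (FL G)) (Mb G e) :=
  csol2 (B := B) h hp st vis (h.vcb he) (by rintro _ rfl; exact Or.inl (okS_tv e))
    (((mb_c1 he).su h.lay).symm ▸ k)

theorem csol_eb2 (he : e ∈ G.LA) (sub : SS G P pL pR e ⊆ {f, f'}) {X' Q : Set (Vx J)}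
    (O : OutX G.Γ (Bc G e) {f, f'} X' Q fun c A => c e = c (G.nx e) ∨ t ∈ A)
    (pd : PayE (FL G) p e t) : CSol (FL G) (XL G) p ((PQ1 G P Vs pL pR).Ok (FL G)) (Mb G e) := by
  refine csol_b2 h hp st vis he ⟨X', Q, _, O.mono sub, Set.empty_subset _, fun _ σ c hc _ => ?_⟩
  obtain ⟨c1, c2, -⟩ := hc _ rfl
  by_cases m : p.c e.1 = p.c (G.nx e).1
  · exact Or.inl (congrArg σ (c1.trans (m.trans c2.symm)))
  rcases pd.resolve_left m with ⟨rfl, a⟩ | ⟨rfl, a⟩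
  exacts [Or.inr (Or.inl ⟨_, rfl, rfl, m, Or.inl ⟨rfl, a.1⟩, a.2⟩),
    Or.inr (Or.inl ⟨_, rfl, rfl, m, Or.inr ⟨rfl, a.1⟩, a.2⟩)]

theorem spc_sp2 (sub : SS G P pL pR e ⊆ {f, f'}) (sp : Span G e f f') (d0 : p.Dn (FL G) e)
    (dn : ∀ y ∈ G.LA, y ∉ (PQ1 G P Vs pL pR).St (FL G) → (SS G P pL pR y).Nonempty →
      p.Dn (FL G) y) : Spc G p (PQ1 G P Vs pL pR) e := by
  intro M d u hd hu o c
  have hF := h.lay
  have mu : u ∈ M.us := hu ▸ rfl
  have vu := (hd.hM.val u mu).1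
  obtain ⟨m, m', w, hw, a, ha, b, hb, wa, wb, r⟩ := sp
  have sb : (Bc G e).X ⊆ d.X := hd.bt h mu c
  have key := fun pd => sl_sp (p := p) (Ok := (PQ1 G P Vs pL pR).Ok (FL G)) hF hd.hM hd.mc hu
    (hw.elim (fun k => Or.inl (hd.bI h mu c k)) (hd.bY h mu c)) (sb ha) (sb hb) wa wb
    (PE.mono sb m) (PE.mono sb m') (fun x k => by
      rw [hd.ord h mu c (pe_ne m) ha, hd.ord h mu c (pe_ne m) hb,
        hd.ord h mu c (pe_ne m) (k.elim (PE.ends m) (PE.ends m'))]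
      exact r x k) pd
  have oo : ∀ t ∈ M.us, (PQ1 G P Vs pL pR).Ok0 (FL G) t := fun t ht => by
    rw [hu] at ht
    exact ht ▸ o
  by_cases n : u.x = u.s
  · have eu := hF.eq_tv vu n
    obtain rfl : e = u.s := hF.tv_cov vu.hs (eu ▸ c)
    obtain rfl := hd.eq_mb h (eu ▸ hu)
    refine csol2 h hp st vis hd oo
      ((key fun _ => t1_dn hF vu mu n d0).mono ?_ (Set.empty_subset _))
    rw [(mb_c1 vu.hs).su hF]
    exact sub
  · obtain ⟨k1, k2, k3, -⟩ := hd.cap_su h hp hu o n c d0 dn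
    exact csol2 h hp st vis hd oo
      ((key fun ok => t1_cap (hp.plan hF) vu ok mu n k2 k3).mono (k1.trans sub) (Set.empty_subset _))

theorem spc_rem2 (he : e ∈ G.LA) (v0 : G.nx e ∈ Vs) (sub : SS G P pL pR e ⊆ {f, f'})
    {X' Q : Set (Vx J)} (O : OutX G.Γ (Bc G e) {f, f'} X' Q fun c A => c e = c (G.nx e) ∨ t ∈ A)
    (m : p.c e.1 = p.c (G.nx e).1)
    (dn : ∀ y ∈ G.LA, y ∉ (PQ1 G P Vs pL pR).St (FL G) → (SS G P pL pR y).Nonempty →
      p.Dn (FL G) y) : Spc G p (PQ1 G P Vs pL pR) e := by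
  intro M d u hd hu o c
  have hF := h.lay
  have mu : u ∈ M.us := hu ▸ rfl
  obtain ⟨vu, -, e2⟩ := one_ends hF hd.hM hu
  by_cases n : u.x = u.s
  · have eu := hF.eq_tv vu n
    obtain rfl : e = u.s := hF.tv_cov vu.hs (eu ▸ c)
    obtain rfl := hd.eq_mb h (eu ▸ hu)
    exact csol_eb2 h hp st vis he sub O (Or.inl m)
  obtain ⟨k1, k2, k3, -⟩ := hd.cap_su h hp hu o n c (Or.inl m.symm) dn
  obtain ⟨a, b, r⟩ := hd.rng h mu c
  obtain ⟨n1, n2, -⟩ := h.vf.toRows.nx_mem a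
  have oo : ∀ t ∈ M.us, (PQ1 G P Vs pL pR).Ok0 (FL G) t := fun t ht => by
    rw [hu] at ht
    exact ht ▸ o
  have r' : G.nx e = u.s' := (h.vf.toRows.inj n1 hd.hM.hs' (by
    rcases vis_out hF hd.hM (fun t ht => (oo t ht).nv) n1 v0 (h.pr _) with g | g
    · have g : G.ρ (G.nx e) ≤ G.ρ M.s := g
      omega
    · have g : G.ρ M.s' ≤ G.ρ (G.nx e) := g
      show G.ρ _ = G.ρ _
      omega)).trans e2.symm
  refine csol2 h hp st vis hd oo ((sl_rem' (t := t) hF hd.hM hd.mc hu n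
    (hd.prt' h hu n he r' (pe_ne (O.sub (Or.inl rfl))))
    (O.imp' fun c A _ m => m.imp_left fun m => by rw [r', m]) fun _ => ⟨k2, k3, ?_,
      Or.inr ?_⟩).mono (k1.trans sub) (Set.empty_subset _))
  · rw [hp.pl.cx]
    unfold cxS
    split_ifs with q
    · rw [q]
      exact (by decide : ∀ a : Col, (a.1, !a.2) ≠ a) _
    · exact q
  · by_cases q : p.c u.s.1 = p.c u.s'.1
    · refine Or.inr fun ad => ?_
      have c1 : G.ρ u.s ≤ G.ρ e := c.2.1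
      obtain ⟨s1, s2, -⟩ := h.vf.toRows.nx_mem vu.hs
      have ee : G.nx u.s = e := h.vf.toRows.inj s1 c.1 (by
        have := (h.vf.toRows.adj_iff c.1 vu.hs).1 ad
        omega)
      have m1 := (hp.pl.mono u.s vu.hs (by
        rw [show (FL G).nx u.s = e from ee, m, r', q])).2
      have m2 := (hp.pl.mono e he m.symm).1
      rw [show (FL G).nx u.s = e from ee, m2] at m1
      have := congrArg G.ρ m1
      rw [show G.ρ ((FL G).nx e) = G.ρ e + 1 from n2] at this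
      omega
    · left
      rw [hp.pl.cx]
      unfold cxS
      rw [if_neg q, if_pos k2]

/-- The colouring: all feet are protected and every top edge is ordinary or special. -/
theorem master2 [Fintype J] (hφ : PH (FL G) G.Pr φ)
    (bar : ∀ y ∈ G.LA, ∃ n, φ^[n] y ∈ (PQ1 G P Vs pL pR).St (FL G))
    (top : ∀ e ∈ G.LA, (PQ1 G P Vs pL pR).Od (FL G) p e ∨
      ∃ a, Spc G p (PQ1 G P Vs pL pR) (tr a e)) : ∃ c, Col1 G.Γ ∅ c := by
  have hF := h.lay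
  refine PS.master (F := FL G) hF hp hφ bar fun M hM o => ?_
  obtain ⟨u, hu⟩ := FE.one_unit hF hM fun _ _ => h.pr _
  have mu : u ∈ M.us := hu ▸ rfl
  have vu := (hM.val u mu).1
  by_cases c : ∃ e, (FL G).Cov u e ∧ ∃ a, Spc G p (PQ1 G P Vs pL pR) (tr a e)
  · obtain ⟨e, c, a, k⟩ := c
    have hM' := hF.mval_tr a hM
    have us : (M.act a).us = {u.act a} := by rw [MU.act, hu, Set.image_singleton]
    have o' := (hp.act hF a vu).1 (o u mu)
    obtain ⟨d, hd⟩ := h.vc (P := P) st hM' fun t ht => by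
      rw [us] at ht
      exact ht ▸ o'.nv
    have := csol_tr hF (hp.plan hF) (fun a u hu => (hp.act hF a hu).2) (-a) hM'
      (k _ d _ hd us o' ((hF.cov_tr a e vu).2 c))
    rwa [MU.act_act, add_neg_cancel, MU.act_zero] at this
  · obtain ⟨d, hd⟩ := h.vc (P := P) st hM fun t ht => (o t ht).nv
    exact csol2 h hp st vis hd o (hp.ord hF hM hu (o u mu) hd.mc
      (hd.cel h hp.pl st).sub fun e m => (top e (hF.la m.1)).resolve_right fun g => c ⟨e, m, g⟩)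

end tops

/-! ### Periodic edges -/

/-- The chain of edges above `e` returns to the orbit of `e`. -/
def Per (φ : Vx J → Vx J) (e : Vx J) : Prop := ∃ n, 0 < n ∧ (φ^[n] e).1 = e.1

section per

variable {F : FD J} {X : XD J} {Pr : Set (Vx J)} (hF : Lay F X Pr) (hφ : PH F Pr φ)
include hF hφ

theorem PH.it_la (hx : x ∈ F.LA) (n : ℕ) : φ^[n] x ∈ F.LA := by
  induction n with
  | zero => exact hx
  | succ n ih =>
    rw [Function.iterate_succ_apply']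
    exact hφ.la hF ih

theorem PH.it_fst (hx : x ∈ F.LA) (e : x.1 = y.1) (n : ℕ) : (φ^[n] x).1 = (φ^[n] y).1 := by
  induction n with
  | zero => exact e
  | succ n ih =>
    rw [Function.iterate_succ_apply', Function.iterate_succ_apply']
    exact hφ.fst (PH.it_la hF hφ hx n) ih

theorem per_mul (hx : x ∈ F.LA) {n : ℕ} (e : (φ^[n] x).1 = x.1) (m : ℕ) :
    (φ^[n * m] x).1 = x.1 := by
  induction m with
  | zero => rfl
  | succ m ih =>
    rw [Nat.mul_succ, Function.iterate_add_apply]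
    exact (PH.it_fst hF hφ (PH.it_la hF hφ hx n) e _).trans ih

theorem Per.orb (hx : x ∈ F.LA) (e : x.1 = y.1) (h : Per φ x) : Per φ y :=
  let ⟨n, a, b⟩ := h
  ⟨n, a, (PH.it_fst hF hφ hx e n).symm.trans (b.trans e)⟩

/-- two periodic edges under one orbit lie in one orbit -/
theorem Per.uni (hx : x ∈ F.LA) (hy : y ∈ F.LA) (h : Per φ x) (h' : Per φ y)
    (e : (φ x).1 = (φ y).1) : x.1 = y.1 := by
  obtain ⟨n, a, b⟩ := h
  obtain ⟨m, a', b'⟩ := h'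
  obtain ⟨s, hs⟩ := Nat.exists_eq_succ_of_ne_zero (Nat.mul_pos a a').ne'
  have c := per_mul hF hφ hx b m
  have c' := per_mul hF hφ hy b' n
  rw [Nat.mul_comm] at c'
  rw [hs, Function.iterate_succ_apply] at c c'
  exact c.symm.trans ((PH.it_fst hF hφ (hφ.la hF hx) e s).trans c')

theorem Per.up (hx : x ∈ F.LA) (h : Per φ x) : Per φ (φ x) := by
  obtain ⟨n, a, b⟩ := h
  refine ⟨n, a, ?_⟩
  rw [← Function.iterate_succ_apply, Function.iterate_succ_apply']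
  exact hφ.fst (PH.it_la hF hφ hx n) b

/-- a periodic edge lies over a periodic edge of its own chain -/
theorem Per.pre (hx : x ∈ F.LA) (h : Per φ x) :
    ∃ y ∈ F.LA, φ y = x ∧ Per φ y ∧ ∃ n, (φ^[n] x).1 = y.1 := by
  obtain ⟨n, a, b⟩ := h
  obtain ⟨s, rfl⟩ := Nat.exists_eq_succ_of_ne_zero a.ne'
  have m := PH.it_la hF hφ hx s
  rw [Function.iterate_succ_apply'] at b
  refine ⟨tr (x.2 - (φ (φ^[s] x)).2) (φ^[s] x), (hF.la_tr _ _).2 m, ?_,
    Per.orb hF hφ m rfl ⟨s + 1, a, ?_⟩, s, rfl⟩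
  · rw [hφ.eqv _ _ m]
    exact (eq_tr b).symm
  · rw [Function.iterate_succ_apply]
    exact PH.it_fst hF hφ (hφ.la hF m) b s

omit hF in
theorem PWR.per [Finite J] {A W : Set (Vx J)} {rk : Vx J → ℕ} {N : ℕ}
    (hw : PWR F.LA A φ W rk N) (hx : x ∈ W) : Per φ x := by
  have it : ∀ n, φ^[n] x ∈ W := fun n => by
    induction n with
    | zero => exact hx
    | succ n ih =>
      rw [Function.iterate_succ_apply']
      exact hw.up _ ih
  have key : ∀ m a, (φ^[a] x).1 = (φ^[a + m] x).1 → x.1 = (φ^[m] x).1 := fun m a => by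
    induction a with
    | zero => exact fun e => by rwa [Nat.zero_add] at e
    | succ a ih =>
      intro e
      rw [Nat.add_right_comm, Function.iterate_succ_apply', Function.iterate_succ_apply'] at e
      have e1 := eq_tr e
      rw [← hφ.eqv _ _ (hw.sub (it a))] at e1
      exact ih (by rw [hw.inj _ (it _) _ ((hw.inv _ _).2 (it a)) e1]; rfl)
  obtain ⟨a, b, ne, e⟩ := Finite.exists_ne_map_eq_of_infinite fun t : ℕ => (φ^[t] x).1
  rcases lt_or_gt_of_ne ne with l | l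
  · obtain ⟨m, rfl⟩ := Nat.exists_eq_add_of_lt l
    exact ⟨m + 1, Nat.succ_pos m, (key (m + 1) a e).symm⟩
  · obtain ⟨m, rfl⟩ := Nat.exists_eq_add_of_lt l
    exact ⟨m + 1, Nat.succ_pos m, (key (m + 1) b e.symm).symm⟩

end per

/-! ### The frame of a spike -/

/-- A frame whose stems are the translates of the spike `v`; `l` and `r` name the edges at the
ends of the children of `v`. -/
structure SR (G : VD J) (v l r : Vx J) : Prop where
  sv : SV G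
  eK : ∀ x, x ∈ G.K ↔ x.1 = v.1
  fv : G.f v = 1
  sp : G.xr v = G.xl v
  hl : IsL G l ∧ G.an (G.nx l) = v
  hr : IsR G r ∧ G.an r = v
  n3 : ∀ j, 3 ≤ G.nn j
  acy : ∀ x ∈ G.LA, ∃ n, G.an ((FL G).an^[n] x) ∈ G.K

section

variable (h : SR G v l r)
include h

theorem SR.rows : Rows G.toFD := h.sv.vf.toRows

theorem SR.vk : v ∈ G.K := (h.eK v).2 rfl

theorem SR.u0 : G.xl v ∈ G.L 0 ∧ G.Γ.Adj v (G.xl v) := by
  simpa [h.fv] using (h.sv.foot h.vk).1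

theorem SR.k_tr (hk : k ∈ G.K) : ∃ a, k = tr a v := ⟨_, orb_eq ((h.eK k).1 hk)⟩

theorem SR.la_nk (hy : y ∈ G.LA) : y.1 ≠ v.1 := fun c => h.sv.vf.l_nk hy ((h.eK y).2 c)

theorem SR.odd (hk : k ∈ G.K) : Odd (G.f k) := by
  obtain ⟨a, rfl⟩ := h.k_tr hk
  rw [h.rows.wp.per, h.fv]
  exact (h.rows.wp.ev a).one_add

theorem SR.xr (x : Vx J) : G.xr x = G.xl x := by
  by_cases c : x ∈ G.K
  · obtain ⟨a, rfl⟩ := h.k_tr c
    rw [(h.sv.vf.xtr a v).1, (h.sv.vf.xtr a v).2.1, h.sp]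
  · exact (h.sv.vf.xo x c).2.trans (h.sv.vf.xo x c).1.symm

theorem SR.nc (g : Vx J) : ¬ Chord G g := fun ⟨k, _, _, c⟩ => c (h.xr k).symm

theorem SR.l1 : l ∈ G.L 1 := by
  have := (h.sv.vf.an_v (h.rows.nx_mem h.hl.1.1).1 (h.sv.pr _) h.hl.1.2.1).2
  rw [h.hl.2, h.fv] at this
  exact this ▸ h.hl.1.1

theorem SR.r1 : r ∈ G.L 1 := by
  have := (h.sv.vf.an_v h.hr.1.1 (h.sv.pr _) h.hr.1.2.1).2
  rw [h.hr.2, h.fv] at this
  exact this ▸ h.hr.1.1

theorem SR.isL (i : IsL G e) : ∃ a, e = tr a l ∧ G.an (G.nx e) = tr a v := by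
  obtain ⟨a, ha⟩ := h.k_tr i.2.1
  refine ⟨a, h.sv.isL_uni (h.sv.isL_tr a h.hl.1) i ?_, ha⟩
  rw [h.rows.nx_tr a h.l1, h.sv.vf.atr, h.hl.2, ha]

theorem SR.isR (i : IsR G e) : ∃ a, e = tr a r ∧ G.an e = tr a v := by
  obtain ⟨a, ha⟩ := h.k_tr i.2.1
  refine ⟨a, h.sv.isR_uni (h.sv.isR_tr a h.hr.1) i ?_, ha⟩
  rw [h.sv.vf.atr, h.hr.2, ha]

/-- the neighbours of a stem on the rows -/
theorem SR.k_nb (hk : k ∈ G.K) (hy : y ∈ G.LA) (a : G.Γ.Adj k y) :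
    y = G.xl k ∨ G.f y = G.f k := by
  obtain ⟨f1, -, f3⟩ := h.sv.foot hk
  rcases h.rows.att (h.sv.vf.kst k hk) a with c | c | c
  · exact absurd c (h.rows.la_st hy)
  · have := f3 y c a
    rw [h.xr] at this
    exact Or.inl (h.rows.inj c f1.1 (by omega))
  · exact Or.inr (h.rows.uw.lf _ _ c)

/-- no chain of parents on the rows returns to its orbit -/
theorem SR.acyc (hx : x ∈ G.LA) {n : ℕ} (n0 : 0 < n)
    (k : ∀ i < n, G.an ((FL G).an^[i] x) ∉ G.K) : ((FL G).an^[n] x).1 ≠ x.1 := by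
  intro e
  have hF := h.sv.lay
  have tr1 : ∀ i a x, (FL G).an^[i] (tr a x) = tr a ((FL G).an^[i] x) := fun i a x => by
    induction i with
    | zero => rfl
    | succ i ih => rw [Function.iterate_succ_apply', Function.iterate_succ_apply', ih,
        hF.atr a _ (h.sv.pr _)]
  obtain ⟨m, hm⟩ := h.acy x hx
  induction m using Nat.strong_induction_on with
  | _ m ih =>
    by_cases l : m < n
    · exact k m l hm
    obtain ⟨s, rfl⟩ := Nat.exists_eq_add_of_le' (not_lt.1 l)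
    rw [Function.iterate_add_apply, orb_eq e, tr1, h.sv.vf.atr] at hm
    exact ih s (by omega) ((h.eK _).2 ((h.eK (tr _ _)).1 hm))

theorem SR.ac2 (hx : x ∈ G.LA) (k1 : G.an x ∉ G.K) (k2 : G.an (G.an x) ∉ G.K) :
    (G.an (G.an x)).1 ≠ x.1 := by
  have e1 : (FL G).an x = G.an x := (h.sv.vf.xo _ k1).1
  have e2 : (FL G).an (G.an x) = G.an (G.an x) := (h.sv.vf.xo _ k2).1
  have := h.acyc hx (n := 2) two_pos fun i l => by
    obtain rfl | rfl : i = 0 ∨ i = 1 := by omega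
    exacts [k1, by rwa [Function.iterate_one, e1]]
  rwa [show (FL G).an^[2] x = (FL G).an ((FL G).an x) from rfl, e1, e2] at this

/-- The plan: the root has a spare token for the cell under `t`. -/
theorem SR.plan {D : ED J} {A : Set (Vx J)} (hE : EOk2 (FL G) D) (hA : Ori (FL G) D A)
    (t : Vx J) : ∃ p : PD J, RP2 (FL G) D A p.c p.o p.dn ∧ Plan0 (FL G) (XL G) p ∧
      (∀ k ∈ G.K, (p.c k.1).1 = p.cls (G.f k - 1)) ∧
      ∀ a, p.o (tr a v) = tr a v ∧ p.kc (tr a v) = tr a t := by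
  classical
  have hF := h.sv.lay
  have R := h.rows
  have V := h.sv.vf
  obtain ⟨c0, o0, dn, hR⟩ := rp_ex2 hF R.wp.ev hE hA
  set u := G.xl v with hu
  let c : J → Col := fun i => if i = v.1 then ((c0 u.1).1, !(c0 u.1).2) else c0 i
  let o : Vx J → Vx J := fun x => if x.1 = v.1 then x else o0 x
  let p1 : PD J := ⟨c, o, dn, fun _ => c0 u.1, fun j => decide (Even j), fun x => tr (x.2 - v.2) t⟩
  let p : PD J := { p1 with cx := cxS (FL G) p1 }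
  have ul := R.la h.u0.1
  have ec : ∀ x ∈ G.LA, p.c x.1 = c0 x.1 := fun x hx => if_neg (h.la_nk hx)
  have eo : ∀ x ∈ G.LA, p.o x = o0 x := fun x hx => if_neg (h.la_nk hx)
  have cv : p.c v.1 = ((c0 u.1).1, !(c0 u.1).2) := if_pos rfl
  have hR' : RP2 (FL G) D A p.c p.o p.dn := hR.congr hF ec eo fun _ _ => Iff.rfl
  have kc : ∀ k ∈ G.K, (p.c k.1).1 = decide (Even (G.f k - 1)) := fun k hk => by
    have e1 : (c0 u.1).1 = decide (Even (G.f u)) := hR.cl u ul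
    rw [R.uw.lf _ _ h.u0.1] at e1
    rw [(h.eK k).1 hk, cv, decide_eq_true ((h.odd hk).sub_odd odd_one)]
    simpa using e1
  refine ⟨p, hR', ⟨fun j => ?_, hR'.cl, fun a x hx => ?_, fun a x _ => tr_sub a x v t,
    fun k hk y hy a e => ?_, fun y hy e => hR'.mono hF hy e, fun _ => rfl⟩, kc,
    fun a => ⟨if_pos rfl, ?_⟩⟩
  · simp only [p, p1, ne_eq, decide_eq_decide, Int.even_add_one]
    tauto
  · rcases hx with hx | hx
    · exact hR'.otr hF a hx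
    · have k1 := (h.eK x).1 hx
      exact (if_pos (show (tr a x).1 = v.1 from k1)).trans (congrArg _ (if_pos k1).symm)
  · exfalso
    have hk : k ∈ G.K := hk
    have hy : y ∈ G.LA := hy.resolve_right fun b =>
      a.ne (h.sv.t_mem ⟨hk, b, V.kn k hk y b a⟩)
    have c1 := kc k hk
    rcases h.k_nb hk hy a with q | q
    · obtain ⟨b, rfl⟩ := h.k_tr hk
      rw [q, (V.xtr b v).1] at e
      exact flip_ne _ (cv.symm.trans (e.symm.trans (ec u ul)))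
    · have c2 : (p.c y.1).1 = decide (Even (G.f y)) := hR'.cl y hy
      rw [e, c1, q, decide_eq_decide, Int.even_sub_one] at c2
      tauto
  · show tr ((tr a v).2 - v.2) t = _
    rw [show (tr a v).2 - v.2 = a by simp [tr]]

end

theorem sr_ex [Fintype J] {Γ : SimpleGraph (Vx J)} {η : ℤ × ℤ →+ ℤ} {f an : _} (hG : Good Γ)
    (H : Fr1 Γ η f v an G) (R : RH Γ η v f) (A : An1 Γ f v an) (E : Spike Γ η v) :
    ∃ l r, SR G v l r := by
  have sv := sv_of H R (Or.inl E)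
  obtain ⟨⟨r, -, r1, r2⟩, l, -, l1, l2⟩ := sv.side_ex H.vk
  refine ⟨l, r, sv, H.eK, by rw [H.ef, rais_k rfl, R.root]; rfl, (H.spike R E H.vk).symm,
    ⟨l1, l2⟩, ⟨r1, r2⟩, rows_three (H.eΓ ▸ hG) H.vf.toRows, fun x hx => ?_⟩
  obtain ⟨n, -, h1, h2⟩ := FZ.chain_end (Pr := {x | rais f v (an x) = rais f v x - 1}) (an := an)
    R.d1.fine (rais_per R) (fun x a ha => by have := R.d1.sl x a ha; omega)
    (fun x hx => ⟨A.adj x, hx⟩) x
  by_contra c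
  simp only [not_exists] at c
  have key : ∀ i, (FL G).an^[i] x = an^[i] x := fun i => by
    induction i with
    | zero => rfl
    | succ i ih =>
      rw [Function.iterate_succ_apply', Function.iterate_succ_apply', ← ih, ← H.ea]
      exact (H.vf.xo _ (c i)).1
  refine c n ((H.eK _).2 ?_)
  rw [key, H.ea]
  exact ((A.alt _).resolve_left h2).2.1

/-! ### The record of a plan -/

/-- The pinned edges. -/
def P0 (E : EJ J) : Set (Vx J) := {x | x.1 ∈ E.Pn}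

/-- The ends of the pins and the feet of the stems. -/
def Ends (G : VD J) (P : Set (Vx J)) : Set (Vx J) :=
  {y | (∃ g ∈ P, g ∈ G.LA ∧ (y = g ∨ y = G.nx g)) ∨ ∃ k ∈ G.K, y = G.xl k}

/-- The visible vertices: all chains of parents that begin in `Ends`. -/
def Vis (G : VD J) (P : Set (Vx J)) : Set (Vx J) := {x | ∃ n, ∃ y ∈ Ends G P, x = (FL G).an^[n] y}

/-- The static edges. -/
def St0 (G : VD J) (E : EJ J) : Set (Vx J) :=
  {y | y.1 ∈ E.Pn ∨ (y ∈ Vis G (P0 E) ∧ G.nx y ∈ Vis G (P0 E))}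

/-- The barrier does not pin `e`. -/
def NW (G : VD J) (φ : Vx J → Vx J) (E : EJ J) (e : Vx J) : Prop :=
  (∃ n, φ^[n] e ∈ St0 G E) ∨ ¬ Per φ e

/-- The kinds of special top edges over the strict edges `S`. -/
def Spe (G : VD J) (φ : Vx J → Vx J) (E : EJ J) (m0 : J) (S : Set (Sym2 (Vx J))) (e : Vx J) :
    Prop :=
  (e ∈ St0 G E ∧ ∃ T X' Q, S ⊆ T ∧ OutX G.Γ (Bc G e) T X' Q fun _ _ => True) ∨
  (e ∈ St0 G E ∧ (e.1 ∈ E.Sk ∨ e.1 ∈ E.Ps) ∧
    ∃ T o, S ⊆ T ∧ T ⊆ PE G.Γ (Bc G e).X ∧ Out G.Γ (Bc G e) T o) ∨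
  ((e.1 ∈ E.Sk ∨ e.1 ∈ E.Ps) ∧ NW G φ E e ∧ ∃ f f', S ⊆ {f, f'} ∧ Span G e f f') ∨
  ((∃ f ∈ PE G.Γ (Bc G e).X, ∃ f' ∈ PE G.Γ (Bc G e).X, S ⊆ {f, f'}) ∧
    ((e.1 ∈ E.Sk ∧ e ∈ St0 G E) ∨
      (e.1 ∈ E.Ps ∧ e.1 = m0 ∧ ∀ y ∈ G.L (G.f e), y.1 ∉ E.Sk) ∨
      (e.1 ∈ E.Sk ∧ Odd (G.nn (G.f e)) ∧ (∀ y ∈ G.L (G.f e), y.1 ∈ E.Sk → y.1 = e.1) ∧
        G.nx e ∈ Vis G (P0 E) ∧ NW G φ E e)))

/-- A plan for the spike `v`: the edges from `v` to its foot are strict on the sides `pL`, `pR`. -/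
structure SK (G : VD J) (φ : Vx J → Vx J) (v : Vx J) (E : EJ J) (m0 : J) (pL pR : Prop) :
    Prop where
  dis : ∀ i ∈ E.Sr, i ∉ E.Sk ∧ i ∉ E.Ps
  ne : ∀ j, (∃ m ∈ G.L j, m.1 ∈ E.Sk) ∨ Even (G.nn j)
  alt : ∀ j, ∀ s ∈ G.L j, ∀ s' ∈ G.L j, s.1 ∈ E.Sk → s'.1 ∈ E.Sk → G.ρ s < G.ρ s' →
    ∃ g ∈ G.L j, g.1 ∈ E.Sr ∧ G.ρ s < G.ρ g ∧ G.ρ g < G.ρ s'
  md : pL ∨ pR
  vL : pL ∨ HL G ∨ (pv (FL G) (G.xl v)).1 ∈ E.Pn
  vR : pR ∨ HR G ∨ (G.xl v).1 ∈ E.Pn
  top : ∀ e ∈ G.LA, SS G (P0 E) pL pR e ⊆ ∅ ∨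
    (∃ f, SS G (P0 E) pL pR e ⊆ {f} ∧ (e.1 ∈ E.Sk ∨ e.1 ∈ E.Ps)) ∨
    (∃ f f', SS G (P0 E) pL pR e ⊆ {f, f'} ∧ e.1 ∈ E.Sk ∧ e.1 ∈ E.Ps) ∨
    ∃ a, Spe G φ E m0 (SS G (P0 E) pL pR (tr a e)) (tr a e)

end Pool.Agent.P.MP_08fd93_co.FK
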