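import Pool.Agent.P.MP_08fd93_co.FK.K6

/-! Frames with one orbit of spikes: a plan gives the colouring. -/

set_option autoImplicit false

namespace Pool.Agent.P.MP_08fd93_co.FK

open OV PkPrtP FB FE FZ FN FU FR

variable {J : Type} {G : VD J} {P : Set (Vx J)} {pL pR : Prop} {φ : Vx J → Vx J}
  {e t v l r k x y g : Vx J} {f f' : Sym2 (Vx J)} {j : ℤ} {E : EJ J} {m0 : J}
  {S : Set (Sym2 (Vx J))}

theorem vis_end (hx : x ∈ Ends G P) : x ∈ Vis G P := ⟨0, x, hx, rfl⟩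

theorem vis_pin (hg : g ∈ G.LA) (m : g ∈ P) : g ∈ Vis G P ∧ G.nx g ∈ Vis G P :=
  ⟨vis_end (Or.inl ⟨g, m, hg, Or.inl rfl⟩), vis_end (Or.inl ⟨g, m, hg, Or.inr rfl⟩)⟩

theorem vis_ft (hk : k ∈ G.K) : G.xl k ∈ Vis G P := vis_end (Or.inr ⟨k, hk, rfl⟩)

/-- the left foot of the parent of a visible vertex is visible -/
theorem vis_an (hx : x ∈ Vis G P) : G.xl (G.an x) ∈ Vis G P :=
  let ⟨n, y, a, b⟩ := hx
  ⟨n + 1, y, a, by rw [Function.iterate_succ_apply', ← b]; rfl⟩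

theorem vis_it (hx : x ∈ Vis G P) (n : ℕ) : (FL G).an^[n] x ∈ Vis G P :=
  let ⟨m, y, a, b⟩ := hx
  ⟨n + m, y, a, by rw [Function.iterate_add_apply, ← b]⟩

theorem st0_pin (m : e.1 ∈ E.Pn) : e ∈ St0 G E := Or.inl m

theorem nw_st (m : e ∈ St0 G E) : NW G φ E e := Or.inl ⟨0, m⟩

section

variable (h : SR G v l r)
include h

theorem SR.an_it (a : ℤ × ℤ) (x : Vx J) (n : ℕ) :
    (FL G).an^[n] (tr a x) = tr a ((FL G).an^[n] x) := by
  induction n with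
  | zero => rfl
  | succ i ih => rw [Function.iterate_succ_apply', Function.iterate_succ_apply', ih,
      h.sv.lay.atr a _ (h.sv.pr _)]

theorem SR.an_lev (hx : x ∈ G.L j) (n : ℕ) : (FL G).an^[n] x ∈ G.L (j - n) := by
  induction n with
  | zero => simpa using hx
  | succ i ih =>
    rw [Function.iterate_succ_apply', Nat.cast_succ, ← sub_sub]
    exact h.sv.lay.anL _ _ ih (h.sv.pr _)

/-- the parent of a visible vertex is visible -/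
theorem SR.vis_an (hx : x ∈ Vis G P) (n : G.an x ∉ G.K) : G.an x ∈ Vis G P :=
  (h.sv.vf.xo _ n).1 ▸ FK.vis_an hx

theorem SR.vis_u : G.xl v ∈ Vis G P := vis_ft h.vk

theorem SR.vis_la (hx : x ∈ Vis G P) : x ∈ G.LA := by
  obtain ⟨n, y, a, rfl⟩ := hx
  have : y ∈ G.LA := by
    rcases a with ⟨g, -, hg, rfl | rfl⟩ | ⟨k, hk, rfl⟩
    exacts [hg, h.rows.la (h.rows.nx_mem hg).1, h.rows.la (h.sv.foot hk).1.1]
  exact h.rows.la (h.an_lev this n)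

theorem SR.vis_tr (a : ℤ × ℤ) (hx : x ∈ Vis G (P0 E)) : tr a x ∈ Vis G (P0 E) := by
  obtain ⟨n, y, m, rfl⟩ := hx
  refine ⟨n, tr a y, ?_, (h.an_it a y n).symm⟩
  rcases m with ⟨g, m, hg, e⟩ | ⟨k, hk, rfl⟩
  · refine Or.inl ⟨tr a g, m, (h.sv.lay.la_tr a g).2 hg, ?_⟩
    rw [h.rows.nx_tr a hg]
    exact e.imp (congrArg _) (congrArg _)
  · exact Or.inr ⟨_, h.sv.vf.ktr a k hk, (h.sv.vf.xtr a k).1.symm⟩

theorem SR.vis_orb (hx : x ∈ Vis G (P0 E)) (e : y.1 = x.1) : y ∈ Vis G (P0 E) :=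
  orb_eq e ▸ h.vis_tr _ hx

theorem SR.st0_tr (a : ℤ × ℤ) (hx : x ∈ St0 G E) : tr a x ∈ St0 G E :=
  hx.imp_right fun k => ⟨h.vis_tr a k.1, by
    rw [h.rows.nx_tr a (h.vis_la k.1)]
    exact h.vis_tr a k.2⟩

theorem SR.st0_orb (hx : x ∈ St0 G E) (e : y.1 = x.1) : y ∈ St0 G E := orb_eq e ▸ h.st0_tr _ hx

/-- a child of the root is visible -/
theorem SR.vis_kid : ∃ t ∈ Vis G (P0 E), G.an t = v := by
  obtain ⟨n, m⟩ := h.acy _ (h.rows.la h.u0.1)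
  obtain ⟨a, e⟩ := h.k_tr m
  exact ⟨_, h.vis_tr (-a) (vis_it h.vis_u n), by rw [h.sv.vf.atr, e, tr_neg]⟩

theorem SR.pe_l (a : ℤ × ℤ) : s(tr a v, tr a (G.xl v)) ∈ PE G.Γ (Bc G (tr a l)).X := by
  have := (h.sv.ssL (P := ∅) (pL := True) (pR := True) (h.sv.isL_tr a h.hl.1) trivial).1
  rwa [h.rows.nx_tr a h.l1, h.sv.vf.atr, h.hl.2, (h.sv.vf.xtr a v).1, ← h.rows.nx_tr a h.l1] at this

theorem SR.pe_r (a : ℤ × ℤ) : s(tr a v, tr a (G.xl v)) ∈ PE G.Γ (Bc G (tr a r)).X := by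
  have := (h.sv.ssR (P := ∅) (pL := True) (pR := True) (h.sv.isR_tr a h.hr.1) trivial).1
  rwa [h.sv.vf.atr, h.hr.2, h.xr, (h.sv.vf.xtr a v).1] at this

theorem SR.pe_l0 : s(v, G.xl v) ∈ PE G.Γ (Bc G l).X := by simpa only [tr_zero] using h.pe_l 0

theorem SR.pe_r0 : s(v, G.xl v) ∈ PE G.Γ (Bc G r).X := by simpa only [tr_zero] using h.pe_r 0

variable (hφ : PH (FL G) G.Pr φ)
include hφ

theorem SR.pe_row (hg : g ∈ G.LA) (m : φ g = e) : s(g, G.nx g) ∈ PE G.Γ (Bc G e).X :=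
  (h.sv.und_iff hφ (m ▸ hφ.la h.sv.lay hg) hg).2 ⟨m, h.nc g⟩

/-- the strict edges under `e` -/
theorem SR.ss_sub (he : e ∈ G.LA) (h1 : ∀ g ∈ G.LA, g ∈ P → φ g = e → s(g, G.nx g) ∈ S)
    (h2 : pL → ∀ a, e = tr a l → s(tr a v, tr a (G.xl v)) ∈ S)
    (h3 : pR → ∀ a, e = tr a r → s(tr a v, tr a (G.xl v)) ∈ S) : SS G P pL pR e ⊆ S := by
  refine h.sv.ss_sub hφ he (fun g a b c _ => h1 g b a c) (fun a i => ?_) fun a i => ?_
  · obtain ⟨b, e1, e2⟩ := h.isL i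
    rw [e2, (h.sv.vf.xtr b v).1]
    exact h2 a b e1
  · obtain ⟨b, e1, e2⟩ := h.isR i
    rw [e2, h.xr, (h.sv.vf.xtr b v).1]
    exact h3 a b e1

/-- the barrier avoids `e` if the periodic edge under `e` is static -/
theorem SR.nw_of (he : e ∈ G.LA) (k : ∀ g ∈ G.LA, φ g = e → Per φ g → g ∈ St0 G E) :
    NW G φ E e := by
  refine or_iff_not_imp_right.2 fun q => ?_
  obtain ⟨g, a, b, c, n, m⟩ := Per.pre h.sv.lay hφ he (not_not.1 q)
  exact ⟨n, h.st0_orb (k g a b c) m⟩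

omit hφ in
/-- a static edge over a good edge -/
theorem SR.spe_k1 (he : e ∈ G.LA) (s : e ∈ St0 G E) (sub : S ⊆ {f})
    (m : f ∈ PE G.Γ (Bc G e).X) (n : ¬ Ex G e f) : Spe G φ E m0 S e :=
  let ⟨X', Q, O⟩ := outX_k1 h.sv.lay.fine.pl (all_T _ _ h.sv.lay.fine.pl) (h.sv.bc_disc he)
    (h.sv.bc_st he) m fun z b => n ⟨z, b⟩
  Or.inl ⟨s, _, X', Q, sub, O⟩

omit hφ in
/-- a rung from the left end of a static edge to a vertex right of the strict edge -/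
theorem SR.spe_sep (he : e ∈ G.LA) (s : e ∈ St0 G E) (sub : S ⊆ {f})
    (m : f ∈ PE G.Γ (Bc G e).X) (ht : t ∈ (Bc G e).X) (a : G.Γ.Adj e t)
    (k : ∀ x ∈ f, (Bc G e).ρ x ≤ (Bc G e).ρ t) : Spe G φ E m0 S e :=
  let ⟨X', Q, O⟩ := ox_sep (all_T _ _ h.sv.lay.fine.pl) (h.sv.bc_disc he) (h.sv.bc_st he) m ht a k
  Or.inl ⟨s, _, X', Q, sub, O⟩

omit hφ in
/-- a rung from the right end of a static edge to a vertex left of the strict edge -/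
theorem SR.spe_sep' (he : e ∈ G.LA) (s : e ∈ St0 G E) (sub : S ⊆ {f})
    (m : f ∈ PE G.Γ (Bc G e).X) (ht : t ∈ (Bc G e).X) (a : G.Γ.Adj (G.nx e) t)
    (k : ∀ x ∈ f, (Bc G e).ρ t ≤ (Bc G e).ρ x) : Spe G φ E m0 S e :=
  let ⟨X', Q, O⟩ := ox_sep' (all_T _ _ h.sv.lay.fine.pl) (h.sv.bc_disc he) (h.sv.bc_st he) m ht a k
  Or.inl ⟨s, _, X', Q, sub, O⟩

end

/-- The left end of `e` can pay for the strict edges `S e`. -/
def LP (G : VD J) (S : Vx J → Set (Sym2 (Vx J))) (e : Vx J) : Prop :=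
  ∃ f f' X' Q, S e ⊆ {f, f'} ∧ OutX G.Γ (Bc G e) {f, f'} X' Q fun c A => c e = c (G.nx e) ∨ e ∈ A

/-- The colouring from a plan. -/
theorem SK.col [Fintype J] (h : SR G v l r) (hφ : PH (FL G) G.Pr φ) (H : SK G φ v E m0 pL pR) :
    ∃ c, Col1 G.Γ ∅ c := by
  classical
  have hF := h.sv.lay
  have R := h.rows
  have V := h.sv.vf
  obtain ⟨W, rk, N, hw⟩ := pw_ex (A := (FL G).LA) (G := St0 G E) (φ := φ)
    (fun a x k => (hF.la_tr a x).2 k) (fun a _ k => h.st0_tr a k) hφ.eqv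
  let P : Set (Vx J) := P0 E ∪ W
  let Vs := Vis G (P0 E)
  let S0 := SS G (P0 E) pL pR
  let Dl : Set (Vx J) := {x | ∃ a, LP G S0 (tr a x)}
  have iD : ∀ a, ∀ x ∈ Dl, tr a x ∈ Dl := fun a x ⟨b, k⟩ =>
    ⟨-a + b, by rwa [← tr_tr, tr_neg]⟩
  let D : ED J := ⟨{y | y.1 ∈ E.Sr}, {y | y.1 ∈ E.Sk}, {y | y.1 ∈ E.Sk}, ∅, P, Dl⟩
  have hE : EOk2 (FL G) D := ⟨fun _ _ k => k, fun _ _ k => k, fun _ _ k => k, fun _ _ k => k,
    fun a x k => k.imp_right (hw.inv a x).2, iD, fun x k => (H.dis _ k).1,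
    fun _ k => k, fun _ k => k.elim, fun j => or_iff_not_imp_left.2 fun q =>
      ⟨(H.ne j).resolve_left q, fun y a b => q ⟨y, a, b⟩⟩, H.alt⟩
  let Dr : Set (Vx J) :=
    {x | (∃ e ∈ G.L (G.f x), e.1 = m0 ∧ e ∈ Dl) ∧ x ∈ G.LA ∧ ∀ y ∈ G.L (G.f x), y.1 ∉ E.Sk}
  have hD : Dir (FL G) D Dr := by
    refine ⟨?_, fun j x hx y hy k => ?_, fun x k => k.2.2 x k.2.1⟩
    · rintro a x ⟨⟨e, e1, e2, e3⟩, k1, k2⟩
      refine ⟨⟨tr a e, (hF.l_tr a x e).2 e1, e2, iD a e e3⟩, (hF.la_tr a x).2 k1, fun y hy => ?_⟩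
      obtain ⟨y, rfl⟩ := tr_surj a y
      exact k2 y ((hF.l_tr a x y).1 hy)
    · have : G.f y = G.f x := (R.uw.lf _ _ hy).trans (R.uw.lf _ _ hx).symm
      exact ⟨this ▸ k.1, R.la hy, this ▸ k.2.2⟩
  obtain ⟨p, hR, pl, kc, pay⟩ := h.plan hE (ori_as hF hE hD) (if pR then l else r)
  have ip : ∀ a x, tr a x ∈ P ↔ x ∈ P := fun a x => or_congr_right (hw.inv a x)
  have hp : PS (FL G) (XL G) G.Pr p (PQ1 G P Vs pL pR) := by
    refine h.sv.ps1 pl ip (inv_iff fun a _ => h.vis_tr a)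
      (fun y hy n => Or.inr (hR.up hF hy (fun k => n (Or.inl (Or.inl k))) n)) ?_ fun j => ?_
    · rintro x ⟨_ | n, y, m, rfl⟩ hx
      · rcases m with ⟨g, a, b⟩ | ⟨k, hk, rfl⟩
        · exact Or.inl ⟨g, Or.inl a, b⟩
        · have := (h.sv.foot hk).1
          exact Or.inr (Or.inr ⟨k, hk, by
            rw [R.uw.lf _ _ this.1, sub_add_cancel], this.2.symm⟩)
      · have m' : (FL G).an^[n] y ∈ Vs := ⟨n, y, m, rfl⟩
        exact Or.inr (Or.inl ⟨_, m', h.vis_la m', by rw [Function.iterate_succ_apply']; rfl⟩)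
    · obtain ⟨b, b0, -⟩ := hF.gen
      have a1 := le_abs_self j
      have a0 := abs_nonneg j
      obtain ⟨n, hn⟩ := Int.eq_ofNat_of_zero_le (show 0 ≤ |j| * (FL G).η b - j by nlinarith)
      refine ⟨_, ?_, h.vis_tr (|j| • b) (vis_it h.vis_u n)⟩
      have := (hF.ltr (|j| • b) _ _).2 (h.an_lev h.u0.1 n)
      rwa [map_zsmul, smul_eq_mul, ← hn, show 0 - (|j| * (FL G).η b - j) + |j| * (FL G).η b = j by
        ring] at this
  have st : StC G p Vs pL pR := by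
    refine ⟨fun k hk => ?_, kc, fun e i => ?_, fun e i => ?_⟩
    · obtain ⟨a, rfl⟩ := h.k_tr hk
      obtain ⟨t, t1, t2⟩ := h.vis_kid (E := E)
      exact ⟨_, h.vis_la (h.vis_tr a t1), h.vis_tr a t1, by rw [V.atr, t2]⟩
    · obtain ⟨a, rfl, ha⟩ := h.isR i
      refine or_iff_not_imp_left.2 fun q => Or.inr (Or.inl ?_)
      rw [ha]
      simpa only [if_neg q] using pay a
    · obtain ⟨a, rfl, ha⟩ := h.isL i
      refine or_iff_not_imp_left.2 fun q => Or.inr (Or.inl ?_)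
      rw [ha]
      simpa only [if_pos (H.md.resolve_left q)] using pay a
  have vis : ∀ e ∈ G.LA, VisE G P Vs (pL ∨ HL G) (pR ∨ HR G) e := fun e _ => by
    refine ⟨fun i => ?_, fun i => ?_⟩
    · obtain ⟨a, -, ha⟩ := h.isR i
      rw [ha, h.xr, (V.xtr a v).1]
      exact (or_assoc.2 H.vR).imp_right fun k => Or.inl (Or.inl k)
    · obtain ⟨a, -, ha⟩ := h.isL i
      obtain ⟨m1, -, m2⟩ := pv_mem hF h.u0.1
      refine (or_assoc.2 H.vL).imp_right fun k =>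
        Or.inl ⟨tr a _, Or.inl k, (hF.la_tr a _).2 (hF.la m1), ?_⟩
      rw [ha, (V.xtr a v).1, R.nx_tr a m1]
      exact congrArg _ m2
  have s1 : ∀ y ∈ St0 G E, y ∈ (PQ1 G P Vs pL pR).St (FL G) := fun y k =>
    st1.2 (k.imp_left Or.inl)
  have ss : ∀ e ∈ G.LA, ∀ z ∈ SS G P pL pR e, z ∈ S0 e ∨ ∃ g ∈ W, φ g = e ∧ z = s(g, G.nx g) := by
    rintro e he z ⟨m, ⟨g, g1 | g1, g2, rfl⟩ | k⟩
    exacts [Or.inl ⟨m, Or.inl ⟨g, g1, g2, rfl⟩⟩,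
      Or.inr ⟨g, g1, ((h.sv.und_iff hφ he g2).1 m).1, rfl⟩, Or.inl ⟨m, Or.inr k⟩]
  have nw : ∀ e ∈ G.LA, e ∉ W → SS G P pL pR e ⊆ S0 e := fun e he n z m =>
    (ss e he z m).resolve_right fun ⟨g, a, b, _⟩ => n (b ▸ hw.up g a)
  have n0 : ∀ e ∈ St0 G E, e ∉ W := fun e a b => hw.ng e b a
  have n1 : ∀ e, NW G φ E e → e ∉ W := fun e a b => by
    rcases a with ⟨n, a⟩ | a
    · refine n0 _ a ?_
      clear a
      induction n with
      | zero => exact b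
      | succ n ih =>
        rw [Function.iterate_succ_apply']
        exact hw.up _ ih
    · exact a (PWR.per hφ hw b)
  have dn1 : ∀ e ∈ G.LA, e.1 ∈ E.Sk ∨ e.1 ∈ E.Ps → p.Dn (FL G) e := fun e he k =>
    Or.inr (k.elim (fun s => hR.snk_down hF he s)
      fun s => hR.down hF he (fun q => (H.dis _ q).2 s) (Or.inl (Or.inr s)))
  have dn : ∀ y ∈ G.LA, y ∉ (PQ1 G P Vs pL pR).St (FL G) → (SS G P pL pR y).Nonempty →
      p.Dn (FL G) y := fun y hy n ⟨z, m⟩ => by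
    refine dn1 y hy ?_
    rcases H.top y hy with k | ⟨_, -, k⟩ | ⟨_, _, -, k⟩ | ⟨a, k | k | k | ⟨-, k | k | k⟩⟩
    exacts [(k (nw y hy (fun q => n (st1.2 (Or.inl (Or.inr q)))) m)).elim, k, Or.inl k.1,
      (n (s1 y (h.st0_orb k.1 rfl))).elim, k.2.1, k.1, Or.inl k.1, Or.inr k.1, Or.inl k.1]
  have t2 : ∀ e ∈ G.LA, e ∈ P → e.1 ∈ E.Sk → ∀ f f', SS G P pL pR e ⊆ {f, f'} →
      ∃ a, Spc G p (PQ1 G P Vs pL pR) (tr a e) := fun e he m s f f' sub => by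
    rw [← tr_zero e] at he m sub
    have a := hR.snk hF he s
    have b := hR.snk_dn he s
    exact ⟨0, h.sv.spc_stat hp (st1.2 (Or.inl m)) (csol_b2 h.sv hp st vis he
      ((mb_c1 he).eb hF (h.sv.mb he) (h.sv.vcb he).mc (fun _ m => m.1) ⟨f, f', sub⟩
        (Or.inr ⟨a.1, b.1.2 (Or.inl m), a.2, b.2.2 (Or.inl m)⟩)))⟩
  have eb : ∀ e ∈ G.LA, e ∈ St0 G E → (∃ f ∈ PE G.Γ (Bc G e).X, ∃ f' ∈ PE G.Γ (Bc G e).X,
      S0 e ⊆ {f, f'}) → (∀ y ∈ G.LA, y.1 = e.1 → y ∈ Dl → PayE (FL G) p y y) →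
      (e ∉ Dl → PayE (FL G) p e (G.nx e)) → ∃ a, Spc G p (PQ1 G P Vs pL pR) (tr a e) := by
    rintro e he s ⟨f, m, f', m', sub⟩ k1 k2
    by_cases c : e ∈ Dl
    · obtain ⟨a, g, g', X', Q, b, O⟩ := id c
      have he' := (hF.la_tr a e).2 he
      have s' := h.st0_tr a s
      exact ⟨a, h.sv.spc_stat hp (s1 _ s') (csol_eb2 h.sv hp st vis he'
        ((nw _ he' (n0 _ s')).trans b) O (k1 _ he' rfl (iD a e c)))⟩
    · obtain ⟨X', Q, t, rfl | rfl, O⟩ := h.sv.eb_ex he m m'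
      · exact absurd ⟨0, f, f', X', Q, by rw [tr_zero]; exact ⟨sub, O⟩⟩ c
      · exact ⟨0, (tr_zero e).symm ▸ h.sv.spc_stat hp (s1 _ s) (csol_eb2 h.sv hp st vis he
          ((nw _ he (n0 _ s)).trans sub) O (k2 c))⟩
  refine master2 h.sv hp st vis hφ (fun y hy => ?_) fun e he => ?_
  · induction hn : rk y using Nat.strong_induction_on generalizing y with
    | _ n ih =>
      by_cases k : y ∈ St0 G E
      · exact ⟨0, s1 y k⟩
      by_cases k' : y ∈ W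
      · exact ⟨0, st1.2 (Or.inl (Or.inr k'))⟩
      obtain ⟨m, hm⟩ := ih _ (hn ▸ hw.lt y hy k k') _ (hφ.la hF hy) rfl
      exact ⟨m + 1, hm⟩
  have one : e ∈ W → ∃ w, ∀ z ∈ SS G P pL pR e, z ∈ S0 e ∨ z = w := fun k => by
    obtain ⟨w, w1, w2⟩ := hw.dn e k
    exact ⟨s(w, G.nx w), fun z m => (ss e he z m).imp_right fun ⟨y, y1, y2, y3⟩ =>
      hw.inj y y1 w w1 (y2.trans w2.symm) ▸ y3⟩
  rcases H.top e he with k | ⟨f, k, s⟩ | ⟨f, f', k, s⟩ | ⟨a, k⟩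
  · by_cases c : e ∈ W
    · obtain ⟨w, hw'⟩ := one c
      exact Or.inl (od1_one (f := w) (fun z m => (hw' z m).resolve_left fun q => k q)
        (Or.inr (hR.down hF he (fun q => n0 e (Or.inl (Or.inl q)) c) (Or.inr c))))
    · exact Or.inl (od1_none ((nw e he c).trans k))
  · by_cases c : e ∈ W
    · obtain ⟨w, hw'⟩ := one c
      exact Or.inr (t2 e he (Or.inr c) (s.resolve_right fun q => n0 e (Or.inl (Or.inr q)) c) f w
        fun z m => (hw' z m).imp_left fun q => k q)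
    · exact Or.inl (od1_one ((nw e he c).trans k) (dn1 e he s))
  · exact Or.inr (t2 e he (Or.inl (Or.inr s.2)) s.1 f f'
      ((nw e he (n0 e (Or.inl (Or.inr s.2)))).trans k))
  right
  have he' := (hF.la_tr a e).2 he
  suffices ∃ b, Spc G p (PQ1 G P Vs pL pR) (tr b (tr a e)) from
    this.elim fun b k => ⟨a + b, tr_tr b a e ▸ k⟩
  generalize tr a e = y at k he'
  have z0 : Spc G p (PQ1 G P Vs pL pR) y → ∃ b, Spc G p (PQ1 G P Vs pL pR) (tr b y) :=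
    fun k => ⟨0, (tr_zero y).symm ▸ k⟩
  rcases k with ⟨s, T, X', Q, b, O⟩ | ⟨s, m, T, o, b, c, O⟩ | ⟨m, n, f, f', b, c⟩ |
    ⟨two, ⟨m, s⟩ | ⟨m, s, c⟩ | ⟨m, od, u, vs, n⟩⟩
  · exact z0 (h.sv.spc_stat hp (s1 y s) (csol_b2 h.sv hp st vis he'
      (sl_true (O.mono ((nw y he' (n0 y s)).trans b)) (Set.empty_subset _))))
  · exact z0 (h.sv.spc_stat hp (s1 y s) (csol_b2 h.sv hp st vis he'
      ((sl_out hF (h.sv.mb he') (h.sv.vcb he').mc rfl O c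
        fun _ => (mb_c1 he').t1 hF (dn1 y he' m)).mono ((nw y he' (n0 y s)).trans b)
        (Set.empty_subset _))))
  · exact z0 (spc_sp2 h.sv hp st vis ((nw y he' (n1 y n)).trans b) c (dn1 y he' m) dn)
  · refine eb y he' s two (fun x hx q k => ?_) fun k => ?_
    · have m' : x.1 ∈ E.Sk := q ▸ m
      exact Or.inr (Or.inl ⟨rfl, (hR.snk hF hx m').1, (hR.snk_dn hx m').1.2 (Or.inr k)⟩)
    · exact Or.inr (Or.inr ⟨rfl, (hR.snk hF he' m).2, (hR.snk_dn he' m).2.2 (Or.inr k)⟩)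
  · refine eb y he' (Or.inl (Or.inr m)) two (fun x hx q k => ?_) fun k => ?_
    · refine Or.inr (Or.inl ⟨rfl, hR.down_l hx (Or.inl (Or.inr (q ▸ m)))
        (Or.inr ⟨⟨x, hx, q.trans s, k⟩, hx, fun z hz => ?_⟩)⟩)
      rw [orb_eq q] at hz
      obtain ⟨z, rfl⟩ := tr_surj (x.2 - y.2) z
      exact c z ((hF.l_tr _ y z).1 hz)
    · refine Or.inr (Or.inr ⟨rfl, hR.down_r hF he' (Or.inl (Or.inr m)) ?_⟩)
      rintro (q | ⟨⟨x, -, x1, x2⟩, -⟩)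
      · exact as_none (E := D) hF c (R.nx_mem he').1 q
      · exact k (orb_eq (s.trans x1.symm) ▸ iD _ x x2)
  · obtain ⟨f, m1, f', m2, b⟩ := two
    obtain ⟨X', Q, t, -, O⟩ := h.sv.eb_ex he' m1 m2
    exact z0 (spc_rem2 h.sv hp st vis he' vs ((nw y he' (n1 y n)).trans b) O
      ((hR.mono_iff hF he' u fun _ _ k => k).2 od).symm dn)

end Pool.Agent.P.MP_08fd93_co.FK
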