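import Pool.Agent.P.MP_08fd93_co.FK.K10

/-! Short tails: the two plans with a free source on the left side. -/

set_option autoImplicit false

namespace Pool.Agent.P.MP_08fd93_co.TB

open OV PkPrtP FB FE FZ FN FR FK FP2 TT

variable {J : Type} {G : TD J} {φ : Vx J → Vx J} {v z la lb lc ld y : Vx J}

/-- Plans give colourings. -/
def S_Col : Prop := ∀ (J : Type) [Fintype J] (G : TD J) (φ : Vx J → Vx J)
  (v z la lb lc ld : Vx J) (E : EJ J) (Y : TX J), TQ G v z la lb lc ld → PH (FT G) G.Pr φ →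
    TK G φ z E Y → ∃ c, Col1 G.Γ ∅ c

theorem lb_eq (h : TQ G v z la lb lc ld) (h1 : G.an (G.nx la) = v) : lb = la := by
  obtain ⟨a1, b1, -, -, l, -⟩ := h.ord
  obtain ⟨n1, n2, -⟩ := h.rows.nx_mem a1
  have := ((h.an_iff n1).1 h1).1
  exact h.rows.inj b1 a1 (by omega)

theorem modeI_of (col : S_Col) : FP.S_I := by
  rintro J _ G φ v z la lb lc ld h s hφ ⟨h1, rg, y, hy, ny, py, fr, ar⟩
  obtain rfl := lb_eq h h1
  have R := h.rows
  have hF := h.st.lay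
  obtain ⟨b, H⟩ := tq_lb h hφ
  obtain ⟨a1, -, -, d1, -⟩ := h.ord
  have ne : lb.1 ≠ ld.1 := fun e => rg (by
    rw [FZ.orb_eq e, h.st.tf.atr]
    exact h.st.tf.vtr _ _ (h.st.tf.nk_v.1 (h.hd.2 ▸ h.zV)))
  obtain ⟨E, t, t1, t2, -, a0, a1', Q⟩ := one (Y := {lb.1, ld.1}) h s hφ hy a1
    (H.rw1 a1 ⟨ld, d1, rfl⟩ ne) (FA.r1_pn lb ld).le
    (lk1 hF hφ (R.la hy) (Or.inl (Or.inl (by rw [py])))) ar
  have pin : FA.Pin (FT G) E 0 {y.1} := FA.r1_pn y t ▸ a0.pin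
  refine col J G φ v z lb lb lc ld E _ h hφ (tk_of (x := ⟨False, True, False, True⟩) (jv := .c)
    (jz := .a) h hφ Q (fun _ c => s.nl _ _ (R.nx_mem hy).2.2 ?_) False.elim (fun _ => Or.inl rfl)
    False.elim (fun _ => Or.inr rfl) (Or.inr rfl) (Or.inl trivial) (Or.inr (Or.inl rfl))
    (Or.inl trivial) (fun _ => ⟨fun _ => ny ▸ ae_nx h a0 hy (fun _ => id) t1 t2 rfl,
      (nomatch ·), fun k => k.elim (nomatch ·) (nomatch ·)⟩) (keepL_b trivial fun k hk => ?_)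
    (keepR_d trivial) (tops_of h hφ ?_))
  · rw [ny]
    exact (pin _ h.feet.1.1 c).symm
  · obtain ⟨c, -, m, -⟩ := h.k_x hk
    exact ⟨tr c y, Or.inl ((a0.pn hy).2 (Or.inl rfl)), (hF.la_tr c y).2 (R.la hy), by
      rw [R.nx_tr c hy, ny, m]⟩
  · rintro _ (rfl | rfl)
    · refine ⟨lb, R.la a1, rfl, tq_free (ss_row (j := 0) h hφ pin a1 (fun g hg m q _ => ?_)
        False.elim (fun _ c q => ?_) False.elim fun _ c q => absurd (congrArg Prod.fst q) ne)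
        (sta_pn ((a1'.pn a1).2 (Or.inl rfl))) fr⟩
      · rw [hφ.inj1 (R.la hg) m (q.trans py.symm), ny]
        exact Or.inl rfl
      · rw [tr_eq_self q.symm, tr_zero, tr_zero]
        exact Or.inr rfl
    · refine ⟨ld, R.la d1, rfl, tq_one (f := s(z, G.xr z)) (ss_row (j := 0) h hφ pin d1
        (fun g hg m q _ => absurd ?_ ne) False.elim
        (fun _ c q => absurd (congrArg Prod.fst q).symm ne) False.elim fun _ c q => ?_)
        (Or.inl ((a1' ld d1).2.1.2 rfl))⟩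
      · rw [← py, ← q]
        exact (hφ.fst (R.la hg) m).symm
      · rw [tr_eq_self q.symm, tr_zero, tr_zero]
        rfl

theorem modeII_of (col : S_Col) : FP.S_II := by
  rintro J _ G φ v z la lb lc ld h s hφ ⟨h1, fr, ne, hf, ar⟩
  obtain rfl := lb_eq h h1
  have R := h.rows
  have hF := h.st.lay
  obtain ⟨b, H⟩ := tq_lb h hφ
  have a1 := h.ord.1
  obtain ⟨⟨l0, -⟩, ⟨r0, -⟩, ft, -⟩ := h.feet
  obtain ⟨E, t, t1, t2, -, a0, a1', Q⟩ := one (Y := {lb.1}) h s hφ r0 a1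
    (H.rw1 a1 ⟨_, (h.phi hφ r0).1, rfl⟩ ne.symm) (FA.r1_pn lb _).le
    (lk1 hF hφ (R.la r0) (Or.inr (Or.inl rfl))) ar
  have pin : FA.Pin (FT G) E 0 {(G.xr z).1} := FA.r1_pn _ t ▸ a0.pin
  have src : (G.xr z).1 ∈ E.Sr := (a0 _ r0).1.2 rfl
  refine col J G φ v z lb lb lc ld E _ h hφ (tk_of (x := ⟨True, True, False, False⟩) (jv := .c)
    (jz := .d) h hφ Q (fun n c => s.nl _ _ (R.nx_mem l0).2.2 ?_) (fun _ => rfl) (fun _ => rfl)
    False.elim False.elim (Or.inl trivial) (Or.inl trivial) (Or.inr (Or.inl rfl)) (Or.inr rfl)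
    (fun _ => ⟨(nomatch ·), fun _ => ae_src h (Q.rw 0) (R.la r0) src,
      fun k => k.elim (nomatch ·) (nomatch ·)⟩) (keepL_a trivial)
    (h.keepR_hub (vt_mv h) (pin_tr h) (Or.inl (Or.inl src)) hf) (tops_of h hφ ?_))
  · rw [← ft.resolve_left n.symm]
    exact pin _ l0 c
  · rintro _ rfl
    refine ⟨lb, R.la a1, rfl, tq_free (ss_row (j := 0) h hφ pin a1
      (fun g hg m q _ => absurd ?_ ne) (fun _ c q => ?_) (fun _ c q => ?_) False.elim False.elim)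
      (sta_pn ((a1'.pn a1).2 (Or.inl rfl))) fr⟩
    · rw [← q]
      exact (hφ.fst (R.la hg) m).symm
    · rw [tr_eq_self q.symm, tr_zero, tr_zero]
      exact Or.inl rfl
    · rw [tr_eq_self q.symm, tr_zero, tr_zero]
      exact Or.inr rfl

end Pool.Agent.P.MP_08fd93_co.TB
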