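import Pool.Agent.P.MP_08fd93_co.FK.K9
import Pool.Agent.P.MP_08fd93_co.FP.P0

/-! Short tails: one flow. -/

set_option autoImplicit false

namespace Pool.Agent.P.MP_08fd93_co.TB

open OV PkPrtP FB FE FZ FN FR FK FP2 TT

variable {J : Type} {G : TD J} {φ : Vx J → Vx J} {v z la lb lc ld l x y : Vx J} {j : ℤ}
  {E B : EJ J} {S Y : Set J}

/-- the tops of one row from its link -/
theorem sy_row {F : FD J} {T : EJ J → Vx J → Prop} {X : XD J} {Pr : Set (Vx J)} (hF : Lay F X Pr)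
    (hT : OInv F T) (Q : Sy F T E (RowO F (j + 1))) (k : FA.Pin F E j S)
    (a : FA.Agr F E (j + 1) B) (c : Lk F T j S B Y) : Sy F T E Y := by
  refine ⟨Q.dis, Q.rw, fun e he n => ?_⟩
  by_cases m : e.1 ∈ RowO F (j + 1)
  · obtain ⟨y, hy, q⟩ := m
    rw [FK.eq_tr q]
    exact hT E y (hF.la hy) _ (c E k a y hy (q ▸ n))
  · exact Q.top e he m

variable (h : TQ G v z la lb lc ld)
include h

/-- parents of vertices of even rows lie on the row below -/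
theorem an_even (hx : x ∈ G.L j) (ev : Even j) : G.an x ∉ G.V := fun c =>
  Int.not_odd_iff_even.2 ev (h.st.tf.an_f hx (h.st.pr _) c ▸ h.odd c)

/-- chords lie on even rows -/
theorem chd_even (hy : y ∈ G.L j) (c : Chd G y) : Even j := by
  obtain ⟨k, hk, rfl, -⟩ := c
  rw [← h.rows.uw.lf _ _ hy, h.rows.uw.lf _ _ (h.st.tf.vl k hk).1]
  exact (h.odd hk).sub_odd odd_one

variable (s : FP2.Sl G.Γ G.η) (hφ : PH (FT G) G.Pr φ)
include s hφ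

/-- Two orbits of edges of the row below do not arrive at `x` or are strict together with it. -/
theorem two_good (hx : x ∈ G.L j) (ev : Even j) : ∃ y ∈ G.L (j - 1), ∃ y' ∈ G.L (j - 1),
    y.1 ≠ y'.1 ∧ ((φ y).1 ≠ x.1 ∨ y.1 ∈ K1 G φ) ∧ ((φ y').1 ≠ x.1 ∨ y'.1 ∈ K1 G φ) := by
  have hF := h.st.lay
  have R := h.rows
  have T := h.st.tf
  have n4 := h.n4 (j - 1)
  have lx := R.la hx
  obtain ⟨x1, x2, -⟩ := R.nx_mem hx
  have key : ∀ y ∈ G.L (j - 1), ¬ ((φ y).1 ≠ x.1 ∨ y.1 ∈ K1 G φ) → ∃ g ∈ G.L (j - 1),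
      y.1 = g.1 ∧ s(g, G.nx g) ∈ PE G.Γ (Bd G x).X ∧ ExT G x s(g, G.nx g) := fun y hy c => by
    obtain ⟨c1, c2⟩ := not_or.1 c
    obtain ⟨a, q⟩ : ∃ a, x = tr a (φ y) := ⟨_, FK.eq_tr (not_not.1 c1)⟩
    rw [← hφ.eqv a y (R.la hy)] at q
    have m := (hF.la_tr a y).2 (R.la hy)
    have lv := hφ.lev hF m
    rw [← q, hF.lf _ _ hx] at lv
    have m' : tr a y ∈ G.L (j - 1) := (show (FT G).f (tr a y) = j - 1 by omega) ▸ m
    refine ⟨_, m', rfl, (h.st.und_iff hφ lx m).2 ⟨q.symm, fun o => ?_⟩,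
      not_not.1 fun o => c2 ⟨_, m, rfl, q ▸ o⟩⟩
    exact Int.not_odd_iff_even.2 (chd_even h m' o) (ev.sub_odd odd_one)
  by_cases c : ∀ y ∈ G.L (j - 1), (φ y).1 ≠ x.1 ∨ y.1 ∈ K1 G φ
  · exact ⟨_, hF.l_mem _ 0, _, hF.l_mem _ 1, FK.l_ne hF _ (by omega) (by
      show (1 : ℤ) < 0 + G.nn _; omega), c _ (hF.l_mem _ 0), c _ (hF.l_mem _ 1)⟩
  obtain ⟨y, c⟩ := not_forall.1 c
  obtain ⟨hy, c⟩ := Classical.not_imp.1 c
  obtain ⟨g, -, -, m, u, b⟩ := key y hy c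
  have D := h.st.bd_disc lx
  obtain ⟨ql, qj, w, -⟩ := b.hubT D (h.st.bd_st lx) m
  have a1 := an_even h hx ev
  have a2 := an_even h x1 ev
  have row : ∀ q ∈ (Bd G x).X, q ∈ G.L (j - 1) ∧ (Bd G x).ρ q = G.ρ q ∧ G.ρ (G.an x) ≤ G.ρ q ∧
      G.ρ q ≤ G.ρ (G.an (G.nx x)) := fun q hq => by
    have n : q ∉ G.V := fun o => (T.bt_v hq o).elim (fun k => a1 (T.ct_v k)) fun k => a2 (T.ct_v k)
    have := T.bt_line hx (h.st.pr _) x1 (h.st.pr _) (by omega) hq n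
    rw [(T.xo _ a1).2.1, (T.xo _ a2).1] at this
    exact ⟨this.1, tord_old n, this.2⟩
  obtain ⟨l1, l2, l3, -⟩ := row ql w.hl
  obtain ⟨r1, r2, -, r4⟩ := row qj w.hj
  obtain ⟨w1, w2⟩ := hF.w_mem 1 hx
  have w2 : G.ρ (tr ((1 : ℤ) • G.w) x) = G.ρ x + 1 * G.nn j := w2
  obtain ⟨u1, u2⟩ := hF.w_mem 1 (T.an_l hx (h.st.pr _) a1)
  have u2 : G.ρ (tr ((1 : ℤ) • G.w) (G.an x)) = G.ρ (G.an x) + 1 * G.nn (j - 1) := u2
  have n2 := R.n2 j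
  have mo := (T.mono' x1 (h.st.pr _) w1 (h.st.pr _) (by
    show G.ρ _ ≤ G.ρ (tr ((1 : ℤ) • G.w) x); omega)).1
  rw [(T.xo _ a2).1, (T.xo _ (an_even h w1 ev)).1, T.atr] at mo
  obtain ⟨t1, t2⟩ := hF.w_mem 1 l1
  have t2 : G.ρ (tr ((1 : ℤ) • G.w) ql) = G.ρ ql + 1 * G.nn (j - 1) := t2
  obtain ⟨p1, p2, p3⟩ := R.nx_mem r1
  have sp : G.ρ qj + 2 ≤ G.ρ ql + G.nn (j - 1) := by
    by_contra o
    have : ql = tr ((1 : ℤ) • G.w) ql := by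
      by_cases o' : G.ρ qj = G.ρ ql + G.nn (j - 1)
      · exact s.near2 rfl w.zl.symm (R.inj r1 t1 (by
          show G.ρ _ = G.ρ (tr ((1 : ℤ) • G.w) ql); omega) ▸ w.zj)
      · exact s.near3 rfl w.zl.symm w.zj (R.inj p1 t1 (by
          show G.ρ _ = G.ρ (tr ((1 : ℤ) • G.w) ql)
          change G.ρ (G.an (G.nx x)) ≤ G.ρ (tr ((1 : ℤ) • G.w) (G.an x)) at mo
          omega) ▸ p3)
    rw [← this] at t2
    omega
  have good : ∀ t ∈ G.L (j - 1), G.ρ qj ≤ G.ρ t → G.ρ t ≤ G.ρ qj + 1 →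
      (φ t).1 ≠ x.1 ∨ t.1 ∈ K1 G φ := fun t ht o1 o2 => by
    by_contra o
    obtain ⟨g', g1, g2, m', u', b'⟩ := key t ht o
    obtain rfl := Bad.uniq hF.fine.pl D (h.st.bd_st lx).ne m b b'
    obtain ⟨-, -, -, q, hq, q', hq', e, e', r⟩ := b'
    obtain ⟨k1, k2, -⟩ := mem_PE.1 m'
    have c1 := (w.ex q hq e).1.trans (r _ (Sym2.mem_mk_left _ _)).1
    have c2 := (r _ (Sym2.mem_mk_right _ _)).2.trans (w.ex q' hq' e').2
    rw [l2, (row _ k1).2.1] at c1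
    rw [r2, (row _ k2).2.1, (R.nx_mem g1).2.1] at c2
    obtain ⟨k, -, e1⟩ := same_cls hF ht g1 g2
    change G.ρ g' = G.ρ t + k * G.nn (j - 1) at e1
    rcases le_or_gt 0 k with o | o <;> nlinarith
  refine ⟨qj, r1, _, p1, fun o => ?_, good _ r1 le_rfl (by omega), good _ p1 (by omega) p2.le⟩
  exact s.nl _ _ p3 o

/-- One flow from the only pin `l` of the row one; `x` is the source of the row zero. -/
theorem one (hx : x ∈ G.L 0) (hl : l ∈ G.L 1) (r : FA.Rw (FT G) 1 B) (pn : B.Pn ⊆ {l.1})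
    (lk : Lk (FT G) (Ar (FT G) φ (K1 G φ)) 0 {x.1} B Y) (ar : FP.Arr G φ l x) :
    ∃ E, ∃ t ∈ G.L 0, t.1 ≠ x.1 ∧ ((∃ b, G.η b = 2) → (φ l).1 ≠ x.1 → t.1 = (φ l).1) ∧
      FA.Agr (FT G) E 0 (FA.r1 x t) ∧ FA.Agr (FT G) E 1 B ∧
      Sy (FT G) (Ar (FT G) φ (K1 G φ)) E Y := by
  obtain ⟨b, H⟩ := tq_lb h hφ
  obtain ⟨E, t, t1, t2, t3, a0, a1, Q⟩ := sy_one (K := K1 G φ) H hx hl r pn
    (fun c => (ar.resolve_left fun o => o b c).imp_right fun o => ⟨l, h.rows.la hl, rfl, o⟩)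
    fun _ => two_good h s hφ hx (j := 0) Even.zero
  refine ⟨E, t, t1, t2, fun ⟨a, c⟩ => t3 ?_, a0, a1,
    sy_row (j := 0) H.lay (ar_inv H.lay hφ) Q (FA.r1_pn x t ▸ a0.pin) a1 lk⟩
  have b2 := H.b2
  have := Int.le_of_dvd (by decide) ((show (FT G).η a = 2 from c) ▸ H.bd a)
  omega

end Pool.Agent.P.MP_08fd93_co.TB
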