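import Pool.Agent.P.MP_08fd93_co.FK.K11
import Pool.Agent.P.MP_08fd93_co.FT.T4
import Pool.Agent.P.MP_08fd93_co.FP.P1
import Pool.Agent.P.MP_08fd93_co.FD.E1
import Pool.Agent.P.MP_08fd93_co.FL.H1
import Pool.Agent.P.MP_08fd93_co.FH2.A2

/-! Short tails: the leaves that need one frame only. -/

set_option autoImplicit false

namespace Pool.Agent.P.MP_08fd93_co.TB

theorem col : S_Col := fun _ _ _ _ _ _ _ _ _ _ _ _ h hφ H => TT.TK.col h hφ H

theorem modeI : FP.S_I := modeI_of col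

theorem modeII : FP.S_II := modeII_of col

theorem g0 : FP.S_G0 := FP.g0 modeI modeII

theorem g1 : FP.S_G1 := FP.g1 modeI modeII (FD.modeE_of col)

theorem h1 : FH.S_H1 := FL.h1_of col

theorem h2 : FH.S_H2 := FH2.h2_of col

theorem ho : FH.S_HO := FH2.ho_of col

end Pool.Agent.P.MP_08fd93_co.TB
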