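import Pool.Agent.P.MP_08fd93_co.FK.K8
import Pool.Agent.P.MP_08fd93_co.FT.T1
import Pool.Agent.P.MP_08fd93_co.FP2.M1

/-! Short tails: plans from systems of flows. -/

set_option autoImplicit false

namespace Pool.Agent.P.MP_08fd93_co.TB

open OV PkPrtP FB FE FZ FN FR FK FP2 TT

variable {J : Type} {G : TD J} {φ : Vx J → Vx J} {v z la lb lc ld e e' g s t y : Vx J} {j : ℤ}
  {E A : EJ J} {W : TX J} {S Y : Set J} {x : Fl} {jv jz : Jb}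

/-- The standard orientation. -/
def AE (G : TD J) (E : EJ J) : Set (Vx J) := AS (FT G) (ed E).Src (ed E).Snk

/-- The standard data: no forced sinks, no prescribed payers. -/
def tx (G : TD J) (E : EJ J) (x : Fl) (jv jz : Jb) : TX J := ⟨x, jv, jz, AE G E, ∅, ∅, ∅⟩

/-- The orbits of the edges that are strict together with the edge above. -/
def K1 (G : TD J) (φ : Vx J → Vx J) : Set J :=
  {i | ∃ g ∈ G.LA, g.1 = i ∧ ¬ ExT G (φ g) s(g, G.nx g)}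

/-- The conditions on a top edge that pass to its orbit. -/
def Tq (G : TD J) (φ : Vx J → Vx J) (E : EJ J) (W : TX J) (e : Vx J) : Prop :=
  SST G (Pin G E) W.x e ⊆ ∅ ∨ (∃ f, SST G (Pin G E) W.x e ⊆ {f} ∧ Pd G E e) ∨
    (∃ f f', SST G (Pin G E) W.x e ⊆ {f, f'} ∧
      ((e.1 ∈ E.Sk ∧ e.1 ∈ E.Ps ∧ ¬ Chd G e) ∨ (e ∈ Sta G E ∧ Mon G E W e))) ∨
    ∃ a, Spt G φ E W (SST G (Pin G E) W.x (tr a e)) (tr a e)

theorem Tq.top (k : Tq G φ E W e) : Top G φ E W e :=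
  k.imp_right (Or.imp_right (Or.imp_right Or.inr))

theorem Tq.spt (k : Spt G φ E W (SST G (Pin G E) W.x e) e) : Tq G φ E W e :=
  Or.inr (Or.inr (Or.inr ⟨0, (tr_zero e).symm ▸ k⟩))

theorem tq_one {f : Sym2 (Vx J)} (k : SST G (Pin G E) W.x e ⊆ {f}) (c : Pd G E e) :
    Tq G φ E W e := Or.inr (Or.inl ⟨f, k, c⟩)

theorem tq_t2 {f f' : Sym2 (Vx J)} (k : SST G (Pin G E) W.x e ⊆ {f, f'}) (c : e.1 ∈ E.Sk)
    (c' : e.1 ∈ E.Ps) (n : ¬ Chd G e) : Tq G φ E W e :=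
  Or.inr (Or.inr (Or.inl ⟨f, f', k, Or.inl ⟨c, c', n⟩⟩))

theorem tq_free {T : Set (Sym2 (Vx J))} (k : SST G (Pin G E) W.x e ⊆ T) (c : e ∈ Sta G E)
    (o : ∃ X' Q, OutX G.Γ (Bd G e) T X' Q fun _ _ => True) : Tq G φ E W e :=
  let ⟨X', Q, o⟩ := o
  Tq.spt (Or.inl ⟨c, T, X', Q, k, o⟩)

theorem sta_pn (c : e.1 ∈ E.Pn) : e ∈ Sta G E := Or.inl (Or.inl c)

theorem ori_rw {F : FD J} {X : XD J} {Pr : Set (Vx J)} (hF : Lay F X Pr) (r : ∀ j, FA.Rw F j E) :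
    Ori F (ed E) (AS F (ed E).Src (ed E).Snk) := by
  have := ori_as (E := ed E) hF ⟨fun _ _ k => k, fun _ _ k => k, fun _ _ k => k, fun _ _ k => k,
    fun _ _ k => k, fun _ _ k => k, fun y k => ((r 0).dis _ k).1, subset_rfl, fun _ k => k.elim,
    fun j => ?_, fun j => (r j).alt⟩ Dir.empty
  · rwa [Set.union_empty] at this
  · by_cases c : ∃ m ∈ F.L j, m.1 ∈ E.Sk
    exacts [Or.inl c, Or.inr ⟨(r j).ne.resolve_left c, fun y hy m => c ⟨y, hy, m⟩⟩]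

section

variable (h : TQ G v z la lb lc ld)
include h

theorem tq_lb (hφ : PH (FT G) G.Pr φ) : ∃ b, FA.LB (FT G) (XT G) G.Pr φ b :=
  FA.lb_ex h.st.lay hφ (fun j => (by decide : (3 : ℤ) ≤ 4).trans (h.n4 j)) h.rows.wp.ev

theorem chd_orb (q : e.1 = e'.1) (k : Chd G e) : Chd G e' :=
  h.chd_iff.2 ((h.chd_iff.1 k).imp_right q.symm.trans)

theorem chd_tr (a : ℤ × ℤ) (e : Vx J) : Chd G (tr a e) ↔ Chd G e :=
  ⟨chd_orb (e := tr a e) h rfl, chd_orb (e := e) h rfl⟩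

theorem pin_tr (a : ℤ × ℤ) (y : Vx J) (k : y ∈ Pin G E) : tr a y ∈ Pin G E :=
  Or.imp_right (chd_tr h a y).2 k

theorem vt_mv (a : ℤ × ℤ) (y : Vx J) (k : y ∈ Vt G E) : tr a y ∈ Vt G E := by
  obtain ⟨n, y, m, rfl⟩ := k
  refine ⟨n, tr a y, m.imp ?_ ?_, (h.st.ft_tr a y n).symm⟩
  · rintro ⟨g, g1, g2, g3⟩
    exact ⟨tr a g, pin_tr h a g g1, (h.st.lay.la_tr a g).2 g2,
      g3.imp (congrArg _) fun c => by rw [c, h.rows.nx_tr a g2]⟩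
  · rintro ⟨k, k1, k2⟩
    exact ⟨tr a k, h.st.tf.vtr a k k1, k2.imp (fun c => by rw [c, (h.st.tf.xtr a k).1])
      fun c => by rw [c, (h.st.tf.xtr a k).2.1]⟩

theorem sta_mv (he : e ∈ G.LA) (a : ℤ × ℤ) (k : e ∈ Sta G E) : tr a e ∈ Sta G E :=
  k.imp (pin_tr h a e) fun c => ⟨vt_mv h a _ c.1, h.rows.nx_tr a he ▸ vt_mv h a _ c.2⟩

theorem mon_mv (a : ℤ × ℤ) (k : Mon G E W e) : Mon G E W (tr a e) := by
  refine k.imp_right fun c => ?_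
  rw [h.rows.wp.per]
  refine ⟨(FR.nn_tr h.st.lay a (G.f e)).symm ▸ c.1, fun y hy => ?_⟩
  exact c.2 (tr (-a) y) ((h.st.lay.ltr a _ _).1 (by rwa [tr_neg']))

/-- the source of a row points to the left -/
theorem ae_src (r : FA.Rw (FT G) j E) (hs : s ∈ G.LA) (c : s.1 ∈ E.Sr) : s ∉ AE G E := by
  rintro ⟨_ | k, h1, h2⟩
  · rw [sh_zero h.st.lay hs] at h1
    exact (r.dis _ c).1 h1
  · exact h2 0 (Nat.succ_pos k) (by rwa [sh_zero h.st.lay hs])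

/-- the right end of the only source of a row with a sink points to the right -/
theorem ae_nx (k : FA.Agr (FT G) E j A) (hs : s ∈ G.L j) (one : ∀ i ∈ A.Sr, i = s.1)
    (ht : t ∈ G.L j) (n : t.1 ≠ s.1) (m : t.1 ∈ A.Sk) : G.nx s ∈ AE G E :=
  as_after h.st.lay hs (fun g hg c => one _ ((k g hg).1.1 c)) ht n fun g hg c =>
    (k g hg).2.1.2 (c ▸ m)

variable (hφ : PH (FT G) G.Pr φ)
include hφ

theorem ss_tr (he : e ∈ G.LA) (a : ℤ × ℤ) :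
    SST G (Pin G E) x (tr a e) ⊆ Sym2.map (tr a) '' SST G (Pin G E) x e := by
  have hF := h.st.lay
  have key : ∀ {c : ℤ × ℤ} {l : Vx J}, tr a e = tr c l → e = tr (c - a) l := fun {c l} q =>
    tr_inj a (by rw [q, tr_tr, sub_add_cancel])
  have mp : ∀ (c : ℤ × ℤ) (p q : Vx J),
      Sym2.map (tr a) s(tr (c - a) p, tr (c - a) q) = s(tr c p, tr c q) := fun c p q => by
    rw [Sym2.map_mk, tr_tr, tr_tr, sub_add_cancel]
  intro f m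
  rcases (h.ss_iff hφ ((hF.la_tr a e).2 he)).1 m with ⟨g, g1, g2, g3, g4, rfl⟩ | ⟨c, m⟩
  · obtain ⟨g, rfl⟩ := tr_surj a g
    have g2' : g ∈ G.LA := (hF.la_tr a g).1 g2
    exact ⟨_, (h.ss_iff hφ he).2 (Or.inl ⟨g, tr_neg a g ▸ pin_tr h (-a) _ g1, g2',
      tr_inj a ((hφ.eqv a g g2').symm.trans g3), fun c => g4 ((chd_tr h a g).2 c), rfl⟩),
      by rw [Sym2.map_mk, h.rows.nx_tr a g2']⟩
  · rcases m with ⟨r, q, rfl⟩ | ⟨r, q, rfl⟩ | ⟨r, q, rfl⟩ | ⟨r, q, rfl⟩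
    exacts [⟨_, (h.ss_iff hφ he).2 (Or.inr ⟨c - a, Or.inl ⟨r, key q, rfl⟩⟩), mp _ _ _⟩,
      ⟨_, (h.ss_iff hφ he).2 (Or.inr ⟨c - a, Or.inr (Or.inl ⟨r, key q, rfl⟩)⟩), mp _ _ _⟩,
      ⟨_, (h.ss_iff hφ he).2 (Or.inr ⟨c - a, Or.inr (Or.inr (Or.inl ⟨r, key q, rfl⟩))⟩), mp _ _ _⟩,
      ⟨_, (h.ss_iff hφ he).2 (Or.inr ⟨c - a, Or.inr (Or.inr (Or.inr ⟨r, key q, rfl⟩))⟩), mp _ _ _⟩]

theorem Tq.orb (he : e ∈ G.LA) (q : e.1 = e'.1) (k : Tq G φ E W e) : Tq G φ E W e' := by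
  obtain ⟨a, rfl⟩ : ∃ a, e' = tr a e := ⟨_, FK.eq_tr q⟩
  have m := ss_tr (E := E) (x := W.x) h hφ he a
  rcases k with k | ⟨f, k, c⟩ | ⟨f, f', k, c⟩ | ⟨a', k⟩
  · exact Or.inl (m.trans (by simpa using Set.image_mono (f := Sym2.map (tr a)) k))
  · exact Or.inr (Or.inl ⟨_, m.trans (Set.image_singleton ▸ Set.image_mono k),
      c.imp_right (And.imp_right fun n o => n ((chd_tr h a e).1 o))⟩)
  · exact Or.inr (Or.inr (Or.inl ⟨_, _, m.trans (Set.image_pair _ f f' ▸ Set.image_mono k),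
      c.imp (And.imp_right (And.imp_right fun n o => n ((chd_tr h a e).1 o)))
        (And.imp (sta_mv h he a) (mon_mv h a))⟩))
  · exact Or.inr (Or.inr (Or.inr ⟨a' - a, by rwa [tr_tr, add_sub_cancel]⟩))

/-- the tops in `Y` from one member of each orbit -/
theorem tops_of (k : ∀ i ∈ Y, ∃ e ∈ G.LA, e.1 = i ∧ Tq G φ E W e) :
    ∀ e ∈ G.LA, e.1 ∈ Y → Top G φ E W e := fun _ _ m =>
  let ⟨_, a, c, o⟩ := k _ m
  (o.orb h hφ a c).top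

/-- the strict edges under `e` -/
theorem ss_pu {T : Set (Sym2 (Vx J))} (he : e ∈ G.LA)
    (h1 : ∀ g ∈ Pu (FT G) φ E e, ¬ Chd G g → s(g, G.nx g) ∈ T)
    (ha : x.a → ∀ c, e = tr c la → s(tr c z, tr c (G.xl z)) ∈ T)
    (hb : x.b → ∀ c, e = tr c lb → s(tr c v, tr c z) ∈ T)
    (hc : x.c → ∀ c, e = tr c lc → s(tr c v, tr c z) ∈ T)
    (hd : x.d → ∀ c, e = tr c ld → s(tr c z, tr c (G.xr z)) ∈ T) : SST G (Pin G E) x e ⊆ T := by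
  intro f m
  rcases (h.ss_iff hφ he).1 m with ⟨g, g1, g2, g3, g4, rfl⟩ |
    ⟨c, ⟨r, q, rfl⟩ | ⟨r, q, rfl⟩ | ⟨r, q, rfl⟩ | ⟨r, q, rfl⟩⟩
  exacts [h1 g ⟨g2, g1.resolve_right g4, g3⟩ g4, ha r c q, hb r c q, hc r c q, hd r c q]

/-- the same from the pins `S` of the row below -/
theorem ss_row {T : Set (Sym2 (Vx J))} (k : FA.Pin (FT G) E j S) (he : e ∈ G.L (j + 1))
    (h1 : ∀ g ∈ G.L j, g.1 ∈ S → φ g = e → ¬ Chd G g → s(g, G.nx g) ∈ T)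
    (ha : x.a → ∀ c, e = tr c la → s(tr c z, tr c (G.xl z)) ∈ T)
    (hb : x.b → ∀ c, e = tr c lb → s(tr c v, tr c z) ∈ T)
    (hc : x.c → ∀ c, e = tr c lc → s(tr c v, tr c z) ∈ T)
    (hd : x.d → ∀ c, e = tr c ld → s(tr c z, tr c (G.xr z)) ∈ T) : SST G (Pin G E) x e ⊆ T :=
  ss_pu h hφ (h.rows.la he) (fun g m =>
    let ⟨a1, a2, a3⟩ := pu_row h.st.lay hφ k he m
    h1 g a1 a2 a3) ha hb hc hd

/-- ordinary arrivals at an edge without flag -/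
theorem top_ar (nc : G.xl z ≠ G.xr z → (G.xl z).1 ∉ E.Ps) (he : e ∈ G.LA)
    (na : W.x.a → e.1 ≠ la.1) (nb : W.x.b → e.1 ≠ lb.1) (nc' : W.x.c → e.1 ≠ lc.1)
    (nd : W.x.d → e.1 ≠ ld.1) (k : Ar (FT G) φ (K1 G φ) E e) : Tq G φ E W e := by
  have hF := h.st.lay
  have key : ∀ y ∈ G.LA, y.1 = e.1 → ∀ T : Set (Sym2 (Vx J)),
      (∀ g ∈ Pu (FT G) φ E y, ¬ Chd G g → s(g, G.nx g) ∈ T) → SST G (Pin G E) W.x y ⊆ T :=
    fun y hy q T h1 => ss_pu h hφ hy h1 (fun r c o => absurd (by rw [← q, o]; rfl) (na r))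
      (fun r c o => absurd (by rw [← q, o]; rfl) (nb r))
      (fun r c o => absurd (by rw [← q, o]; rfl) (nc' r))
      fun r c o => absurd (by rw [← q, o]; rfl) (nd r)
  have ch : e.1 ∈ E.Ps → ¬ Chd G e := fun m c => nc (h.chd_iff.1 c).1 ((h.chd_iff.1 c).2 ▸ m)
  rcases k with k | ⟨g, k, c⟩ | ⟨g, g', k, c⟩
  · exact Or.inl (key e he rfl _ fun g m _ => k m)
  · have one := key e he rfl {s(g, G.nx g)} fun y m _ => by rw [show y = g from k m]; rfl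
    rcases c with c | c | ⟨c, g0, g1, g2, g3⟩
    · exact tq_one one (Or.inl c)
    · exact tq_one one (Or.inr ⟨c, ch c⟩)
    by_cases m : g ∈ Pu (FT G) φ E e ∧ ¬ Chd G g
    swap
    · exact Or.inl (key e he rfl _ fun y o n => m ((show y = g from k o) ▸ ⟨o, n⟩))
    obtain ⟨a, rfl⟩ : ∃ a, g0 = tr a g := ⟨_, FK.eq_tr g2.symm⟩
    have q : φ (tr a g) = tr a e := m.1.2.2 ▸ hφ.eqv a g m.1.1
    have l := (hF.la_tr a e).2 he
    refine Tq.orb h hφ l rfl (tq_free (key _ l rfl {s(tr a g, G.nx (tr a g))} fun y o _ => ?_)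
      (sta_pn c) (outX_k1 hF.fine.pl (all_T _ _ hF.fine.pl) (h.st.bd_disc l) (h.st.bd_st l)
        ((h.st.und_iff hφ l g1).2 ⟨q, fun o => m.2 ((chd_tr h a g).1 o)⟩)
        fun u o => g3 ⟨u, q ▸ o⟩))
    obtain ⟨y, o', rfl⟩ := pu_tr hF hφ a o
    rw [show y = g from k o']
    rfl
  · exact tq_t2 (key e he rfl {s(g, G.nx g), s(g', G.nx g')} fun y m _ =>
      (k m).imp (fun o => by rw [o]) fun o => by rw [show y = g' from o]; rfl) c.1 c.2 (ch c.2)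

/-- all tops of a system -/
theorem tops (Q : Sy (FT G) (Ar (FT G) φ (K1 G φ)) E Y)
    (nc : G.xl z ≠ G.xr z → (G.xl z).1 ∉ E.Ps) (ya : W.x.a → la.1 ∈ Y) (yb : W.x.b → lb.1 ∈ Y)
    (yc : W.x.c → lc.1 ∈ Y) (yd : W.x.d → ld.1 ∈ Y)
    (top : ∀ e ∈ G.LA, e.1 ∈ Y → Top G φ E W e) : ∀ e ∈ G.LA, Top G φ E W e := fun e he => by
  by_cases c : e.1 ∈ Y
  exacts [top e he c, (top_ar h hφ nc he (fun r o => c (o ▸ ya r)) (fun r o => c (o ▸ yb r))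
    (fun r o => c (o ▸ yc r)) (fun r o => c (o ▸ yd r)) (Q.top e he c)).top]

/-- A plan with the standard data. -/
theorem tk_of (Q : Sy (FT G) (Ar (FT G) φ (K1 G φ)) E Y)
    (nc : G.xl z ≠ G.xr z → (G.xl z).1 ∉ E.Pn) (ya : x.a → la.1 ∈ Y) (yb : x.b → lb.1 ∈ Y)
    (yc : x.c → lc.1 ∈ Y) (yd : x.d → ld.1 ∈ Y) (pa : x.a ∨ jz = .a)
    (pb : x.b ∨ jv = .b ∨ jz = .b) (pc : x.c ∨ jv = .c ∨ jz = .c) (pd : x.d ∨ jz = .d)
    (ear : G.xl z ≠ G.xr z → (jz = .a → G.xl z ∈ AE G E) ∧ (jz = .d → G.xr z ∉ AE G E) ∧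
      (jz = .b ∨ jz = .c → Mon G E (tx G E x jv jz) (G.xl z)))
    (kl : KeepL G (Pin G E) (Vt G E) x) (kr : KeepR G (Pin G E) (Vt G E) x)
    (top : ∀ e ∈ G.LA, e.1 ∈ Y → Top G φ E (tx G E x jv jz) e) :
    TK G φ z E (tx G E x jv jz) :=
  ⟨Q.dis, fun _ k => k.elim, fun _ k => k.elim,
    fun j => (Q.rw j).ne.imp (fun ⟨m, a, c⟩ => ⟨m, a, c, id⟩) fun c => ⟨c, fun _ _ => id⟩,
    ori_rw h.st.lay Q.rw, pa, pb, pc, pd, fun n => ⟨fun c => nc n (Or.inl c), ear n⟩, kl, kr,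
    tops h hφ Q (fun n c => nc n (Or.inr c)) ya yb yc yd top⟩

end

end Pool.Agent.P.MP_08fd93_co.TB
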