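import Pool.Agent.P.MP_08fd93_co.FK.K2
import Pool.Agent.P.MP_08fd93_co.FE.KN

/-! Depth zero: a tight even functional gives a colouring with defect one. -/

set_option autoImplicit false

namespace Pool.Agent.P.MP_08fd93_co.FK

open OV FN PkPrtP

variable {J : Type} {F : FD J} {X : XD J} {Pr : Set (Vx J)} {φ : Vx J → Vx J}

theorem eq_tr {x y : Vx J} (e : x.1 = y.1) : y = tr (y.2 - x.2) x :=
  Prod.ext e.symm (by simp [tr])

/-- two vertices of one orbit on one row differ by a multiple of the period -/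
theorem same_cls (hF : Lay F X Pr) {j : ℤ} {x y : Vx J} (hx : x ∈ F.L j) (hy : y ∈ F.L j)
    (e : x.1 = y.1) : ∃ k : ℤ, y = tr (k • F.w) x ∧ F.ρ y = F.ρ x + k * F.nn j := by
  have e1 := eq_tr e
  have e2 := hF.per (y.2 - x.2) x
  rw [← e1, hF.lf j x hx, hF.lf j y hy] at e2
  obtain ⟨k, hk⟩ := (hF.ker (y.2 - x.2)).1 (by omega)
  rw [hk] at e1
  exact ⟨k, e1, by rw [e1]; exact (hF.w_mem k hx).2⟩

/-- a translate in every window of one period -/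
theorem window (hF : Lay F X Pr) {j : ℤ} {x : Vx J} (hx : x ∈ F.L j) (m : ℤ) :
    ∃ k : ℤ, m ≤ F.ρ (tr (k • F.w) x) ∧ F.ρ (tr (k • F.w) x) < m + F.nn j := by
  have n2 := hF.n2 j
  refine ⟨-((F.ρ x - m) / F.nn j), ?_⟩
  rw [(hF.w_mem _ hx).2]
  have h1 := Int.emod_add_mul_ediv (F.ρ x - m) (F.nn j)
  have h2 := Int.emod_nonneg (F.ρ x - m) (show F.nn j ≠ 0 by omega)
  have h3 := Int.emod_lt_of_pos (F.ρ x - m) (show 0 < F.nn j by omega)
  constructor <;> nlinarith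

/-- close vertices of a row lie in different orbits -/
theorem l_ne (hF : Lay F X Pr) (j : ℤ) {i i' : ℤ} (l1 : i < i') (l2 : i' < i + F.nn j) :
    (F.l j i).1 ≠ (F.l j i').1 := fun e => by
  obtain ⟨k, -, h⟩ := same_cls hF (hF.l_mem j i) (hF.l_mem j i') e
  rw [hF.rho, hF.rho] at h
  rcases le_or_gt k 0 with c | c <;> nlinarith

theorem PH.fst (h : PH F Pr φ) {y y' : Vx J} (hy : y ∈ F.LA) (e : y.1 = y'.1) :
    (φ y).1 = (φ y').1 := by
  rw [eq_tr e, h.eqv _ y hy]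
  rfl

/-- one orbit under one edge: one edge -/
theorem PH.inj1 (h : PH F Pr φ) {y y' : Vx J} (hy : y ∈ F.LA) (e : y.1 = y'.1)
    (e' : φ y = φ y') : y = y' := by
  have e1 := eq_tr e
  rw [e1, h.eqv _ y hy] at e'
  rw [e1, tr_eq_self e'.symm, tr_zero]

/-- an edge whose fibre misses two orbits of every row -/
theorem small_fibre (hF : Lay F X Pr) (n3 : ∀ j, 3 ≤ F.nn j) (h : PH F Pr φ) :
    ∃ g ∈ F.L 0, ∀ j, ∃ y ∈ F.L j, ∃ y' ∈ F.L j, y.1 ≠ y'.1 ∧ (φ y).1 ≠ g.1 ∧ (φ y').1 ≠ g.1 := by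
  have a := n3 (-1)
  have n01 := l_ne hF (-1) (i := 0) (i' := 1) (by omega) (by omega)
  have n02 := l_ne hF (-1) (i := 0) (i' := 2) (by omega) (by omega)
  have n12 := l_ne hF (-1) (i := 1) (i' := 2) (by omega) (by omega)
  have ne := l_ne hF 0 (i := 0) (i' := 1) (by omega) (by have := n3 0; omega)
  have m := hF.l_mem (-1)
  obtain ⟨g, hg, y, hy, y', hy', n, n1, n2⟩ : ∃ g ∈ F.L 0, ∃ y ∈ F.L (-1), ∃ y' ∈ F.L (-1),
      y.1 ≠ y'.1 ∧ (φ y).1 ≠ g.1 ∧ (φ y').1 ≠ g.1 := by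
    by_contra c
    simp only [not_exists, not_and, not_not] at c
    have c0 := c _ (hF.l_mem 0 0)
    have c1 := c _ (hF.l_mem 0 1)
    by_cases a0 : (φ (F.l (-1) 0)).1 = (F.l 0 0).1
    · have b0 : (φ (F.l (-1) 0)).1 ≠ (F.l 0 1).1 := fun e => ne (a0.symm.trans e)
      have b1 := c1 _ (m 0) _ (m 1) n01 b0
      have b2 := c1 _ (m 0) _ (m 2) n02 b0
      exact ne ((c0 _ (m 1) _ (m 2) n12 fun e => ne (e.symm.trans b1)).symm.trans b2)
    · have b1 := c0 _ (m 0) _ (m 1) n01 a0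
      have b2 := c0 _ (m 0) _ (m 2) n02 a0
      exact ne (b2.symm.trans (c1 _ (m 1) _ (m 2) n12 fun e => ne (b1.symm.trans e)))
  refine ⟨g, hg, fun j => ?_⟩
  by_cases c : ∃ z ∈ F.L j, (φ z).1 = g.1
  · obtain ⟨z, hz, e⟩ := c
    have e1 := hF.per ((φ z).2 - g.2) g
    rw [← eq_tr e.symm, h.lev hF (hF.la hz), hF.lf j z hz, hF.lf 0 g hg] at e1
    have e2 : j = -1 + F.η ((φ z).2 - g.2) := by omega
    refine ⟨tr ((φ z).2 - g.2) y, by rw [e2]; exact (hF.ltr _ _ y).2 hy, tr ((φ z).2 - g.2) y',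
      by rw [e2]; exact (hF.ltr _ _ y').2 hy', n, ?_, ?_⟩
    · rwa [h.eqv _ y (hF.la hy)]
    · rwa [h.eqv _ y' (hF.la hy')]
  · simp only [not_exists, not_and] at c
    have := n3 j
    exact ⟨_, hF.l_mem j 0, _, hF.l_mem j 1, l_ne hF j (by omega) (by omega),
      c _ (hF.l_mem j 0), c _ (hF.l_mem j 1)⟩

/-- One orbit of sources on every row; no source lies over a source. -/
structure SrcOk (F : FD J) (φ : Vx J → Vx J) (G : Set (Vx J)) : Prop where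
  inv : ∀ a, ∀ x ∈ G, tr a x ∈ G
  la : G ⊆ F.LA
  ex : ∀ j, ∃ g ∈ F.L j, g ∈ G
  uni : ∀ g ∈ G, ∀ g' ∈ G, F.f g = F.f g' → g.1 = g'.1
  ov : ∀ g ∈ G, φ g ∉ G

theorem src_ex (hF : Lay F X Pr) (ev : ∀ a, Even (F.η a)) (n3 : ∀ j, 3 ≤ F.nn j) (h : PH F Pr φ) :
    ∃ G, SrcOk F φ G := by
  obtain ⟨g0, hg0, k0⟩ := small_fibre hF n3 h
  have st : ∀ x : Vx J, ∃ y ∈ F.L (F.f x + 1), y.1 ≠ (φ x).1 ∧ (φ y).1 ≠ g0.1 := fun x => by
    obtain ⟨y, hy, y', hy', n, n1, n2⟩ := k0 (F.f x + 1)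
    by_cases e : y.1 = (φ x).1
    exacts [⟨y', hy', fun e' => n (e.trans e'.symm), n2⟩, ⟨y, hy, e, n1⟩]
  choose nxt s1 s2 s3 using st
  obtain ⟨b, b0, bd⟩ := hF.gen
  have b2 : 2 ≤ F.η b := by
    obtain ⟨r, hr⟩ := ev b
    omega
  let g : ℕ → Vx J := fun k => nxt^[k] g0
  have gs : ∀ k, g (k + 1) = nxt (g k) := fun k => Function.iterate_succ_apply' _ _ _
  have gl : ∀ k : ℕ, g k ∈ F.L k := by
    intro k
    induction k with
    | zero => exact hg0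
    | succ k ih =>
      have := s1 (g k)
      rwa [hF.lf _ _ ih, ← gs] at this
  have lev : ∀ (y : Vx J) (k : ℕ), y.1 = (g k).1 → F.η b ∣ F.f y - k := fun y k e => by
    rw [eq_tr e.symm, hF.per, hF.lf _ _ (gl k), add_sub_cancel_left]
    exact bd _
  have eqk : ∀ i k : ℤ, 0 ≤ i → i < F.η b → 0 ≤ k → k < F.η b → F.η b ∣ i - k → i = k :=
    fun i k a1 a2 a3 a4 d => by
      have := Int.eq_zero_of_abs_lt_dvd d (abs_lt.2 ⟨by omega, by omega⟩)
      omega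
  refine ⟨{y | ∃ k : ℕ, (k : ℤ) < F.η b ∧ y.1 = (g k).1}, fun a x hx => hx, ?_, fun j => ?_, ?_, ?_⟩
  · rintro y ⟨k, -, e⟩
    rw [eq_tr e.symm]
    exact (hF.la_tr _ _).2 (hF.la (gl k))
  · obtain ⟨k, hk⟩ := Int.eq_ofNat_of_zero_le (Int.emod_nonneg j (show F.η b ≠ 0 by omega))
    refine ⟨tr ((j / F.η b) • b) (g k), ?_, k, hk ▸ Int.emod_lt_of_pos j b0, rfl⟩
    have := (hF.ltr ((j / F.η b) • b) k (g k)).2 (gl k)
    rwa [map_zsmul, smul_eq_mul, ← hk, mul_comm, Int.emod_add_mul_ediv] at this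
  · rintro y ⟨k, l, e⟩ y' ⟨k', l', e'⟩ f
    have d := dvd_sub (lev y' k' e') (lev y k e)
    rw [f, sub_sub_sub_cancel_left] at d
    obtain rfl : k = k' := by exact_mod_cast eqk k k' (by omega) l (by omega) l' d
    exact e.trans e'.symm
  · rintro y ⟨k, l, e⟩ ⟨k', l', e'⟩
    have la := hF.la (gl k)
    have e1 : (φ (g k)).1 = (g k').1 := (h.fst la e.symm).trans e'
    have d := lev _ k' e1
    rw [h.lev hF la, hF.lf _ _ (gl k)] at d
    by_cases c : (k : ℤ) + 1 < F.η b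
    · obtain rfl : k + 1 = k' := by exact_mod_cast eqk (k + 1) k' (by omega) c (by omega) l' d
      exact s2 (g k) (by rw [← gs]; exact e1.symm)
    · have d' : F.η b ∣ 0 - k' := by
        have := dvd_sub d (dvd_refl (F.η b))
        rwa [show (k : ℤ) + 1 - k' - F.η b = 0 - k' by omega] at this
      obtain rfl : 0 = k' := by exact_mod_cast eqk 0 k' le_rfl b0 (by omega) l' d'
      obtain ⟨m, rfl⟩ := Nat.exists_eq_succ_of_ne_zero (show k ≠ 0 by omega)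
      exact s3 (g m) (by rw [← gs]; exact e1)

variable {G W : Set (Vx J)}

/-- The data of the rows in depth zero. -/
def E0 (φ : Vx J → Vx J) (G W : Set (Vx J)) : ED J := ⟨G, φ '' G, φ '' G, ∅, G ∪ W, ∅⟩

theorem SrcOk.eok (hF : Lay F X Pr) (h : PH F Pr φ) (hG : SrcOk F φ G)
    (hW : ∀ a x, tr a x ∈ W ↔ x ∈ W) : EOk F (E0 φ G W) := by
  have i : ∀ a, ∀ x ∈ φ '' G, tr a x ∈ φ '' G := by
    rintro a _ ⟨g, hg, rfl⟩
    exact ⟨_, hG.inv a g hg, h.eqv a g (hG.la hg)⟩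
  refine ⟨hG.inv, i, i, fun _ _ k => k, fun a x k => k.imp (hG.inv a x) (hW a x).2,
    fun _ _ k => k, ?_, fun _ k => k, fun _ k => k.elim, fun j => ?_, ?_⟩
  · rintro _ hx ⟨g, hg, rfl⟩
    exact hG.ov g hg hx
  · obtain ⟨g, hg, k⟩ := hG.ex (j - 1)
    have := h.mem (hF.la hg)
    rw [hF.lf _ _ hg, sub_add_cancel] at this
    exact ⟨_, this, g, k, rfl⟩
  · rintro j _ hs _ ht ⟨x, hx, rfl⟩ ⟨y, hy, rfl⟩ l
    have f1 := h.lev hF (hG.la hx)
    have f2 := h.lev hF (hG.la hy)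
    rw [hF.lf _ _ hs] at f1
    rw [hF.lf _ _ ht] at f2
    obtain ⟨k, -, e⟩ := same_cls hF hs ht (h.fst (hG.la hx) (hG.uni x hx y hy (by omega)))
    obtain ⟨g, hg, m⟩ := hG.ex j
    obtain ⟨t, t1, t2⟩ := window hF hg (F.ρ (φ x))
    have m1 := (hF.w_mem t hg).1
    have m2 := hG.inv (t • F.w) g m
    have n2 := hF.n2 j
    refine ⟨_, m1, m2, lt_of_le_of_ne t1 fun q => hG.ov x hx (hF.inj hs m1 q ▸ m2), ?_⟩
    rcases le_or_gt k 0 with c | c <;> nlinarith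

/-- Caps cover no pinned edge. -/
def OkP (F : FD J) (P : Set (Vx J)) (u : Un J) : Prop := u.x = u.s ∨ ∀ y, F.Cov u y → y ∉ P

theorem OkP.act (hF : Lay F X Pr) {P : Set (Vx J)} (hP : ∀ a, ∀ x ∈ P, tr a x ∈ P) (a : ℤ × ℤ)
    (u : Un J) (hu : Val F ∅ u) (h : OkP F P u) : OkP F P (u.act a) := by
  refine h.imp (congrArg (tr a)) fun k y c m => ?_
  obtain ⟨y, rfl⟩ := tr_surj a y
  exact k y ((hF.cov_tr a y hu).1 c) ((inv_iff hP a y).1 m)

theorem OkP.tv (hF : Lay F X Pr) {P : Set (Vx J)} {u : Un J} (hu : Val F ∅ u) (h : OkP F P u)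
    {y : Vx J} (c : F.Cov u y) (m : y ∈ P) : u = Tv F y := by
  have e := hF.eq_tv hu (h.resolve_right fun k => k y c m)
  have : y = u.s := hF.tv_cov (hF.la hu.hs) (e ▸ c)
  rw [this]
  exact e

theorem OkP.vis {P : Set (Vx J)} {u : Un J} (hu : Val F ∅ u) (h : OkP F P u) {t : Vx J}
    (ht : t ∈ F.L (F.f u.s)) (m : t ∈ P) : t ∉ u.pk := fun k => by
  have c := capOf hu k
  have := (c.old t ht).1 k
  exact h.elim (fun e => lU hu.hs (e ▸ c.xu)) fun g => g t ⟨ht, this.1.le, this.2⟩ m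

/-- Depth zero on a frame in which every row vertex has a parent. -/
theorem zero_w [Fintype J] (hW : FZ.WFrm F Set.univ) (n3 : ∀ j, 3 ≤ F.nn j) :
    ∃ c, Col1 F.Γ ∅ c := by
  have hF := lay_of_w hW
  obtain ⟨φ, h⟩ := ph_ex hF fun j => ⟨_, hF.l_mem j 0, trivial⟩
  obtain ⟨G, hG⟩ := src_ex hF hW.wp.ev n3 h
  obtain ⟨W, r, N, hw⟩ := pw_ex (fun a x k => (hF.la_tr a x).2 k) hG.inv h.eqv
  have hE := hG.eok hF h hw.inv
  obtain ⟨c, o, dn, hR⟩ := rp_ex hF hW.wp.ev hE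
  let p : PD J := ⟨c, o, dn, cxOf F c o, fun j => decide (Even j), id⟩
  replace hR : RP F (E0 φ G W) p.c p.o p.dn := hR
  have full : ∀ u, OkP F (G ∪ W) u → u.x ≠ u.s → Full F p u := fun u k n y q =>
    hR.pt hF (hF.la q.1) fun m => k.resolve_left n y q (Or.inl m)
  have hp : Plan F (X0 F) p (OkP F (G ∪ W)) := plan_of hF rfl rfl hR.cl
    (fun a v hv => hR.otr hF hE a (hv.resolve_right id)) (fun _ _ _ => rfl) (fun _ k => k.elim)
    (fun y hy => hR.mono hF hE hy) fun u hu k n => Or.inr ((full u k n).one hF hu)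
  refine master hF _ hp (OkP.act hF hE.ipin) (OkP.act hF hE.ipin) (fun _ k => k)
    (fun _ _ => Or.inl rfl) (fun j => ?_) (fun M hM ok => ?_) r N (fun y _ => hw.bd y)
    (rank_ok hF h hw (fun y _ m u1 u2 v1 v2 k1 k2 c1 c2 =>
      (k1.tv hF v1 c1 m).trans (k2.tv hF v2 c2 m).symm) fun _ _ _ => Or.inl fun _ _ => trivial)
  · obtain ⟨g, hg, m⟩ := hG.ex j
    exact ⟨g, hg, trivial, fun u hu k e => k.vis hu (e ▸ hg) (Or.inl m)⟩
  obtain ⟨u, hu, -, -⟩ := one_unit hF hM fun _ _ => trivial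
  have mu : u ∈ M.us := hu ▸ rfl
  have vu := (hM.val u mu).1
  have cv : ∀ y, Over F M y → F.Cov u (φ y) := fun y k => by
    obtain ⟨t, ht, q⟩ := h.cov hF hM k
    rw [hu] at ht
    exact ht ▸ q
  have gu : ∀ y ∈ G, ∀ y' ∈ G, Over F M y → Over F M y' → φ y = φ y' → y = y' :=
    fun y a y' a' b b' => h.inj1 (hG.la a) (hG.uni y a y' a' (by
      have := (over_la hF b).2
      have := (over_la hF b').2
      omega))
  have sk : ∀ y ∈ G, φ y ∈ (E0 φ G W).Snk := fun y a => ⟨y, a, rfl⟩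
  refine FE.ord_w hW hp hM hu (G ∪ W)
    (fun y k m => Or.inr (hR.up hF hE (over_la hF k).1 (fun g => m (Or.inl g)) m))
    (fun _ _ => Or.inl rfl) (fun u' _ _ _ _ k => Or.inr fun y q => (k y q).2) ?_
  by_cases ex : ∃ y ∈ G ∪ W, Over F M y
  swap
  · exact Or.inl fun y a b => ex ⟨y, a, b⟩
  right
  by_cases t : u.x = u.s
  · have ce : ∀ y, Over F M y → φ y = u.s := fun y k =>
      hF.tv_cov (hF.la vu.hs) (hF.eq_tv vu t ▸ cv y k)
    have wu : ∀ y ∈ W, ∀ y' ∈ W, Over F M y → Over F M y' → y = y' := fun y a y' a' b b' =>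
      hw.inj y a y' a' ((ce y b).trans (ce y' b').symm)
    have gu' : ∀ y ∈ G, ∀ y' ∈ G, Over F M y → Over F M y' → y = y' := fun y a y' a' b b' =>
      gu y a y' a' b b' ((ce y b).trans (ce y' b').symm)
    by_cases eg : ∃ y ∈ G, Over F M y
    · obtain ⟨g, g1, g2⟩ := eg
      have s : u.s ∈ (E0 φ G W).Snk := ce g g2 ▸ sk g g1
      by_cases ew : ∃ y ∈ W, Over F M y
      · obtain ⟨w, w1, w2⟩ := ew
        have pin : u.s ∈ (E0 φ G W).Pin := Or.inr (ce w w2 ▸ hw.up w w1)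
        have a := hR.snk hF hE vu.hs s
        have b := hR.snk_dn hF hE vu.hs s
        refine Or.inr ⟨t, ⟨g, w, fun y m k => m.imp (fun q => gu' y q g g1 k g2)
          fun q => wu y q w w1 k w2⟩, fun _ => FE.t2_dn mu t (Or.inr ?_)⟩
        rw [FE.triv_nx hF vu t]
        exact ⟨a.1, b.1.2 (Or.inl pin), a.2, b.2.2 (Or.inl pin)⟩
      · exact Or.inl ⟨fun y a y' a' b b' => gu' y (a.resolve_right fun q => ew ⟨y, q, b⟩) y'
          (a'.resolve_right fun q => ew ⟨y', q, b'⟩) b b',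
          fun _ => FE.t1_dn hF vu mu t (Or.inr (hR.snk_down hF hE vu.hs s))⟩
    · obtain ⟨w, w1, w2⟩ := ex
      have m : u.s ∈ W := ce w w2 ▸ hw.up w (w1.resolve_left fun q => eg ⟨w, q, w2⟩)
      exact Or.inl ⟨fun y a y' a' b b' => wu y (a.resolve_left fun q => eg ⟨y, q, b⟩) y'
        (a'.resolve_left fun q => eg ⟨y', q, b'⟩) b b',
        fun _ => FE.t1_dn hF vu mu t (Or.inr (hR.down hF vu.hs (hw.ng _ m) (Or.inr m)))⟩
  · have k := ok u mu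
    have gg : ∀ y ∈ G ∪ W, Over F M y → y ∈ G := fun y a b => a.resolve_right fun q =>
      k.resolve_left t _ (cv y b) (Or.inr (hw.up y q))
    have sn : ∀ y ∈ G ∪ W, Over F M y → p.R F (φ y) ∧ p.Lt F (F.nx (φ y)) := fun y a b =>
      hR.snk hF hE (hF.la (cv y b).1) (sk y (gg y a b))
    obtain ⟨g, g1, g2⟩ := ex
    have := (full u k t).two hF vu (cv g g2) (sn g g1 g2)
    exact Or.inl ⟨fun y a y' a' b b' => gu y (gg y a b) y' (gg y' a' b') b b'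
      ((full u k t).uni hF (cv y b) (cv y' b') (sn y a b) (sn y' a' b')),
      fun _ => FE.t1_cap hp vu k mu t this.1 this.2⟩

/-- rows of a simple quotient have at least three edges -/
theorem rows_three (hG : Good F.Γ) (h : FZ.Rows F) (j : ℤ) : 3 ≤ F.nn j := by
  by_contra c
  have e : F.nn j = 2 := by
    have := h.n2 j
    omega
  have e1 := h.lw j (-1)
  rw [e] at e1
  have := hG.simp _ _ _ ((h.adj j 0 (-1)).2 (Or.inr rfl)) ((h.adj j 0 (-1 + 2)).2 (Or.inl rfl))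
    (by rw [← e1]; rfl)
  have := congrArg F.ρ this
  rw [h.rho, h.rho] at this
  omega

/-- Depth zero. -/
theorem zero [Fintype J] {Γ : SimpleGraph (Vx J)} {η : ℤ × ℤ →+ ℤ} (hJ : Nonempty J) (hG : Good Γ)
    (hN : NJ Γ Set.univ) (hev : ∀ a, Even (η a)) (hle : ∀ a, η a ≤ (OV.DL Γ a : ℤ)) {c : ℤ × ℤ}
    (hc : c ≠ 0) (e : (OV.DL Γ c : ℤ) = η c) : ∃ c, Col1 Γ ∅ c := by
  obtain ⟨hF, hD⟩ := all_Nrm J Γ hJ hG
  obtain ⟨x, hx⟩ := PkDNP.dl_ex (Γ := Γ) hJ c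
  have h3 := hD.ge c hc
  obtain ⟨f, an, w, -, -, hP, -⟩ := all_Bu J Γ η hF ⟨hev, fun x a => (hle a).trans
    (by exact_mod_cast PkDNP.dl_le a x), x, c, by omega, by omega⟩
  have wp := FZ.WP.of_pot hP
  have uw := wp.uw hJ
  obtain ⟨l, ρ, nn, hR⟩ := FZ.exists_rows wp uw hG.nl hN fun j y hy =>
    FZ.tch_of_hp uw hy ⟨an y, hP.aa y, hP.af y⟩
  have R := hR an
  exact zero_w (F := ⟨Γ, η, f, an, w, l, ρ, nn⟩) (R.wfrm hP.atr (fun _ _ _ => trivial)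
    (fun y _ => ⟨hP.aa y, hP.af y⟩) fun j => ⟨_, R.l_mem j 0, trivial⟩) (rows_three hG R)

end Pool.Agent.P.MP_08fd93_co.FK
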