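import Pool.Agent.P.MP_08fd93_co.FN.N10

/-! A foot on a side without hub is never hidden. -/

set_option autoImplicit false

namespace Pool.Agent.P.MP_08fd93_co.FK

open OV PkPrtP FB FE FZ FN

/-- a hidden neighbour of a corner lies under a cap that begins at the corner -/
theorem sh_keep {W : Type} {H : SimpleGraph W} {d : DD W} {X' P : Set W} (D : Disc H d)
    (h : Sh H d.Z d.X d.I d.ρ d.a d.b X' P) {v x : W} (hv : v = d.a ∨ v = d.b) (hx : x ∈ d.X)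
    (e : H.Adj x v) (k : ∀ z ∈ d.I, H.Adj z v → ∀ y ∈ d.X, H.Adj z y → y = v ∨ y = x) :
    x ∈ X' := by
  by_contra n
  have v1 : v ∈ X' := hv.elim (fun r => r ▸ h.ha) fun r => r ▸ h.hb
  have v2 : v ∈ d.X := hv.elim (fun r => r ▸ D.px.ha) fun r => r ▸ D.px.hb
  obtain ⟨σ, ax, h⟩ := h
  have m := (h.xx hx).resolve_left n
  obtain ⟨z1, z2⟩ := h.ap x m
  have a : H.Adj v (ax x) := by
    rcases h.pk x m v e with r | r | r | r
    exacts [absurd r (D.xz v2), absurd r.1 (h.dis v v1), absurd (r ▸ v2) z2, r.1]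
  have k' : ∀ y ∈ X', H.Adj (ax x) y → y = v := fun y hy r =>
    (k _ ((h.xs z1).resolve_left z2) a.symm y ((h.nx _ z1 y hy r).resolve_left z2) r).resolve_right
      fun c => n (c ▸ hy)
  obtain ⟨y, y1, y2, y3, -⟩ := h.px.succ z1 fun c => z2 (c ▸ D.px.hb)
  obtain ⟨w, w1, w2, w3, -⟩ := h.px.pred z1 fun c => z2 (c ▸ D.px.ha)
  rw [k' y y1 y3] at y2
  rw [k' w w1 w3.symm] at w2
  omega

variable {J : Type} {G : VD J} {P Vs B : Set (Vx J)} {pL pR : Prop} {p : PD J} {M : MU J}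
  {d : DD (Vx J)} {φ : Vx J → Vx J}

/-- No upper neighbour of a stem sees the row below to the right of the right foot. -/
def HR (G : VD J) : Prop := ∀ k ∈ G.K, ∀ z, G.Γ.Adj z k → z ∉ G.L (G.f k - 1) →
  ∀ y ∈ G.L (G.f k - 1), G.Γ.Adj z y → G.ρ y ≤ G.ρ (G.xr k)

/-- No upper neighbour of a stem sees the row below to the left of the left foot. -/
def HL (G : VD J) : Prop := ∀ k ∈ G.K, ∀ z, G.Γ.Adj z k → z ∉ G.L (G.f k - 1) →
  ∀ y ∈ G.L (G.f k - 1), G.Γ.Adj z y → G.ρ (G.xl k) ≤ G.ρ y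

/-- the feet are kept: ends of strict edges, corners, or feet on a side without hub -/
theorem keep (h : SV G) (hd : VC G M d) (o : ∀ u ∈ M.us, (PQ1 G P Vs pL pR).Nv (FL G) u)
    (hv : ∀ u ∈ M.us, ∀ e, (FL G).Cov u e → VisE G P Vs (pL ∨ HL G) (pR ∨ HR G) e)
    {Ok : Un J → Prop} (k : Sl (FL G) p Ok M d ((PQ1 G P Vs pL pR).SU (FL G) M) B) :
    Sl (FL G) p Ok M d ((PQ1 G P Vs pL pR).SU (FL G) M) (B ∪ G.Vis M.s M.s') := by
  have hs : M.s ∈ G.L (G.f M.s) := hd.hM.hs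
  have hs' : M.s' ∈ G.L (G.f M.s) := hd.hM.hs'
  have lt : G.ρ M.s < G.ρ M.s' := hd.hM.lt
  have R := h.vf.toRows
  obtain ⟨X', P', Ψ, O, b, k⟩ := k
  refine ⟨X', P', Ψ, O, Set.union_subset b fun v hv' => ?_, k⟩
  have kp := kp_sub O
  have kk : ∀ a ∈ d.X, a ∈ G.K → a ∈ X' := fun a ha hk =>
    kp ((h.bt_k (hd.eX ▸ ha) hk).elim (fun r => Or.inl (r.trans hd.ea.symm))
      fun r => Or.inr (Or.inl (r.trans hd.eb.symm)))
  have free : ∀ a ∈ d.X, a ∈ G.K → ∀ x ∈ d.X, G.Γ.Adj a x → (a = G.an M.s ∧ x = G.xr a → HR G) →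
      (a = G.an M.s' ∧ x = G.xl a → HL G) → x ∈ X' := by
    intro a ha hk x hx e r1 r2
    have fa : G.f a = G.f M.s := (h.bt_k (hd.eX ▸ ha) hk).elim
      (fun r => r ▸ (h.vf.an_v hs (h.pr _) (r ▸ hk)).2) fun r => r ▸ (h.vf.an_v hs' (h.pr _) (r ▸ hk)).2
    refine sh_keep hd.mc.disc O.sh ((h.bt_k (hd.eX ▸ ha) hk).imp (fun r => r.trans hd.ea.symm)
      fun r => r.trans hd.eb.symm) hx e.symm fun z hz za y hy zy => ?_
    by_cases c : y ∈ G.K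
    · exact Or.inl (h.kq y c a hk z zy za)
    obtain ⟨y1, y2, y3⟩ := h.vf.bt_line hs (h.pr _) hs' (h.pr _) lt.le (hd.eX ▸ hy) c
    have nz : z ∉ G.L (G.f a - 1) := fun m => lU (F := FL G) m (by
      rw [sub_add_cancel, fa]
      exact FN.ciU h.lay hd.hM (hd.mc.ci hz))
    have f := h.foot hk
    rw [← fa] at y1
    right
    rcases h.stem hs hs' lt.le (hd.eX ▸ ha) (hd.eX ▸ hx) e hk with r | r
    · rw [r.2]
      exact R.inj y1 f.2.1.1 (le_antisymm (r1 r a hk z za nz y y1 zy) (r.1 ▸ y2))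
    · rw [r.2]
      exact R.inj y1 f.1.1 (le_antisymm (r.1 ▸ y3) (r2 r a hk z za nz y y1 zy))
  rcases hd.vis (pL := pL ∨ HL G) (pR := pR ∨ HR G) h o hv hv' with r | r | ⟨f, ⟨u, hu, e, c, m⟩, r⟩
  · exact kp (Or.inl r)
  · exact kp (Or.inr (Or.inl r))
  obtain ⟨e1, e2, e3⟩ := hd.rng h hu c
  obtain ⟨n1, n2, -⟩ := R.nx_mem e1
  have sb := hd.bt h hu c
  rcases m.2 with g | ⟨g | g, g1, rfl⟩ | ⟨g | g, g1, rfl⟩
  · exact kp (Or.inr (Or.inr ⟨f, ⟨u, hu, e, c, m.1, Or.inl g⟩, r⟩))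
  · exact kp (Or.inr (Or.inr ⟨_, ⟨u, hu, e, c, m.1, Or.inr (Or.inl ⟨g, g1, rfl⟩)⟩, r⟩))
  · obtain ⟨a1, a2, a3⟩ := mem_PE.1 m.1
    rcases Sym2.mem_iff.1 r with rfl | rfl
    · exact kk _ (sb a1) g1
    · refine free _ (sb a1) g1 _ (sb a2) a3 (fun t => absurd ?_ (bt_ne a1 a2 a3.ne)) fun _ => g
      exact (h.vf.btw hs (h.pr _) e1 (h.pr _) n1 (h.pr _) e2 (by omega) t.1.symm
        (t.1 ▸ g1)).trans t.1.symm
  · exact kp (Or.inr (Or.inr ⟨_, ⟨u, hu, e, c, m.1, Or.inr (Or.inr ⟨g, g1, rfl⟩)⟩, r⟩))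
  · obtain ⟨a1, a2, a3⟩ := mem_PE.1 m.1
    rcases Sym2.mem_iff.1 r with rfl | rfl
    · exact kk _ (sb a1) g1
    · refine free _ (sb a1) g1 _ (sb a2) a3 (fun _ => g) fun t => absurd ?_ (bt_ne a1 a2 a3.ne)
      exact (h.vf.btw e1 (h.pr _) n1 (h.pr _) hs' (h.pr _) (by omega) (by omega) t.1 g1).symm

variable (h : SV G) (hp : PS (FL G) (XL G) G.Pr p (PQ1 G P Vs pL pR)) (st : StC G p Vs pL pR)
include h hp st

theorem csol1 (hd : VC G M d) (o : ∀ u ∈ M.us, (PQ1 G P Vs pL pR).Ok0 (FL G) u)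
    (hv : ∀ u ∈ M.us, ∀ e, (FL G).Cov u e → VisE G P Vs (pL ∨ HL G) (pR ∨ HR G) e)
    (k : Sl (FL G) p ((PQ1 G P Vs pL pR).Ok (FL G)) M d ((PQ1 G P Vs pL pR).SU (FL G) M) B) :
    CSol (FL G) (XL G) p ((PQ1 G P Vs pL pR).Ok (FL G)) M :=
  hd.csol h hp st o ((keep h hd (fun u a => (o u a).nv) hv k).mono subset_rfl
    fun _ m => Or.inl (Or.inr m))

/-- Every macro cell over the top edge `e` has a solution of its disc. -/
def SpS (G : VD J) (p : PD J) (q : PQ J) (e : Vx J) : Prop :=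
  ∀ M d u, VC G M d → M.us = {u} → q.Ok0 (FL G) u → (FL G).Cov u e →
    Sl (FL G) p (q.Ok (FL G)) M d (q.SU (FL G) M) ∅

/-- The colouring: all feet are protected and every top edge is ordinary or has a special
translate. -/
theorem master1 [Fintype J] (hφ : PH (FL G) G.Pr φ)
    (bar : ∀ y ∈ G.LA, ∃ n, φ^[n] y ∈ (PQ1 G P Vs pL pR).St (FL G))
    (vis : ∀ e ∈ G.LA, VisE G P Vs (pL ∨ HL G) (pR ∨ HR G) e)
    (top : ∀ e ∈ G.LA, (PQ1 G P Vs pL pR).Od (FL G) p e ∨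
      ∃ a, SpS G p (PQ1 G P Vs pL pR) (tr a e)) : ∃ c, Col1 G.Γ ∅ c := by
  have hF := h.lay
  refine PS.master (F := FL G) hF hp hφ bar fun M hM o => ?_
  obtain ⟨u, hu⟩ := FE.one_unit hF hM fun _ _ => h.pr _
  have mu : u ∈ M.us := hu ▸ rfl
  have vu := (hM.val u mu).1
  by_cases c : ∃ e, (FL G).Cov u e ∧ ∃ a, SpS G p (PQ1 G P Vs pL pR) (tr a e)
  · obtain ⟨e, c, a, k⟩ := c
    have hM' := hF.mval_tr a hM
    have us : (M.act a).us = {u.act a} := by rw [MU.act, hu, Set.image_singleton]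
    have o' : ∀ t ∈ (M.act a).us, (PQ1 G P Vs pL pR).Ok0 (FL G) t := fun t ht => by
      rw [us] at ht
      exact ht ▸ (hp.act hF a vu).1 (o u mu)
    obtain ⟨d, hd⟩ := h.vc (P := P) st hM' fun t ht => (o' t ht).nv
    have := csol_tr hF (hp.plan hF) (fun a u hu => (hp.act hF a hu).2) (-a) hM'
      (csol1 h hp st hd o' (fun _ _ y m => vis y (hF.la m.1))
        (k _ d _ hd us (o' _ (us ▸ rfl)) ((hF.cov_tr a e vu).2 c)))
    rwa [MU.act_act, add_neg_cancel, MU.act_zero] at this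
  · obtain ⟨d, hd⟩ := h.vc (P := P) st hM fun t ht => (o t ht).nv
    exact csol1 h hp st hd o (fun _ _ y m => vis y (hF.la m.1)) (hp.ord hF hM hu (o u mu) hd.mc
      (hd.cel h hp.pl st).sub fun e m => (top e (hF.la m.1)).resolve_right fun g => c ⟨e, m, g⟩)

end Pool.Agent.P.MP_08fd93_co.FK
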