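import Pool.Agent.P.MP_08fd93_co.FN.N4

/-! Barrier and rank: all cycles of the map from an edge to the edge above it are pinned. -/

set_option autoImplicit false

namespace Pool.Agent.P.MP_08fd93_co.FK

open OV FN PkPrtP

variable {J : Type}

/-- the cycles of a self-map of a finite type that avoid `G` -/
theorem pw_fin [Finite J] (ψ : J → J) (G : Set J) :
    ∃ (W : Set J) (r : J → ℕ) (N : ℕ), (∀ i ∈ W, i ∉ G ∧ ψ i ∈ W ∧ ∃ k ∈ W, ψ k = i) ∧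
      (∀ i ∈ W, ∀ k ∈ W, ψ i = ψ k → i = k) ∧ (∀ i, r i ≤ N) ∧
      (∀ i, r i = 0 ↔ i ∈ G ∨ i ∈ W) ∧ ∀ i, i ∉ G → i ∉ W → r (ψ i) < r i := by
  classical
  let W : Set J := {i | i ∈ Function.periodicPts ψ ∧ ∀ t, ψ^[t] i ∉ G}
  have B := Function.bijOn_periodicPts (f := ψ)
  have ex : ∀ i, ∃ t, ψ^[t] i ∈ G ∨ ψ^[t] i ∈ W := by
    intro i
    obtain ⟨a, b, ne, e⟩ := Finite.exists_ne_map_eq_of_infinite fun t : ℕ => ψ^[t] i
    have key : ∀ a b : ℕ, a < b → ψ^[a] i = ψ^[b] i → ∃ t, ψ^[t] i ∈ G ∨ ψ^[t] i ∈ W := by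
      intro a b l e
      by_cases h : ∀ t, ψ^[t] (ψ^[a] i) ∉ G
      · refine ⟨a, Or.inr ⟨Function.mem_periodicPts.2 ⟨b - a, by omega, ?_⟩, h⟩⟩
        show ψ^[b - a] (ψ^[a] i) = ψ^[a] i
        rw [← Function.iterate_add_apply, Nat.sub_add_cancel l.le, e]
      · simp only [not_forall, not_not] at h
        obtain ⟨t, h⟩ := h
        exact ⟨t + a, Or.inl (by rwa [Function.iterate_add_apply])⟩
    rcases lt_or_gt_of_ne ne with l | l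
    exacts [key a b l e, key b a l e.symm]
  obtain ⟨N, hN⟩ := (Set.finite_range fun i => Nat.find (ex i)).bddAbove
  refine ⟨W, fun i => Nat.find (ex i), N, fun i hi => ⟨hi.2 0, ⟨B.mapsTo hi.1, fun t => ?_⟩, ?_⟩,
    fun i hi k hk e => B.injOn hi.1 hk.1 e, fun i => hN ⟨i, rfl⟩, fun i => ?_, fun i h1 h2 => ?_⟩
  · rw [← Function.iterate_succ_apply]
    exact hi.2 _
  · obtain ⟨k, hk, e⟩ := B.surjOn hi.1
    refine ⟨k, ⟨hk, fun t => ?_⟩, e⟩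
    obtain ⟨p, hp, e'⟩ := Function.mem_periodicPts.1 hk
    have : ψ^[t] k = ψ^[t + (p - 1)] i := by
      rw [← e, ← Function.iterate_succ_apply, show (t + (p - 1)).succ = t + p by omega,
        Function.iterate_add_apply, e'.eq]
    rw [this]
    exact hi.2 _
  · rw [Nat.find_eq_zero]
    rfl
  · have h0 : Nat.find (ex i) ≠ 0 := by
      rw [Ne, Nat.find_eq_zero]
      exact fun h => h.elim h1 h2
    have h3 := Nat.find_spec (ex i)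
    obtain ⟨t, ht⟩ := Nat.exists_eq_succ_of_ne_zero h0
    show Nat.find (ex (ψ i)) < Nat.find (ex i)
    rw [ht] at h3 ⊢
    exact Nat.lt_succ_of_le (Nat.find_min' _ h3)

/-- `W` is the set of cycles of `φ` on `A` that avoid `G`; `r` counts the steps to `G ∪ W`. -/
structure PWR (A G : Set (Vx J)) (φ : Vx J → Vx J) (W : Set (Vx J)) (r : Vx J → ℕ) (N : ℕ) :
    Prop where
  sub : W ⊆ A
  inv : ∀ a x, tr a x ∈ W ↔ x ∈ W
  ng : ∀ w ∈ W, w ∉ G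
  up : ∀ w ∈ W, φ w ∈ W
  dn : ∀ w ∈ W, ∃ k ∈ W, φ k = w
  inj : ∀ w ∈ W, ∀ k ∈ W, φ w = φ k → w = k
  bd : ∀ y, r y ≤ N
  z : ∀ y ∈ A, r y = 0 ↔ y ∈ G ∨ y ∈ W
  lt : ∀ y ∈ A, y ∉ G → y ∉ W → r (φ y) < r y

theorem tr0 (y : Vx J) : tr y.2 ((y.1, 0) : Vx J) = y := by simp [tr]

theorem tr0' (y : Vx J) : tr (-y.2) y = (y.1, 0) := by simp [tr]

/-- an invariant set is described by its orbits -/
theorem mem0 {A : Set (Vx J)} (hA : ∀ a, ∀ x ∈ A, tr a x ∈ A) (y : Vx J) :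
    ((y.1, 0) : Vx J) ∈ A ↔ y ∈ A :=
  ⟨fun h => tr0 y ▸ hA y.2 _ h, fun h => tr0' y ▸ hA _ _ h⟩

theorem pw_ex [Finite J] {A G : Set (Vx J)} {φ : Vx J → Vx J} (hA : ∀ a, ∀ x ∈ A, tr a x ∈ A)
    (hG : ∀ a, ∀ x ∈ G, tr a x ∈ G)
    (he : ∀ a, ∀ y ∈ A, φ (tr a y) = tr a (φ y)) : ∃ W r N, PWR A G φ W r N := by
  obtain ⟨W, r, N, h1, h2, h3, h4, h5⟩ := pw_fin (fun i : J => (φ (i, 0)).1)
    {i | ((i, 0) : Vx J) ∈ G ∨ ((i, 0) : Vx J) ∉ A}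
  have e1 : ∀ y ∈ A, (φ (y.1, 0)).1 = (φ y).1 := fun y hy => by
    rw [← tr0' y, he _ y hy]
    rfl
  have sub : ∀ y : Vx J, y.1 ∈ W → y ∈ A := fun y hy => by
    by_contra h
    exact (h1 _ hy).1 (Or.inr fun k => h ((mem0 hA y).1 k))
  refine ⟨{y | y.1 ∈ W}, fun y => r y.1, N, sub, fun a x => Iff.rfl, fun w hw k => ?_,
    fun w hw => ?_, fun w hw => ?_, fun w hw k hk e => ?_, fun y => h3 _, fun y hy => ?_,
    fun y hy g1 g2 => ?_⟩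
  · exact (h1 _ hw).1 (Or.inl ((mem0 hG w).2 k))
  · have := (h1 _ hw).2.1
    rwa [e1 w (sub w hw)] at this
  · obtain ⟨k, hk, e⟩ := (h1 _ hw).2.2
    refine ⟨tr (w.2 - (φ (k, 0)).2) (k, 0), hk, ?_⟩
    rw [he _ _ (sub (k, 0) hk)]
    exact Prod.ext e (by simp [tr])
  · have e2 : w.1 = k.1 := h2 _ hw _ hk (by rw [e1 w (sub w hw), e1 k (sub k hk), e])
    have e3 : k = tr (k.2 - w.2) w := Prod.ext e2.symm (by simp [tr])
    rw [e3, he _ w (sub w hw)] at e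
    rw [e3, tr_eq_self e.symm, tr_zero]
  · refine (h4 _).trans (or_congr_left ?_)
    exact ⟨fun k => (mem0 hG y).1 (k.resolve_right fun m => m ((mem0 hA y).2 hy)),
      fun k => Or.inl ((mem0 hG y).2 k)⟩
  · have := h5 y.1 (fun k => k.elim (fun m => g1 ((mem0 hG y).1 m))
      fun m => m ((mem0 hA y).2 hy)) g2
    rwa [e1 y hy] at this

variable {F : FD J} {X : XD J} {Pr : Set (Vx J)}

/-- `z` is the left end of the static cell over the edge named by `y`. -/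
def Und (F : FD J) (Pr : Set (Vx J)) (y z : Vx J) : Prop :=
  z ∈ F.L (F.f y + 1) ∧ z ∈ Pr ∧ F.ρ (F.an z) ≤ F.ρ y ∧
    ∀ t ∈ F.L (F.f y + 1), t ∈ Pr → F.ρ z < F.ρ t → F.ρ y < F.ρ (F.an t)

/-- The map from an edge to the first top edge of its static cell. -/
structure PH (F : FD J) (Pr : Set (Vx J)) (φ : Vx J → Vx J) : Prop where
  und : ∀ y ∈ F.LA, Und F Pr y (φ y)
  uni : ∀ y ∈ F.LA, ∀ z, Und F Pr y z → z = φ y
  eqv : ∀ a, ∀ y ∈ F.LA, φ (tr a y) = tr a (φ y)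

theorem und_uni (hF : Lay F X Pr) {y z z' : Vx J} (h : Und F Pr y z) (h' : Und F Pr y z') :
    z = z' := by
  refine hF.inj h.1 h'.1 ?_
  by_contra ne
  rcases lt_or_gt_of_ne ne with l | l
  · exact absurd (h.2.2.2 _ h'.1 h'.2.1 l) (not_lt.2 h'.2.2.1)
  · exact absurd (h'.2.2.2 _ h.1 h.2.1 l) (not_lt.2 h.2.2.1)

theorem an_w (hF : Lay F X Pr) {j : ℤ} {t : Vx J} (ht : t ∈ F.L j) (pt : t ∈ Pr) (k : ℤ) :
    F.ρ (F.an (tr (k • F.w) t)) = F.ρ (F.an t) + k * F.nn (j - 1) := by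
  rw [hF.atr _ t pt]
  exact (hF.w_mem k (hF.anL j t ht pt)).2

theorem und_ex (hF : Lay F X Pr) (hP : ∀ j, ∃ t ∈ F.L j, t ∈ Pr) (y : Vx J) :
    ∃ z, Und F Pr y z := by
  obtain ⟨t, ht, pt⟩ := hP (F.f y + 1)
  have n2 := hF.n2 (F.f y + 1 - 1)
  have n2' := hF.n2 (F.f y + 1)
  have far : ∀ k : ℤ, ∃ i, F.l (F.f y + 1) i ∈ Pr ∧ i = F.ρ t + k * F.nn (F.f y + 1) ∧
      F.ρ (F.an (F.l (F.f y + 1) i)) = F.ρ (F.an t) + k * F.nn (F.f y + 1 - 1) := fun k => by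
    obtain ⟨m1, m2⟩ := hF.w_mem k ht
    refine ⟨F.ρ (tr (k • F.w) t), ?_, m2, ?_⟩ <;> rw [hF.l_rho m1]
    exacts [hF.pinv _ _ pt, an_w hF ht pt k]
  have a0 := abs_nonneg (F.ρ y - F.ρ (F.an t))
  have a1 := le_abs_self (F.ρ y - F.ρ (F.an t))
  have a2 := neg_abs_le (F.ρ y - F.ρ (F.an t))
  obtain ⟨i1, p1, -, r1⟩ := far (|F.ρ y - F.ρ (F.an t)| + 1)
  obtain ⟨i0, p0, -, r0⟩ := far (-|F.ρ y - F.ρ (F.an t)|)
  obtain ⟨i, ⟨q1, q2⟩, hi⟩ := Int.exists_greatest_of_bdd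
    (P := fun i => F.l (F.f y + 1) i ∈ Pr ∧ F.ρ (F.an (F.l (F.f y + 1) i)) ≤ F.ρ y)
    ⟨i1, fun i k => by
      by_contra l
      have := hF.amono _ _ (hF.l_mem _ i1) _ (hF.l_mem _ i) p1 k.1 (by rw [hF.rho, hF.rho]; omega)
      have := k.2
      nlinarith⟩ ⟨i0, p0, by nlinarith⟩
  refine ⟨_, hF.l_mem _ i, q1, q2, fun s hs ps l => ?_⟩
  by_contra m
  have := hi (F.ρ s) (by rw [hF.l_rho hs]; exact ⟨ps, not_lt.1 m⟩)
  rw [hF.rho] at l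
  omega

theorem und_tr (hF : Lay F X Pr) (a : ℤ × ℤ) {y z : Vx J} (hy : y ∈ F.LA) (h : Und F Pr y z) :
    Und F Pr (tr a y) (tr a z) := by
  have e : F.f (tr a y) + 1 = F.f y + 1 + F.η a := by rw [hF.per]; ring
  have lo : ∀ t ∈ F.L (F.f y + 1), t ∈ Pr → F.an t ∈ F.L (F.f y) := fun t ht pt => by
    have := hF.anL _ t ht pt
    rwa [add_sub_cancel_right] at this
  refine ⟨by rw [e]; exact (hF.ltr a _ z).2 h.1, hF.pinv a z h.2.1, ?_, fun t ht pt l => ?_⟩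
  · rw [hF.atr a z h.2.1]
    have := hF.rd a (lo z h.1 h.2.1) hy
    have := h.2.2.1
    omega
  · obtain ⟨t, rfl⟩ := tr_surj a t
    rw [e] at ht
    have ht' := (hF.ltr a _ t).1 ht
    have pt' := (hF.p_tr a t).1 pt
    rw [hF.atr a t pt']
    have := hF.rd a ht' h.1
    have := h.2.2.2 t ht' pt' (by omega)
    have := hF.rd a (lo t ht' pt') hy
    omega

theorem ph_ex (hF : Lay F X Pr) (hP : ∀ j, ∃ t ∈ F.L j, t ∈ Pr) : ∃ φ, PH F Pr φ := by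
  choose φ h using und_ex hF hP
  exact ⟨φ, fun y _ => h y, fun y _ z k => und_uni hF k (h y),
    fun a y hy => und_uni hF (h _) (und_tr hF a hy (h y))⟩

variable {φ : Vx J → Vx J}

theorem PH.mem (h : PH F Pr φ) {y : Vx J} (hy : y ∈ F.LA) : φ y ∈ F.L (F.f y + 1) := (h.und y hy).1

theorem PH.la (hF : Lay F X Pr) (h : PH F Pr φ) {y : Vx J} (hy : y ∈ F.LA) : φ y ∈ F.LA :=
  hF.la (h.mem hy)

theorem PH.lev (hF : Lay F X Pr) (h : PH F Pr φ) {y : Vx J} (hy : y ∈ F.LA) :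
    F.f (φ y) = F.f y + 1 := hF.lf _ _ (h.mem hy)

theorem PH.mono (hF : Lay F X Pr) (h : PH F Pr φ) {j : ℤ} {y y' : Vx J} (hy : y ∈ F.L j)
    (hy' : y' ∈ F.L j) (l : F.ρ y ≤ F.ρ y') : F.ρ (φ y) ≤ F.ρ (φ y') := by
  obtain ⟨a1, a2, a3, -⟩ := h.und y (hF.la hy)
  obtain ⟨-, -, -, b4⟩ := h.und y' (hF.la hy')
  rw [hF.lf j y hy] at a1
  rw [hF.lf j y' hy'] at b4
  by_contra m
  have := b4 _ a1 a2 (not_le.1 m)
  omega

theorem over_la (hF : Lay F X Pr) {M : MU J} {y : Vx J} (o : Over F M y) :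
    y ∈ F.LA ∧ F.f y + 1 = F.f M.s := by
  have := hF.lf _ _ o.1.1
  exact ⟨hF.la o.1.1, by omega⟩

/-- the edge above `y` lies on the top of every macro cell over `y` -/
theorem PH.over (hF : Lay F X Pr) (h : PH F Pr φ) {M : MU J} (hM : MVal F X Pr M) {y : Vx J}
    (o : Over F M y) : φ y ∈ F.L (F.f M.s) ∧ F.ρ M.s ≤ F.ρ (φ y) ∧ F.ρ (φ y) < F.ρ M.s' := by
  obtain ⟨hy, e⟩ := over_la hF o
  obtain ⟨a1, a2, a3, a4⟩ := h.und y hy
  rw [e] at a1 a4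
  refine ⟨a1, ?_, ?_⟩ <;> by_contra m
  · exact absurd (a4 _ hM.hs hM.ps (not_le.1 m)) (not_lt.2 o.1.2.1)
  · have := hF.amono _ _ hM.hs' _ a1 hM.ps' a2 (not_lt.1 m)
    have := o.2
    omega

/-- conversely, an edge whose upper edge lies on the top of a macro cell is on its bottom -/
theorem PH.over' (hF : Lay F X Pr) (h : PH F Pr φ) {M : MU J} (hM : MVal F X Pr M) {y : Vx J}
    (hy : y ∈ F.LA) (m : φ y ∈ F.L (F.f M.s)) (l1 : F.ρ M.s ≤ F.ρ (φ y))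
    (l2 : F.ρ (φ y) < F.ρ M.s') : Over F M y := by
  obtain ⟨a1, a2, a3, a4⟩ := h.und y hy
  have e : F.f y + 1 = F.f M.s := (hF.lf _ _ a1).symm.trans (hF.lf _ _ m)
  rw [e] at a4
  have b1 := a4 _ hM.hs' hM.ps' l2
  have b2 := hF.amono _ _ hM.hs _ m hM.ps a2 l1
  exact ⟨⟨by rw [← e, add_sub_cancel_right]; exact hy, by omega, b1.le⟩, b1⟩

theorem PH.cov (hF : Lay F X Pr) (h : PH F Pr φ) {M : MU J} (hM : MVal F X Pr M) {y : Vx J}
    (o : Over F M y) : ∃ u ∈ M.us, F.Cov u (φ y) := by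
  obtain ⟨a, b, c⟩ := h.over hF hM o
  exact hM.cov _ ⟨a, b, c.le⟩ c

/-- a macro cell whose units begin in `Pr` has one unit -/
theorem one_unit (hF : Lay F X Pr) {M : MU J} (hM : MVal F X Pr M) (h : ∀ u ∈ M.us, u.s ∈ Pr) :
    ∃ u, M.us = {u} ∧ u.s = M.s ∧ u.s' = M.s' := by
  obtain ⟨u, hu, e⟩ := hM.last hF
  have e0 := hM.mx u hu (h u hu)
  refine ⟨u, Set.eq_singleton_iff_unique_mem.2 ⟨hu, fun t ht => ?_⟩, e0, e⟩
  have e1 := hM.mx t ht (h t ht)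
  exact hM.uni t ht u hu t.s (cov_self (hM.val t ht).1)
    (by rw [e1, ← e0]; exact cov_self (hM.val u hu).1)

/-- a cap hides an end of every edge that it covers -/
theorem cap_hides (hF : Lay F X Pr) {u : Un J} (hu : Val F ∅ u) (n : u.x ≠ u.s) {y : Vx J}
    (hc : F.Cov u y) : y ∈ u.pk ∨ F.nx y ∈ u.pk := by
  have c := cap_of hu n
  have := c.lt
  obtain ⟨m1, m2, -⟩ := hF.nx_mem hc.1
  rcases eq_or_lt_of_le hc.2.1 with e | e
  · exact Or.inr ((c.old _ m1).2 ⟨by omega, by omega⟩)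
  · exact Or.inl ((c.old _ hc.1).2 ⟨e, hc.2.2⟩)

/-- an edge with two visible ends is covered by its trivial unit only -/
theorem rigid (hF : Lay F X Pr) {u : Un J} (hu : Val F ∅ u) {y : Vx J} (hc : F.Cov u y)
    (h1 : y ∉ u.pk) (h2 : F.nx y ∉ u.pk) : u = Tv F y := by
  have n : u.x = u.s := by
    by_contra n
    exact (cap_hides hF hu n hc).elim h1 h2
  have e := hF.eq_tv hu n
  have : y = u.s := hF.tv_cov (hF.la hu.hs) (e ▸ hc)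
  rw [this]
  exact e

/-- The barrier hypothesis of the master theorem. -/
theorem rank_ok (hF : Lay F X Pr) (h : PH F Pr φ) {G W : Set (Vx J)} {r : Vx J → ℕ} {N : ℕ}
    (hW : PWR F.LA G φ W r N) {Ok : Un J → Prop}
    (rig : ∀ y ∈ F.LA, y ∈ G ∨ y ∈ W → ∀ u1 u2, Val F ∅ u1 → Val F ∅ u2 → Ok u1 → Ok u2 →
      F.Cov u1 y → F.Cov u2 y → u1 = u2)
    (mac : ∀ M, MVal F X Pr M → (∀ u ∈ M.us, Ok u) → (∀ u ∈ M.us, u.s ∈ Pr) ∨
      ∀ u ∈ M.us, ∃ z, F.Cov u z ∧ (z ∈ G ∨ z ∈ W)) : ∀ y ∈ F.LA,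
      (∀ u1 u2, Val F ∅ u1 → Val F ∅ u2 → Ok u1 → Ok u2 → F.Cov u1 y → F.Cov u2 y → u1 = u2) ∨
      ∀ M, MVal F X Pr M → (∀ u ∈ M.us, Ok u) → Over F M y →
        ∀ u ∈ M.us, ∃ z, F.Cov u z ∧ r z < r y := by
  intro y hy
  by_cases k : y ∈ G ∨ y ∈ W
  · exact Or.inl (rig y hy k)
  refine Or.inr fun M hM ok o u hu => ?_
  rcases mac M hM ok with m | m
  · obtain ⟨u0, e, -, -⟩ := one_unit hF hM m
    obtain ⟨t, ht, c⟩ := h.cov hF hM o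
    rw [e] at ht hu
    rw [show u = t from hu.trans ht.symm]
    exact ⟨_, c, hW.lt y hy (fun g => k (Or.inl g)) fun g => k (Or.inr g)⟩
  · obtain ⟨z, c, g⟩ := m u hu
    have := (hW.z z (hF.la c.1)).2 g
    have : r y ≠ 0 := fun e => k ((hW.z y hy).1 e)
    exact ⟨z, c, by omega⟩

end Pool.Agent.P.MP_08fd93_co.FK
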