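import Pool.Agent.P.MP_08fd93_co.FK.K1

/-! The plan of the rows from sources, sinks and pins. -/

set_option autoImplicit false

namespace Pool.Agent.P.MP_08fd93_co.FK

open OV FN PkPrtP

variable {J : Type} {F : FD J} {X : XD J} {Pr : Set (Vx J)}

/-- The previous vertex on the level line. -/
def pv (F : FD J) (x : Vx J) : Vx J := F.l (F.f x) (F.ρ x - 1)

/-- The vertex `k` steps to the right. -/
def sh (F : FD J) (x : Vx J) (k : ℕ) : Vx J := F.l (F.f x) (F.ρ x + k)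

theorem pv_mem (hF : Lay F X Pr) {j : ℤ} {x : Vx J} (hx : x ∈ F.L j) :
    pv F x ∈ F.L j ∧ F.ρ (pv F x) = F.ρ x - 1 ∧ F.nx (pv F x) = x := by
  unfold pv
  rw [hF.lf j x hx, hF.rho, hF.nx_l, sub_add_cancel, hF.l_rho hx]
  exact ⟨hF.l_mem _ _, rfl, rfl⟩

theorem pv_nx (hF : Lay F X Pr) {j : ℤ} {x : Vx J} (hx : x ∈ F.L j) : pv F (F.nx x) = x := by
  obtain ⟨a, b, -⟩ := hF.nx_mem hx
  obtain ⟨c, d, -⟩ := pv_mem hF a
  exact hF.inj c hx (by omega)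

theorem nx_inj (hF : Lay F X Pr) {x y : Vx J} (hx : x ∈ F.LA) (hy : y ∈ F.LA)
    (e : F.nx x = F.nx y) : x = y := by
  rw [← pv_nx hF hx, e, pv_nx hF hy]

theorem pv_tr (hF : Lay F X Pr) (a : ℤ × ℤ) {x : Vx J} (hx : x ∈ F.LA) :
    pv F (tr a x) = tr a (pv F x) := by
  obtain ⟨m, -, e⟩ := pv_mem hF hx
  conv_lhs => rw [← e, ← hF.nx_tr a m]
  exact pv_nx hF ((hF.la_tr a _).2 (hF.la m))

theorem nx_la (hF : Lay F X Pr) {x : Vx J} (hx : x ∈ F.LA) : F.nx x ∈ F.LA :=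
  hF.la (hF.nx_mem hx).1

theorem f_nx (hF : Lay F X Pr) (x : Vx J) : F.f (F.nx x) = F.f x := hF.f_l _ _

theorem sh_mem (hF : Lay F X Pr) (x : Vx J) (k : ℕ) :
    sh F x k ∈ F.L (F.f x) ∧ F.ρ (sh F x k) = F.ρ x + k := ⟨hF.l_mem _ _, hF.rho _ _⟩

theorem sh_zero (hF : Lay F X Pr) {x : Vx J} (hx : x ∈ F.LA) : sh F x 0 = x := by
  unfold sh
  rw [Nat.cast_zero, add_zero, hF.l_rho hx]

theorem sh_succ (hF : Lay F X Pr) (x : Vx J) (k : ℕ) : sh F x (k + 1) = sh F (F.nx x) k := by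
  unfold sh
  rw [f_nx hF, FD.nx, hF.rho]
  congr 1
  push_cast
  ring

theorem sh_tr (hF : Lay F X Pr) (a : ℤ × ℤ) {x : Vx J} (hx : x ∈ F.LA) (k : ℕ) :
    sh F (tr a x) k = tr a (sh F x k) := by
  obtain ⟨κ, hκ⟩ := hF.ltr' a (F.f x)
  unfold sh
  rw [hκ, hF.per]
  congr 1
  conv_lhs => rw [← hF.l_rho hx, hκ, hF.rho]
  ring

theorem sh_of_le (hF : Lay F X Pr) {j : ℤ} {x y : Vx J} (hx : x ∈ F.L j) (hy : y ∈ F.L j)
    (l : F.ρ x ≤ F.ρ y) : ∃ k : ℕ, y = sh F x k ∧ F.ρ y = F.ρ x + k := by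
  obtain ⟨k, hk⟩ := Int.eq_ofNat_of_zero_le (sub_nonneg.2 l)
  refine ⟨k, ?_, by omega⟩
  unfold sh
  rw [hF.lf j x hx, ← hk, add_sub_cancel, hF.l_rho hy]

/-- every vertex has an element of an invariant set to its right -/
theorem sh_ex (hF : Lay F X Pr) {A : Set (Vx J)} (hA : ∀ a, ∀ x ∈ A, tr a x ∈ A)
    (ne : ∀ j, ∃ m ∈ F.L j, m ∈ A) (x : Vx J) : ∃ k, sh F x k ∈ A := by
  obtain ⟨m, hm, a⟩ := ne (F.f x)
  have n2 := hF.n2 (F.f x)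
  obtain ⟨m1, m2⟩ := hF.w_mem |F.ρ x - F.ρ m| hm
  have a0 := abs_nonneg (F.ρ x - F.ρ m)
  have a1 := le_abs_self (F.ρ x - F.ρ m)
  obtain ⟨k, hk⟩ := Int.eq_ofNat_of_zero_le
    (show 0 ≤ F.ρ (tr (|F.ρ x - F.ρ m| • F.w) m) - F.ρ x by nlinarith)
  refine ⟨k, ?_⟩
  unfold sh
  rw [← hk, add_sub_cancel, hF.l_rho m1]
  exact hA _ _ a

/-- The first special edge at or after `v` is a sink. -/
def AS (F : FD J) (Src Snk : Set (Vx J)) : Set (Vx J) :=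
  {v | ∃ k : ℕ, sh F v k ∈ Snk ∧ ∀ k' < k, sh F v k' ∉ Src}

/-- Data of the rows: sources, sinks, flexible and forced monochromatic edges, pinned edges and
the sinks whose left end pays below. -/
structure ED (J : Type) where
  Src : Set (Vx J)
  Snk : Set (Vx J)
  Mo : Set (Vx J)
  Fm : Set (Vx J)
  Pin : Set (Vx J)
  Dl : Set (Vx J)

/-- Admissible data: a source lies between any two sinks. -/
structure EOk (F : FD J) (E : ED J) : Prop where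
  isrc : ∀ a, ∀ x ∈ E.Src, tr a x ∈ E.Src
  isnk : ∀ a, ∀ x ∈ E.Snk, tr a x ∈ E.Snk
  imo : ∀ a, ∀ x ∈ E.Mo, tr a x ∈ E.Mo
  ifm : ∀ a, ∀ x ∈ E.Fm, tr a x ∈ E.Fm
  ipin : ∀ a, ∀ x ∈ E.Pin, tr a x ∈ E.Pin
  idl : ∀ a, ∀ x ∈ E.Dl, tr a x ∈ E.Dl
  dis : ∀ x ∈ E.Src, x ∉ E.Snk
  mo : E.Mo ⊆ E.Snk
  fm : E.Fm ⊆ E.Snk
  ne : ∀ j, ∃ m ∈ F.L j, m ∈ E.Mo
  alt : ∀ j, ∀ s ∈ F.L j, ∀ t ∈ F.L j, s ∈ E.Snk → t ∈ E.Snk → F.ρ s < F.ρ t →
    ∃ g ∈ F.L j, g ∈ E.Src ∧ F.ρ s < F.ρ g ∧ F.ρ g < F.ρ t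

/-- The plan of the rows. -/
structure RP (F : FD J) (E : ED J) (c : J → Col) (o : Vx J → Vx J) (dn : Set J) : Prop where
  cl : ∀ v ∈ F.LA, (c v.1).1 = decide (Even (F.f v))
  oR : ∀ v ∈ F.LA, v ∈ AS F E.Src E.Snk → o v = F.nx v
  oL : ∀ v ∈ F.LA, v ∉ AS F E.Src E.Snk → o v = pv F v
  col : ∀ y ∈ F.LA, y ∉ E.Mo → (c (F.nx y).1 = c y.1 ↔ y ∈ E.Fm)
  dR : ∀ v ∈ F.LA, v ∈ AS F E.Src E.Snk → (v.1 ∈ dn ↔ v ∈ E.Pin ∨ (v ∈ E.Snk ∧ v ∈ E.Dl))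
  dL : ∀ y ∈ F.LA, F.nx y ∉ AS F E.Src E.Snk →
    ((F.nx y).1 ∈ dn ↔ y ∈ E.Pin ∨ (y ∈ E.Snk ∧ y ∉ E.Dl))

theorem inv_iff {A : Set (Vx J)} (hA : ∀ a, ∀ x ∈ A, tr a x ∈ A) (a : ℤ × ℤ) (x : Vx J) :
    tr a x ∈ A ↔ x ∈ A := ⟨fun h => tr_neg a x ▸ hA (-a) _ h, hA a x⟩

variable {E : ED J}

theorem as_tr (hF : Lay F X Pr) (hE : EOk F E) (a : ℤ × ℤ) {v : Vx J} (hv : v ∈ F.LA) :
    tr a v ∈ AS F E.Src E.Snk ↔ v ∈ AS F E.Src E.Snk := by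
  simp only [AS, Set.mem_ofPred_eq, sh_tr hF a hv, inv_iff hE.isrc, inv_iff hE.isnk]

theorem as_snk (hF : Lay F X Pr) {y : Vx J} (hy : y ∈ F.LA) (h : y ∈ E.Snk) :
    y ∈ AS F E.Src E.Snk := ⟨0, by rwa [sh_zero hF hy], fun _ k => absurd k (Nat.not_lt_zero _)⟩

theorem as_snk' (hF : Lay F X Pr) (hE : EOk F E) {y : Vx J} (hy : y ∈ F.LA) (h : y ∈ E.Snk) :
    F.nx y ∉ AS F E.Src E.Snk := by
  rintro ⟨k, h1, h2⟩
  obtain ⟨n1, n2, -⟩ := hF.nx_mem hy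
  obtain ⟨m1, m2⟩ := sh_mem hF (F.nx y) k
  rw [f_nx hF] at m1
  obtain ⟨g, g1, g2, g3, g4⟩ := hE.alt _ y hy _ m1 h h1 (by omega)
  obtain ⟨k', rfl, e⟩ := sh_of_le hF n1 g1 (by omega)
  exact h2 k' (by omega) g2

theorem as_src (hF : Lay F X Pr) (hE : EOk F E) {y : Vx J} (hy : y ∈ F.LA) (h : y ∈ E.Src) :
    y ∉ AS F E.Src E.Snk := by
  rintro ⟨_ | k, h1, h2⟩
  · exact hE.dis y h (by rwa [sh_zero hF hy] at h1)
  · exact h2 0 (Nat.succ_pos k) (by rwa [sh_zero hF hy])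

theorem as_pv (hF : Lay F X Pr) {y : Vx J} (hy : y ∈ F.LA) (h : y ∉ E.Src)
    (k : F.nx y ∈ AS F E.Src E.Snk) : y ∈ AS F E.Src E.Snk := by
  obtain ⟨k, h1, h2⟩ := k
  refine ⟨k + 1, by rwa [sh_succ hF], ?_⟩
  rintro (_ | k') l
  · rwa [sh_zero hF hy]
  · rw [sh_succ hF]
    exact h2 k' (by omega)

theorem as_nx (hF : Lay F X Pr) {y : Vx J} (hy : y ∈ F.LA) (h : y ∉ E.Snk)
    (k : y ∈ AS F E.Src E.Snk) : F.nx y ∈ AS F E.Src E.Snk := by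
  obtain ⟨_ | k, h1, h2⟩ := k
  · exact absurd (by rwa [sh_zero hF hy] at h1) h
  · refine ⟨k, by rwa [← sh_succ hF], fun k' l => ?_⟩
    rw [← sh_succ hF]
    exact h2 _ (by omega)

/-- The plan of the rows exists. -/
theorem rp_ex (hF : Lay F X Pr) (ev : ∀ a, Even (F.η a)) (hE : EOk F E) :
    ∃ c o dn, RP F E c o dn := by
  classical
  have ex := sh_ex hF hE.imo hE.ne
  let cnt : Vx J → ℕ := fun v => Nat.count (fun k => sh F v k ∉ E.Fm) (Nat.find (ex v))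
  have ctr : ∀ a, ∀ v ∈ F.LA, cnt (tr a v) = cnt v := by
    intro a v hv
    simp only [cnt, sh_tr hF a hv, inv_iff hE.ifm, inv_iff hE.imo]
  have la0 : ∀ v ∈ F.LA, ((v.1, 0) : Vx J) ∈ F.LA := fun v hv => tr0' v ▸ (hF.la_tr _ v).2 hv
  have c0 : ∀ v ∈ F.LA, cnt (v.1, 0) = cnt v := fun v hv => by rw [← tr0' v, ctr _ v hv]
  have f0 : ∀ v : Vx J, Even (F.f (v.1, 0)) ↔ Even (F.f v) := fun v => by
    rw [← tr0' v, hF.per, Int.even_add]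
    simp [ev]
  let DN : Set (Vx J) := {v | (v ∈ AS F E.Src E.Snk ∧ (v ∈ E.Pin ∨ (v ∈ E.Snk ∧ v ∈ E.Dl))) ∨
    (v ∉ AS F E.Src E.Snk ∧ (pv F v ∈ E.Pin ∨ (pv F v ∈ E.Snk ∧ pv F v ∉ E.Dl)))}
  have d0 : ∀ v ∈ F.LA, ((v.1, 0) : Vx J) ∈ DN ↔ v ∈ DN := fun v hv => by
    rw [← tr0' v]
    simp only [DN, Set.mem_ofPred_eq, as_tr hF hE _ hv, pv_tr hF _ hv, inv_iff hE.ipin,
      inv_iff hE.isnk, inv_iff hE.idl]
  refine ⟨fun i => (decide (Even (F.f (i, 0))), decide (Even (cnt (i, 0)))),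
    fun v => if v ∈ AS F E.Src E.Snk then F.nx v else pv F v, {i | ((i, 0) : Vx J) ∈ DN},
    fun v _ => by simp only [f0], fun v _ h => if_pos h, fun v _ h => if_neg h, fun y hy h => ?_,
    fun v hv h => ?_, fun y hy h => ?_⟩
  · have e : Nat.find (ex y) = Nat.find (ex (F.nx y)) + 1 := by
      rw [Nat.find_eq_iff]
      refine ⟨by rw [sh_succ hF]; exact Nat.find_spec (ex _), ?_⟩
      rintro (_ | k) l
      · rwa [sh_zero hF hy]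
      · rw [sh_succ hF]
        exact Nat.find_min (ex _) (by omega)
    have e2 : cnt y = cnt (F.nx y) + if y ∉ E.Fm then 1 else 0 := by
      simp only [cnt]
      rw [e, Nat.count_succ']
      simp only [sh_succ hF, sh_zero hF hy]
    simp only [Prod.mk.injEq, f0, f_nx hF, c0 y hy, c0 _ (nx_la hF hy), true_and,
      decide_eq_decide, e2]
    by_cases m : y ∈ E.Fm
    · simp [m]
    · simp only [m, not_false_eq_true, if_true, Nat.even_add_one, iff_false]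
      tauto
  · refine (d0 v hv).trans ⟨fun k => ?_, fun k => Or.inl ⟨h, k⟩⟩
    exact k.elim And.right fun m => absurd h m.1
  · refine (d0 _ (nx_la hF hy)).trans ?_
    simp only [DN, Set.mem_ofPred_eq, pv_nx hF hy]
    exact ⟨fun k => k.elim (fun m => absurd m.1 h) And.right, fun k => Or.inr ⟨h, k⟩⟩

/-- the plan of the rows depends only on the values on the rows -/
theorem RP.congr (hF : Lay F X Pr) {c c' : J → Col} {o o' : Vx J → Vx J} {dn dn' : Set J}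
    (h : RP F E c o dn) (e1 : ∀ v ∈ F.LA, c' v.1 = c v.1) (e2 : ∀ v ∈ F.LA, o' v = o v)
    (e3 : ∀ v ∈ F.LA, v.1 ∈ dn' ↔ v.1 ∈ dn) : RP F E c' o' dn' :=
  ⟨fun v hv => by rw [e1 v hv]; exact h.cl v hv, fun v hv k => by rw [e2 v hv]; exact h.oR v hv k,
    fun v hv k => by rw [e2 v hv]; exact h.oL v hv k,
    fun y hy k => by rw [e1 y hy, e1 _ (nx_la hF hy)]; exact h.col y hy k,
    fun v hv k => (e3 v hv).trans (h.dR v hv k),
    fun y hy k => (e3 _ (nx_la hF hy)).trans (h.dL y hy k)⟩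

variable {p : PD J}

theorem Lt_iff (hF : Lay F X Pr) {v : Vx J} (hv : v ∈ F.LA) : p.Lt F v ↔ p.o v = pv F v := by
  obtain ⟨m, -, e⟩ := pv_mem hF hv
  refine ⟨fun h => nx_inj hF (hF.la h.1) (hF.la m) (h.2.trans e.symm), fun h => ?_⟩
  unfold PD.Lt
  rw [h]
  exact ⟨m, e⟩

theorem Lt_nx (hF : Lay F X Pr) {y : Vx J} (hy : y ∈ F.LA) :
    p.Lt F (F.nx y) ↔ p.o (F.nx y) = y := by
  rw [Lt_iff hF (nx_la hF hy), pv_nx hF hy]

namespace RP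

theorem lt (hF : Lay F X Pr) (h : RP F E p.c p.o p.dn) {v : Vx J} (hv : v ∈ F.LA)
    (k : v ∉ AS F E.Src E.Snk) : p.Lt F v := (Lt_iff hF hv).2 (h.oL v hv k)

theorem R_iff (hF : Lay F X Pr) (h : RP F E p.c p.o p.dn) {v : Vx J} (hv : v ∈ F.LA) :
    p.R F v ↔ v ∈ AS F E.Src E.Snk :=
  ⟨fun k => by_contra fun m => not_R_Lt hF hv k (h.lt hF hv m), h.oR v hv⟩

theorem Lt_iff' (hF : Lay F X Pr) (h : RP F E p.c p.o p.dn) {v : Vx J} (hv : v ∈ F.LA) :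
    p.Lt F v ↔ v ∉ AS F E.Src E.Snk :=
  ⟨fun k m => not_R_Lt hF hv (h.oR v hv m) k, h.lt hF hv⟩

theorem otr (hF : Lay F X Pr) (hE : EOk F E) {c : J → Col} {o : Vx J → Vx J} {dn : Set J}
    (h : RP F E c o dn) (a : ℤ × ℤ) {v : Vx J} (hv : v ∈ F.LA) : o (tr a v) = tr a (o v) := by
  have hv' := (hF.la_tr a v).2 hv
  by_cases k : v ∈ AS F E.Src E.Snk
  · rw [h.oR v hv k, h.oR _ hv' ((as_tr hF hE a hv).2 k), hF.nx_tr a hv]
  · rw [h.oL v hv k, h.oL _ hv' fun m => k ((as_tr hF hE a hv).1 m), pv_tr hF a hv]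

/-- both ends of a sink point into it -/
theorem snk (hF : Lay F X Pr) (hE : EOk F E) (h : RP F E p.c p.o p.dn) {y : Vx J}
    (hy : y ∈ F.LA) (k : y ∈ E.Snk) : p.R F y ∧ p.Lt F (F.nx y) :=
  ⟨h.oR y hy (as_snk hF hy k), h.lt hF (nx_la hF hy) (as_snk' hF hE hy k)⟩

/-- an end of every edge that is not a source points into it -/
theorem pt (hF : Lay F X Pr) (h : RP F E p.c p.o p.dn) {y : Vx J} (hy : y ∈ F.LA)
    (k : y ∉ E.Src) : p.R F y ∨ p.Lt F (F.nx y) := by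
  by_cases m : F.nx y ∈ AS F E.Src E.Snk
  exacts [Or.inl (h.oR y hy (as_pv hF hy k m)), Or.inr (h.lt hF (nx_la hF hy) m)]

theorem mono_snk (hE : EOk F E) {c : J → Col} {o : Vx J → Vx J} {dn : Set J} (h : RP F E c o dn)
    {y : Vx J} (hy : y ∈ F.LA) (k : c (F.nx y).1 = c y.1) : y ∈ E.Snk := by
  by_cases m : y ∈ E.Mo
  exacts [hE.mo m, hE.fm ((h.col y hy m).1 k)]

theorem mono (hF : Lay F X Pr) (hE : EOk F E) (h : RP F E p.c p.o p.dn) {y : Vx J}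
    (hy : y ∈ F.LA) (k : p.c (F.nx y).1 = p.c y.1) : p.o y = F.nx y ∧ p.o (F.nx y) = y := by
  have := h.snk hF hE hy (h.mono_snk hE hy k)
  exact ⟨this.1, (Lt_nx hF hy).1 this.2⟩

/-- an edge that is neither pinned nor a source is paid above -/
theorem up (hF : Lay F X Pr) (hE : EOk F E) (h : RP F E p.c p.o p.dn) {y : Vx J} (hy : y ∈ F.LA)
    (k1 : y ∉ E.Src) (k2 : y ∉ E.Pin) :
    (p.R F y ∧ y.1 ∉ p.dn) ∨ (p.Lt F (F.nx y) ∧ (F.nx y).1 ∉ p.dn) := by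
  by_cases s : y ∈ E.Snk
  · have := h.snk hF hE hy s
    by_cases d : y ∈ E.Dl
    · exact Or.inr ⟨this.2, fun m => ((h.dL y hy (as_snk' hF hE hy s)).1 m).elim k2 fun g => g.2 d⟩
    · exact Or.inl ⟨this.1, fun m => ((h.dR y hy (as_snk hF hy s)).1 m).elim k2 fun g => d g.2⟩
  · by_cases m : F.nx y ∈ AS F E.Src E.Snk
    · have a := as_pv hF hy k1 m
      exact Or.inl ⟨h.oR y hy a, fun g => ((h.dR y hy a).1 g).elim k2 fun g => s g.1⟩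
    · exact Or.inr ⟨h.lt hF (nx_la hF hy) m, fun g => ((h.dL y hy m).1 g).elim k2 fun g => s g.1⟩

/-- a pinned edge that is not a source is paid below -/
theorem down (hF : Lay F X Pr) (h : RP F E p.c p.o p.dn) {y : Vx J} (hy : y ∈ F.LA)
    (k1 : y ∉ E.Src) (k2 : y ∈ E.Pin) :
    (p.R F y ∧ y.1 ∈ p.dn) ∨ (p.Lt F (F.nx y) ∧ (F.nx y).1 ∈ p.dn) := by
  by_cases m : F.nx y ∈ AS F E.Src E.Snk
  · have a := as_pv hF hy k1 m
    exact Or.inl ⟨h.oR y hy a, (h.dR y hy a).2 (Or.inl k2)⟩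
  · exact Or.inr ⟨h.lt hF (nx_la hF hy) m, (h.dL y hy m).2 (Or.inl k2)⟩

/-- the tokens of a sink that are used below -/
theorem snk_dn (hF : Lay F X Pr) (hE : EOk F E) (h : RP F E p.c p.o p.dn) {y : Vx J}
    (hy : y ∈ F.LA) (k : y ∈ E.Snk) :
    (y.1 ∈ p.dn ↔ y ∈ E.Pin ∨ y ∈ E.Dl) ∧ ((F.nx y).1 ∈ p.dn ↔ y ∈ E.Pin ∨ y ∉ E.Dl) :=
  ⟨(h.dR y hy (as_snk hF hy k)).trans (or_congr_right (and_iff_right k)),
    (h.dL y hy (as_snk' hF hE hy k)).trans (or_congr_right (and_iff_right k))⟩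

/-- a sink is paid below -/
theorem snk_down (hF : Lay F X Pr) (hE : EOk F E) (h : RP F E p.c p.o p.dn) {y : Vx J}
    (hy : y ∈ F.LA) (k : y ∈ E.Snk) :
    (p.R F y ∧ y.1 ∈ p.dn) ∨ (p.Lt F (F.nx y) ∧ (F.nx y).1 ∈ p.dn) := by
  have a := h.snk hF hE hy k
  have b := h.snk_dn hF hE hy k
  by_cases d : y ∈ E.Dl
  exacts [Or.inl ⟨a.1, b.1.2 (Or.inr d)⟩, Or.inr ⟨a.2, b.2.2 (Or.inr d)⟩]

end RP

/-! ### Chains of tokens under a cap -/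

theorem chainR (hF : Lay F X Pr) {j : ℤ} {y z : Vx J} (hy : y ∈ F.L j) (hz : z ∈ F.L j)
    (l : F.ρ y ≤ F.ρ z) (h0 : p.Lt F y)
    (h : ∀ t ∈ F.L j, F.ρ y ≤ F.ρ t → F.ρ t < F.ρ z → p.R F t ∨ p.Lt F (F.nx t)) : p.Lt F z := by
  obtain ⟨k, -, e⟩ := sh_of_le hF hy hz l
  induction k generalizing z with
  | zero => rwa [hF.inj hz hy (by omega)]
  | succ k ih =>
    obtain ⟨m1, m2, m3⟩ := pv_mem hF hz
    push_cast at e
    have := ih m1 (by omega) (fun t ht a b => h t ht a (by omega)) (by omega)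
    rw [← m3]
    exact (h _ m1 (by omega) (by omega)).resolve_left fun g => not_R_Lt hF (hF.la m1) g this

theorem chainL (hF : Lay F X Pr) {j : ℤ} {y z : Vx J} (hy : y ∈ F.L j) (hz : z ∈ F.L j)
    (l : F.ρ y ≤ F.ρ z) (h0 : p.R F z)
    (h : ∀ t ∈ F.L j, F.ρ y ≤ F.ρ t → F.ρ t < F.ρ z → p.R F t ∨ p.Lt F (F.nx t)) : p.R F y := by
  rcases eq_or_lt_of_le l with e | e
  · rwa [hF.inj hy hz e]
  · obtain ⟨n1, n2, -⟩ := hF.nx_mem hy
    exact (h y hy le_rfl e).resolve_right fun g => not_R_Lt hF (hF.la hz) h0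
      (chainR hF n1 hz (by omega) g fun t ht a b => h t ht (by omega) b)

/-- Every edge covered by `u` has an end that points into it. -/
def Full (F : FD J) (p : PD J) (u : Un J) : Prop := ∀ y, F.Cov u y → p.R F y ∨ p.Lt F (F.nx y)

variable {u : Un J}

theorem Full.lt (hF : Lay F X Pr) (hu : Val F ∅ u) (h : Full F p u) {y : Vx J} (c : F.Cov u y)
    (k : p.Lt F (F.nx y)) : p.Lt F u.s' := by
  obtain ⟨n1, n2, -⟩ := hF.nx_mem c.1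
  have := c.2.1
  have := c.2.2
  exact chainR hF n1 hu.hs' (by omega) k fun t ht a b => h t ⟨ht, by omega, b⟩

theorem Full.r (hF : Lay F X Pr) (hu : Val F ∅ u) (h : Full F p u) {y : Vx J} (c : F.Cov u y)
    (k : p.R F y) : p.R F u.s :=
  chainL hF hu.hs c.1 c.2.1 k fun t ht a b => h t ⟨ht, a, lt_trans b c.2.2⟩

theorem Full.one (hF : Lay F X Pr) (hu : Val F ∅ u) (h : Full F p u) :
    p.R F u.s ∨ p.Lt F u.s' := (h _ (cov_self hu)).imp_right (h.lt hF hu (cov_self hu))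

theorem Full.two (hF : Lay F X Pr) (hu : Val F ∅ u) (h : Full F p u) {y : Vx J} (c : F.Cov u y)
    (k : p.R F y ∧ p.Lt F (F.nx y)) : p.R F u.s ∧ p.Lt F u.s' :=
  ⟨h.r hF hu c k.1, h.lt hF hu c k.2⟩

theorem Full.uni (hF : Lay F X Pr) (h : Full F p u) {y z : Vx J} (c : F.Cov u y) (c' : F.Cov u z)
    (k : p.R F y ∧ p.Lt F (F.nx y)) (k' : p.R F z ∧ p.Lt F (F.nx z)) : y = z := by
  have key : ∀ {y z : Vx J}, F.Cov u y → F.Cov u z → p.Lt F (F.nx y) → p.R F z →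
      ¬ F.ρ y < F.ρ z := by
    intro y z c c' k k' l
    obtain ⟨n1, n2, -⟩ := hF.nx_mem c.1
    have := c.2.1
    exact not_R_Lt hF (hF.la c'.1) k' (chainR hF n1 c'.1 (by omega) k
      fun t ht a b => h t ⟨ht, by omega, lt_trans b c'.2.2⟩)
  have := key c c' k.2 k'.1
  have := key c' c k'.2 k.1
  exact hF.inj c.1 c'.1 (by omega)

/-! ### The colour of an apex -/

open Classical in
/-- The colour of the apex of a cap. -/
noncomputable def cxOf (F : FD J) (c : J → Col) (o : Vx J → Vx J) (u : Un J) : Col :=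
  if c u.s.1 = c u.s'.1 then ((c u.s.1).1, !(c u.s.1).2)
  else if o u.s = F.nx u.s then c u.s.1 else c u.s'.1

theorem flip_ne (k : Col) : ((k.1, !k.2) : Col) ≠ k := fun g => by
  simpa using congrArg Prod.snd g

/-- the three cases for the colour of the apex -/
theorem cx_cases (hx : p.cx u = cxOf F p.c p.o u) :
    (p.c u.s.1 = p.c u.s'.1 ∧ p.cx u ≠ p.c u.s.1 ∧ (p.cx u).1 = (p.c u.s.1).1) ∨
      (p.c u.s.1 ≠ p.c u.s'.1 ∧ p.R F u.s ∧ p.cx u = p.c u.s.1) ∨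
      (p.c u.s.1 ≠ p.c u.s'.1 ∧ ¬ p.R F u.s ∧ p.cx u = p.c u.s'.1) := by
  unfold cxOf at hx
  by_cases e : p.c u.s.1 = p.c u.s'.1
  · rw [if_pos e] at hx
    exact Or.inl ⟨e, hx ▸ flip_ne _, by rw [hx]⟩
  · rw [if_neg e] at hx
    by_cases r : p.o u.s = F.nx u.s
    · exact Or.inr (Or.inl ⟨e, r, by rwa [if_pos r] at hx⟩)
    · exact Or.inr (Or.inr ⟨e, r, by rwa [if_neg r] at hx⟩)

/-- A plan whose apex colours are given by `cxOf`. -/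
theorem plan_of (hF : Lay F X Pr) {Ok : Un J → Prop} (hx : p.cx = cxOf F p.c p.o)
    (hc : p.cls = fun j => decide (Even j))
    (cl : ∀ v ∈ F.LA, (p.c v.1).1 = decide (Even (F.f v)))
    (otr : ∀ a, ∀ v ∈ F.LA ∪ X.K, p.o (tr a v) = tr a (p.o v))
    (ktr : ∀ a, ∀ v ∈ F.LA ∪ X.K, p.kc (tr a v) = tr a (p.kc v))
    (kmono : ∀ k ∈ X.K, ∀ y ∈ F.LA ∪ X.K, F.Γ.Adj k y → p.c y.1 = p.c k.1 →
      p.o k = y ∧ p.o y = k)
    (mono : ∀ y ∈ F.LA, p.c (F.nx y).1 = p.c y.1 → p.o y = F.nx y ∧ p.o (F.nx y) = y)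
    (ok : ∀ u, Val F ∅ u → Ok u → u.x ≠ u.s →
      p.c u.s.1 = p.c u.s'.1 ∨ p.R F u.s ∨ p.Lt F u.s') : Plan F X p Ok := by
  refine ⟨fun j => ?_, fun v hv => by rw [hc]; exact cl v hv, otr, ktr, kmono, mono,
    fun a u hu => ?_, fun u hu _ _ => ?_, fun u _ _ _ e => ?_, fun u hu k n e => ?_⟩
  · rw [hc]
    simp only [ne_eq, decide_eq_decide, Int.even_add_one]
    tauto
  · rw [hx]
    unfold cxOf
    have e : p.o (tr a u.s) = F.nx (tr a u.s) ↔ p.o u.s = F.nx u.s := by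
      rw [otr a _ (Or.inl hu.hs), hF.nx_tr a hu.hs, (tr_inj a).eq_iff]
    by_cases g : p.c u.s.1 = p.c u.s'.1
    · exact (if_pos g).trans (if_pos g).symm
    · refine (if_neg g).trans (Eq.trans ?_ (if_neg g).symm)
      by_cases r : p.o u.s = F.nx u.s
      · exact (if_pos (e.2 r)).trans (if_pos r).symm
      · exact (if_neg (fun h => r (e.1 h))).trans (if_neg r).symm
  · have e1 := cl _ (hF.la hu.hs)
    have e2 := cl _ (hF.la hu.hs')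
    rw [hF.lf _ _ hu.hs'] at e2
    rw [hc]
    rcases cx_cases (F := F) (congrFun hx u) with g | g | g
    exacts [g.2.2.trans e1, g.2.2 ▸ e1, g.2.2 ▸ e2]
  · rcases cx_cases (F := F) (congrFun hx u) with g | g | g
    exacts [absurd e g.2.1, ⟨g.2.1, e ▸ g.1⟩, absurd (e.symm.trans g.2.2) g.1]
  · rcases cx_cases (F := F) (congrFun hx u) with g | g | g
    · exact absurd (e.trans g.1.symm) g.2.1
    · exact absurd (g.2.2.symm.trans e) g.1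
    · exact ((ok u hu k n).resolve_left g.1).resolve_left g.2.1

end Pool.Agent.P.MP_08fd93_co.FK
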