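import Pool.Agent.P.MP_08fd93_co.FA.B2

/-! Systems of flows row by row for an arbitrary condition on the top edges. -/

set_option autoImplicit false

namespace Pool.Agent.P.MP_08fd93_co.FK

open OV FN FA FL FZ PkPrtP

variable {J : Type} {F : FD J} {X : XD J} {Pr : Set (Vx J)} {φ : Vx J → Vx J}
  {e g s p t x l : Vx J} {b : ℤ × ℤ} {E A B : EJ J} {j : ℤ} {S Y K : Set J}
  {T : EJ J → Vx J → Prop}

/-- The pins `S` of the row `j` fit the plan `B` of the next row outside the orbits `Y`. -/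
def Lk (F : FD J) (T : EJ J → Vx J → Prop) (j : ℤ) (S : Set J) (B : EJ J) (Y : Set J) : Prop :=
  ∀ E, Pin F E j S → Agr F E (j + 1) B → ∀ e ∈ F.L (j + 1), e.1 ∉ Y → T E e

theorem Lk.mono {S' Y' : Set J} (k : Lk F T j S B Y) (h1 : S' ⊆ S) (h2 : Y ⊆ Y') :
    Lk F T j S' B Y' := fun E a c e he n =>
  k E (fun x hx m => h1 (a x hx m)) c e he fun m => n (h2 m)

theorem Lk.imp {T' : EJ J → Vx J → Prop} (k : Lk F T j S B Y)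
    (h : ∀ E, ∀ e ∈ F.L (j + 1), e.1 ∉ Y → T E e → T' E e) : Lk F T' j S B Y :=
  fun E a c e he n => h E e he n (k E a c e he n)

/-- The orbits of the row `j`. -/
def RowO (F : FD J) (j : ℤ) : Set J := {i | ∃ x ∈ F.L j, x.1 = i}

theorem lk_row : Lk F T j S B (RowO F (j + 1)) := fun _ _ _ e he n => absurd ⟨e, he, rfl⟩ n

/-- The condition `T` does not depend on the member of an orbit. -/
def OInv (F : FD J) (T : EJ J → Vx J → Prop) : Prop :=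
  ∀ E, ∀ e ∈ F.LA, ∀ a, T E e → T E (tr a e)

/-- All rows of `E` are admissible and `T` holds outside the orbits `Y`. -/
structure Sy (F : FD J) (T : EJ J → Vx J → Prop) (E : EJ J) (Y : Set J) : Prop where
  dis : ∀ i ∈ E.Sr, i ∉ E.Sk ∧ i ∉ E.Ps
  rw : ∀ j, Rw F j E
  top : ∀ e ∈ F.LA, e.1 ∉ Y → T E e

/-- The pins under `e`. -/
def Pu (F : FD J) (φ : Vx J → Vx J) (E : EJ J) (e : Vx J) : Set (Vx J) :=
  {g | g ∈ F.LA ∧ g.1 ∈ E.Pn ∧ φ g = e}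

/-- Ordinary arrivals at `e`; pins in the orbits `K` are free under a pin. -/
def Ar (F : FD J) (φ : Vx J → Vx J) (K : Set J) (E : EJ J) (e : Vx J) : Prop :=
  Pu F φ E e ⊆ ∅ ∨
    (∃ g, Pu F φ E e ⊆ {g} ∧ (e.1 ∈ E.Sk ∨ e.1 ∈ E.Ps ∨ (e.1 ∈ E.Pn ∧ g.1 ∈ K))) ∨
    ∃ g g', Pu F φ E e ⊆ {g, g'} ∧ e.1 ∈ E.Sk ∧ e.1 ∈ E.Ps

section

variable (hF : Lay F X Pr) (hφ : PH F Pr φ)
include hF hφ

theorem pu_tr (a : ℤ × ℤ) : Pu F φ E (tr a e) ⊆ tr a '' Pu F φ E e := by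
  rintro g ⟨g1, g2, g3⟩
  obtain ⟨g, rfl⟩ := tr_surj a g
  have m := (hF.la_tr a g).1 g1
  exact ⟨g, ⟨m, g2, tr_inj a ((hφ.eqv a g m).symm.trans g3)⟩, rfl⟩

theorem ar_inv : OInv F (Ar F φ K) := by
  intro E e _ a k
  have m := pu_tr (E := E) (e := e) hF hφ a
  rcases k with k | ⟨g, k, c⟩ | ⟨g, g', k, c⟩
  · exact Or.inl (m.trans (by simpa using Set.image_mono (f := tr a) k))
  · exact Or.inr (Or.inl ⟨tr a g, m.trans (Set.image_singleton ▸ Set.image_mono k), c⟩)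
  · exact Or.inr (Or.inr ⟨_, _, m.trans (Set.image_pair _ g g' ▸ Set.image_mono k), c⟩)

/-- the pins under an edge of the row `j + 1` -/
theorem pu_row (k : Pin F E j S) (he : e ∈ F.L (j + 1)) (m : g ∈ Pu F φ E e) :
    g ∈ F.L j ∧ g.1 ∈ S ∧ φ g = e := by
  have a := hφ.lev hF m.1
  rw [m.2.2, hF.lf _ _ he] at a
  have c : g ∈ F.L j := (add_right_cancel a).symm ▸ m.1
  exact ⟨c, k g c m.2.1, m.2.2⟩

/-- at most one pin of an orbit lies under an edge -/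
theorem pu_one (k : Pin F E j {s.1}) (he : e ∈ F.L (j + 1)) :
    Pu F φ E e ⊆ ∅ ∨ ∃ g ∈ F.L j, g.1 = s.1 ∧ φ g = e ∧ Pu F φ E e ⊆ {g} := by
  by_cases c : ∃ g, g ∈ Pu F φ E e
  · obtain ⟨g, m⟩ := c
    obtain ⟨a1, a2, a3⟩ := pu_row hF hφ k he m
    refine Or.inr ⟨g, a1, a2, a3, fun y o => ?_⟩
    obtain ⟨c1, c2, c3⟩ := pu_row hF hφ k he o
    exact hφ.inj1 (hF.la c1) (c2.trans a2.symm) (c3.trans a3.symm)
  · exact Or.inl fun g m => c ⟨g, m⟩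

/-- ordinary arrivals -/
theorem lk_of
    (arr : ∀ g ∈ F.L j, g.1 ∈ S → (φ g).1 ∉ Y → (φ g).1 ∈ B.Sk ∨ (φ g).1 ∈ B.Ps ∨
      ((φ g).1 ∈ B.Pn ∧ g.1 ∈ K))
    (mer : ∀ g ∈ F.L j, ∀ g' ∈ F.L j, g.1 ∈ S → g'.1 ∈ S → g.1 ≠ g'.1 → φ g = φ g' →
      (φ g).1 ∉ Y → (φ g).1 ∈ B.Sk ∧ (φ g).1 ∈ B.Ps)
    (two : ∀ g ∈ F.L j, ∀ g' ∈ F.L j, ∀ y ∈ F.L j, g.1 ∈ S → g'.1 ∈ S → y.1 ∈ S → φ g = φ g' →
      φ g = φ y → (φ g).1 ∉ Y → g.1 = g'.1 ∨ y.1 = g.1 ∨ y.1 = g'.1) :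
    Lk F (Ar F φ K) j S B Y := by
  intro E k c e he n
  have uni : ∀ g ∈ F.L j, ∀ y, φ g = e → φ y = e → y.1 = g.1 → y = g := fun g hg y a a' q =>
    (hφ.inj1 (hF.la hg) q.symm (a.trans a'.symm)).symm
  by_cases c0 : ∃ g ∈ F.L j, g.1 ∈ S ∧ φ g = e
  swap
  · exact Or.inl fun g m => c0 ⟨g, pu_row hF hφ k he m⟩
  obtain ⟨g, g1, g2, rfl⟩ := c0
  by_cases c1 : ∃ g' ∈ F.L j, g'.1 ∈ S ∧ φ g' = φ g ∧ g'.1 ≠ g.1
  · obtain ⟨g', k1, k2, k3, k4⟩ := c1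
    have := mer g g1 g' k1 g2 k2 k4.symm k3.symm n
    refine Or.inr (Or.inr ⟨g, g', fun y m => ?_, (c _ he).2.1.2 this.1, (c _ he).2.2.2 this.2⟩)
    obtain ⟨y1, y2, y3⟩ := pu_row hF hφ k he m
    exact ((two g g1 g' k1 y y1 g2 k2 y2 k3.symm y3.symm n).resolve_left k4.symm).imp
      (uni g g1 y rfl y3) (uni g' k1 y k3 y3)
  · refine Or.inr (Or.inl ⟨g, fun y m => ?_, (arr g g1 g2 n).imp (c _ he).2.1.2
      (Or.imp (c _ he).2.2.2 (And.imp_left (c.pn he).2))⟩)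
    obtain ⟨y1, y2, y3⟩ := pu_row hF hφ k he m
    exact uni g g1 y rfl y3 (not_not.1 fun q => c1 ⟨y, y1, y2, y3, q⟩)

/-- two pins -/
theorem lk2 (hs : s ∈ F.LA) (hp : p ∈ F.LA)
    (a1 : (φ s).1 ∈ Y ∨ (φ s).1 ∈ B.Sk ∨ (φ s).1 ∈ B.Ps ∨ ((φ s).1 ∈ B.Pn ∧ s.1 ∈ K))
    (a2 : (φ p).1 ∈ Y ∨ (φ p).1 ∈ B.Sk ∨ (φ p).1 ∈ B.Ps ∨ ((φ p).1 ∈ B.Pn ∧ p.1 ∈ K))
    (a3 : (φ s).1 = (φ p).1 → s.1 = p.1 ∨ (φ s).1 ∈ Y ∨ ((φ s).1 ∈ B.Sk ∧ (φ s).1 ∈ B.Ps)) :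
    Lk F (Ar F φ K) j {s.1, p.1} B Y := by
  have f1 : ∀ g : Vx J, g.1 = s.1 → (φ g).1 = (φ s).1 := fun g q => (hφ.fst hs q.symm).symm
  have f2 : ∀ g : Vx J, g.1 = p.1 → (φ g).1 = (φ p).1 := fun g q => (hφ.fst hp q.symm).symm
  refine lk_of hF hφ (fun g _ m n => ?_) (fun g _ g' _ m m' ne q n => ?_)
    fun g _ g' _ y _ m m' m'' _ _ _ => ?_
  · rcases m with m | m
    · rw [f1 g m] at n ⊢
      exact m ▸ a1.resolve_left n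
    · rw [f2 g m] at n ⊢
      exact m ▸ a2.resolve_left n
  · have key : (φ s).1 = (φ p).1 ∧ s.1 ≠ p.1 ∧ (φ g).1 = (φ s).1 := by
      rcases m with m | m <;> rcases m' with m' | m'
      · exact absurd (m.trans m'.symm) ne
      · exact ⟨by rw [← f1 g m, q, f2 g' m'], fun o => ne (m.trans (o.trans m'.symm)), f1 g m⟩
      · exact ⟨by rw [← f1 g' m', ← q, f2 g m], fun o => ne (m.trans (o.symm.trans m'.symm)),
          by rw [q, f1 g' m']⟩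
      · exact absurd (m.trans m'.symm) ne
    rw [key.2.2] at n ⊢
    exact ((a3 key.1).resolve_left key.2.1).resolve_left n
  · simp only [Set.mem_insert_iff, Set.mem_singleton_iff] at m m' m''
    rcases m with m | m <;> rcases m' with m' | m' <;> rcases m'' with m'' | m'' <;>
      simp [m, m', m'']

/-- one pin -/
theorem lk1 (hs : s ∈ F.LA)
    (a1 : (φ s).1 ∈ Y ∨ (φ s).1 ∈ B.Sk ∨ (φ s).1 ∈ B.Ps ∨ ((φ s).1 ∈ B.Pn ∧ s.1 ∈ K)) :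
    Lk F (Ar F φ K) j {s.1} B Y :=
  (lk2 hF hφ hs hs a1 a1 fun _ => Or.inl rfl).mono (fun _ m => Or.inl m) subset_rfl

/-- the link to a row with two flows -/
theorem lk_pair {s' p' : Vx J} (hs : s ∈ F.LA) (hp : p ∈ F.LA)
    (k : (p'.1 = (φ s).1 ∧ t.1 = (φ p).1) ∨ (p'.1 = (φ p).1 ∧ t.1 = (φ s).1)) :
    Lk F (Ar F φ K) j {s.1, p.1} (r2 s' p' t) Y := by
  rcases k with k | k
  exacts [lk2 hF hφ hs hp (Or.inr (Or.inr (Or.inl k.1.symm))) (Or.inr (Or.inl k.2.symm)) fun o =>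
      Or.inr (Or.inr ⟨o.trans k.2.symm, k.1.symm⟩),
    lk2 hF hφ hs hp (Or.inr (Or.inl k.2.symm)) (Or.inr (Or.inr (Or.inl k.1.symm))) fun o =>
      Or.inr (Or.inr ⟨k.2.symm, o.trans k.1.symm⟩)]

end

/-- The rows up to `k0` complete the system whose last row `m` has the pins `S`. -/
def FinG (F : FD J) (T : EJ J → Vx J → Prop) (k0 m : ℕ) (S0 S : Set J) : Prop :=
  ∀ (A : ℕ → EJ J) (Y : Set J), (∀ k ≤ k0, Rw F k (A k)) → (A k0).Pn ⊆ S0 →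
    (∀ k < k0, Lk F T k (A k).Pn (A (k + 1)) Y) → Lk F T m S (A 0) Y →
    ∃ E, (∀ k ≤ k0, Agr F E k (A k)) ∧ Pin F E m S ∧
      (k0 < m → ∀ x ∈ F.L m, x.1 ∈ S → x.1 ∈ E.Pn) ∧ Sy F T E Y

section

variable (H : LB F X Pr φ b)
include H

/-- A system from the plans of the rows of one period. -/
theorem sy_rows (hT : OInv F T) {m : ℕ} (hm : F.η b = m + 1) (R : ℕ → EJ J)
    (rw : ∀ k ≤ m, Rw F k (R k)) (lk : ∀ k < m, Lk F T k (R k).Pn (R (k + 1)) Y)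
    (lm : Lk F T m (R m).Pn (R 0) Y) : ∃ E, (∀ k ≤ m, Agr F E k (R k)) ∧ Sy F T E Y := by
  have hF := H.lay
  let U : (EJ J → Set J) → Set J := fun π => {i | ∃ k ≤ m, (∃ x ∈ F.L k, x.1 = i) ∧ i ∈ π (R k)}
  have hU : ∀ π, ∀ k ≤ m, ∀ x ∈ F.L k, x.1 ∈ U π ↔ x.1 ∈ π (R k) := fun π k hk x hx => by
    refine ⟨?_, fun c => ⟨k, hk, ⟨x, hx, rfl⟩, c⟩⟩
    rintro ⟨k', hk', ⟨y, hy, q⟩, c⟩
    rwa [H.lv_eq (H.lv_l hx) (H.lv_l hy) q.symm (by omega) (by omega)]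
  let E : EJ J := ⟨U EJ.Sr, U EJ.Sk, U EJ.Ps, ∅⟩
  have ag : ∀ k ≤ m, Agr F E k (R k) := fun k hk x hx =>
    ⟨hU _ k hk x hx, hU _ k hk x hx, hU _ k hk x hx⟩
  have lev : ∀ j, ∃ k ≤ m, ∃ a, j = (k : ℕ) + F.η a := fun j => by
    obtain ⟨k, l, c, d⟩ := H.lv_of j
    exact ⟨k, by omega, c • b, by rw [map_zsmul, smul_eq_mul]; linear_combination d⟩
  have dis : ∀ i ∈ E.Sr, i ∉ E.Sk ∧ i ∉ E.Ps := by
    rintro _ ⟨k, hk, ⟨x, hx, rfl⟩, c⟩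
    have := (rw k hk).dis _ c
    exact ⟨fun o => this.1 ((ag k hk x hx).2.1.1 o), fun o => this.2 ((ag k hk x hx).2.2.1 o)⟩
  refine ⟨E, ag, dis, fun j => ?_, fun e he y => ?_⟩
  · obtain ⟨k, hk, a, rfl⟩ := lev j
    have c := (ag k hk).mv hF a
    refine ⟨dis, ((rw k hk).mv hF a).ne.imp_left fun ⟨y, y1, y2⟩ => ⟨y, y1, (c y y1).2.1.2 y2⟩,
      fun s hs s' hs' a1 a2 lt => ?_⟩
    obtain ⟨g, g1, g2, g3⟩ := ((rw k hk).mv hF a).alt s hs s' hs' ((c s hs).2.1.1 a1)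
      ((c s' hs').2.1.1 a2) lt
    exact ⟨g, g1, (c g g1).1.2 g2, g3⟩
  · obtain ⟨k, hk, a, q⟩ := lev (F.f e - 1)
    have m1 : tr (-a) e ∈ F.L (k + 1) := (hF.ltr a _ _).1 (by
      rw [tr_neg', add_right_comm, ← q, sub_add_cancel]
      exact he)
    refine tr_neg' a e ▸ hT E _ (hF.la m1) a ?_
    rcases eq_or_lt_of_le hk with rfl | c
    · refine lm E (ag k hk).pin ?_ _ m1 y
      have := (ag 0 (Nat.zero_le _)).mv hF b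
      rwa [hm, Nat.cast_zero, zero_add] at this
    · exact lk k c E (ag k hk).pin (by exact_mod_cast ag (k + 1) c) _ m1 y

/-- The rows above `k0` are built first from the pins `S0` of the row `k0`; the rows up to `k0`
are chosen afterwards. -/
theorem sy_flows (hT : OInv F T) {k0 m : ℕ} (hm : F.η b = m + 1) (hk : k0 ≤ m)
    {I : ℕ → Set J → Prop} {S0 : Set J} (i0 : I k0 S0) (st : ∀ k, k0 ≤ k → k < m → ∀ S, I k S →
      ∃ B, Rw F (k + 1 : ℕ) B ∧ Lk F T k S B ∅ ∧ I (k + 1) B.Pn) :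
    ∃ S, I m S ∧ FinG F T k0 m S0 S := by
  obtain ⟨g, e0, hg⟩ := seq_ex (α := ℕ × EJ J)
    (fun n x => x.1 = k0 + n ∧ (x.1 ≤ m → I x.1 x.2.Pn ∧ (0 < n → Rw F x.1 x.2)))
    (fun x y => x.1 < m → Lk F T x.1 x.2.Pn y.2 ∅) (k0, ⟨S0, ∅, ∅, ∅⟩)
    ⟨rfl, fun _ => ⟨by simpa [EJ.Pn] using i0, fun c => absurd c (lt_irrefl 0)⟩⟩ fun n x hx => by
      by_cases c : x.1 < m
      · obtain ⟨B, b1, b2, b3⟩ := st x.1 (by omega) c _ (hx.2 c.le).1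
        exact ⟨(x.1 + 1, B), ⟨by simp only; omega, fun _ => ⟨b3, fun _ => b1⟩⟩, fun _ => b2⟩
      · exact ⟨(x.1 + 1, x.2), ⟨by simp only; omega, fun o => by simp only at o; omega⟩,
          fun o => absurd o c⟩
  have ix : ∀ k, k0 ≤ k → (g (k - k0)).1 = k := fun k c => by rw [(hg _).1.1]; omega
  have s0 : (g 0).2.Pn = S0 := by simp [e0, EJ.Pn]
  have im := ((hg _).1.2 (ix m hk).le).1
  rw [ix m hk] at im
  refine ⟨_, im, fun A Y rw sub lk lm => ?_⟩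
  let R : ℕ → EJ J := fun k => if k ≤ k0 then A k else (g (k - k0)).2
  have r1 : ∀ k ≤ k0, R k = A k := fun k c => if_pos c
  have r2 : ∀ k, k0 < k → R k = (g (k - k0)).2 := fun k c => if_neg (not_le.2 c)
  have r3 : ∀ k, k0 ≤ k → (R k).Pn ⊆ (g (k - k0)).2.Pn := fun k c => by
    rcases eq_or_lt_of_le c with rfl | c
    · rwa [r1 _ le_rfl, Nat.sub_self, s0]
    · rw [r2 k c]
  obtain ⟨E, a1, a2⟩ := sy_rows (Y := Y) H hT hm R (fun k c => by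
      rcases le_or_gt k k0 with o | o
      · exact r1 k o ▸ rw k o
      · have := ((hg (k - k0)).1.2 (by rw [ix k o.le]; exact c)).2 (by omega)
        rwa [ix k o.le, ← r2 k o] at this)
    (fun k c => by
      rcases lt_or_ge k k0 with o | o
      · rw [r1 k o.le, r1 _ o]
        exact lk k o
      · have := (hg (k - k0)).2 (by rw [ix k o]; exact c)
        rw [ix k o, show k - k0 + 1 = k + 1 - k0 by omega, ← r2 (k + 1) (by omega)] at this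
        exact this.mono (r3 k o) (Set.empty_subset _))
    (r1 0 (Nat.zero_le _) ▸ lm.mono (r3 m hk) subset_rfl)
  exact ⟨E, fun k c => r1 k c ▸ a1 k (c.trans hk), fun x hx c => r3 m hk ((a1 m le_rfl).pin x hx c),
    fun c x hx o => ((a1 m le_rfl).pn hx).2 (r2 m c ▸ o), a2⟩

/-- One flow from the source `s0` of the row `k0` with an invariant `C`. -/
theorem sy_flow1 {k0 m : ℕ} (hm : F.η b = m + 1) (hk : k0 ≤ m) {C : ℕ → Vx J → Prop} {s0 : Vx J}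
    (h0 : s0 ∈ F.L k0) (c0 : C k0 s0) (st : ∀ k, k0 ≤ k → k < m → ∀ s ∈ F.L k, C k s →
      ∃ s' ∈ F.L (k + 1 : ℕ), s'.1 ≠ (φ s).1 ∧ C (k + 1) s') :
    ∃ s ∈ F.L m, C m s ∧ FinG F (Ar F φ K) k0 m {s0.1} {s.1} := by
  obtain ⟨_, ⟨s, a1, a2, rfl⟩, a3⟩ := sy_flows H (ar_inv (K := K) H.lay H.ph) hm hk
    (I := fun k S => ∃ s ∈ F.L k, C k s ∧ S = {s.1}) ⟨s0, h0, c0, rfl⟩ (by
      rintro k k1 k2 _ ⟨s, s1, s2, rfl⟩
      obtain ⟨s', t1, t2, t3⟩ := st k k1 k2 s s1 s2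
      exact ⟨r1 s' (φ s), H.rw1 t1 ⟨_, H.up s1, rfl⟩ t2,
        lk1 H.lay H.ph (H.lay.la s1) (Or.inr (Or.inl rfl)), s', t1, t3, r1_pn _ _⟩)
  exact ⟨s, a1, a2, a3⟩

/-- Two flows from the pins `s0`, `p0` of the row `k0` with an invariant `C`. -/
theorem sy_flow2 {k0 m : ℕ} (hm : F.η b = m + 1) (hk : k0 ≤ m) {C : ℕ → Vx J → Vx J → Prop}
    {s0 p0 : Vx J} (h0 : s0 ∈ F.L k0) (h0' : p0 ∈ F.L k0) (c0 : C k0 s0 p0)
    (st : ∀ k, k0 ≤ k → k < m → ∀ s ∈ F.L k, ∀ p ∈ F.L k, C k s p →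
      ∃ p' t', ∃ s' ∈ F.L (k + 1 : ℕ), Pair (φ s) (φ p) s' p' t' ∧ C (k + 1) s' p') :
    ∃ s ∈ F.L m, ∃ p ∈ F.L m, C m s p ∧ FinG F (Ar F φ K) k0 m {s0.1, p0.1} {s.1, p.1} := by
  obtain ⟨_, ⟨s, a1, p, a2, a3, rfl⟩, a4⟩ := sy_flows H (ar_inv (K := K) H.lay H.ph) hm hk
    (I := fun k S => ∃ s ∈ F.L k, ∃ p ∈ F.L k, C k s p ∧ S = {s.1, p.1})
    ⟨s0, h0, p0, h0', c0, rfl⟩ (by
      rintro k k1 k2 _ ⟨s, s1, p, p1, s2, rfl⟩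
      obtain ⟨p', t', s', t1, t2, t3⟩ := st k k1 k2 s s1 p p1 s2
      obtain ⟨m1, m2⟩ := t2.mem (F := F) (H.up s1) (H.up p1)
      exact ⟨r2 s' p' t', H.rw2 t1 ⟨_, m2, rfl⟩ t2.2.2 t2.2.1,
        lk_pair H.lay H.ph (H.lay.la s1) (H.lay.la p1) (t2.1.imp
          (fun o => ⟨by rw [o.1], by rw [o.2]⟩) fun o => ⟨by rw [o.1], by rw [o.2]⟩),
        s', t1, p', m1, t3, rfl⟩)
  exact ⟨s, a1, p, a2, a3, a4⟩

/-- Period two: any two admissible rows. -/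
theorem sy_two (hT : OInv F T) (hm : F.η b = 2) (r0 : Rw F 0 A) (r1 : Rw F 1 B)
    (l0 : Lk F T 0 A.Pn B Y) (l1 : Lk F T 1 B.Pn A Y) :
    ∃ E, Agr F E 0 A ∧ Agr F E 1 B ∧ Sy F T E Y := by
  obtain ⟨E, a, c⟩ := sy_rows (Y := Y) (m := 1) H hT hm (fun k => Nat.casesOn k A fun _ => B)
    (by rintro (_ | _ | k) c; exacts [r0, r1, by omega])
    (by rintro (_ | k) c; exacts [l0, by omega]) l1
  exact ⟨E, a 0 (Nat.zero_le _), a 1 le_rfl, c⟩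

/-- One flow from the only pin `l` of the row one to the row zero with the source `x`: the arrival
is off `x` or free. -/
theorem sy_one (hx : x ∈ F.L 0) (hl : l ∈ F.L 1) (r : Rw F 1 B) (pn : B.Pn ⊆ {l.1})
    (q2 : F.η b = 2 → (φ l).1 ≠ x.1 ∨ l.1 ∈ K)
    (q4 : F.η b ≠ 2 → ∃ y ∈ F.L (-1), ∃ y' ∈ F.L (-1), y.1 ≠ y'.1 ∧ ((φ y).1 ≠ x.1 ∨ y.1 ∈ K) ∧
      ((φ y').1 ≠ x.1 ∨ y'.1 ∈ K)) :
    ∃ E, ∃ t ∈ F.L 0, t.1 ≠ x.1 ∧ (F.η b = 2 → (φ l).1 ≠ x.1 → t.1 = (φ l).1) ∧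
      Agr F E 0 (r1 x t) ∧ Agr F E 1 B ∧ Sy F (Ar F φ K) E (RowO F 1) := by
  have b2 := H.b2
  have hF := H.lay
  obtain ⟨m, hm⟩ : ∃ m : ℕ, F.η b = m + 2 := ⟨(F.η b - 2).toNat, by omega⟩
  have hm' : F.η b = (m + 1 : ℕ) + 1 := by push_cast; omega
  obtain ⟨s, s1, ⟨s2, s3⟩, fin⟩ := sy_flow1 (K := K) H (k0 := 1) hm' (by omega)
    (C := fun k s => (k = 1 → s = l) ∧ (k = m + 1 → (φ s).1 ≠ x.1 ∨ s.1 ∈ K)) hl
    ⟨fun _ => rfl, fun c => q2 (by omega)⟩ fun k k1 _ s _ _ => by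
      by_cases c : k = m
      · obtain ⟨y, hy, y', hy', n, n1, n2⟩ := q4 (by omega)
        have a := H.last hm hy
        have a' := H.last hm hy'
        rw [← c] at a a'
        by_cases o : y.1 = (φ s).1
        · exact ⟨_, a', fun q => n (o.trans q.symm), fun q => by omega,
            fun _ => by rwa [H.ph.eqv _ _ (hF.la hy')]⟩
        · exact ⟨_, a, o, fun q => by omega, fun _ => by rwa [H.ph.eqv _ _ (hF.la hy)]⟩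
      · obtain ⟨z, h1, h2, -⟩ := H.off (k + 1 : ℕ) (φ s) (φ s)
        exact ⟨z, h1, h2, fun q => by omega, fun q => by omega⟩
  obtain ⟨t, t1, t2, t3⟩ : ∃ t ∈ F.L 0, t.1 ≠ x.1 ∧ ((φ s).1 ≠ x.1 → t.1 = (φ s).1) := by
    by_cases c : (φ s).1 = x.1
    · obtain ⟨z, h1, h2, -⟩ := H.off 0 x x
      exact ⟨z, h1, h2, fun n => absurd c n⟩
    · obtain ⟨y, y1, y2⟩ := H.wrap hm' (by exact_mod_cast H.up s1)
      exact ⟨y, y1, y2 ▸ c, fun _ => y2⟩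
  obtain ⟨E, a, -, -, c⟩ := fin (fun k => Nat.casesOn k (r1 x t) fun _ => B) (RowO F 1)
    (by rintro (_ | _ | k) c; exacts [H.rw1 hx ⟨t, t1, rfl⟩ t2.symm, r, by omega]) pn
    (by rintro (_ | k) c; exacts [lk_row, by omega])
    (lk1 hF H.ph (hF.la s1) (Or.inr (by
      by_cases c : (φ s).1 = x.1
      exacts [Or.inr (Or.inr ⟨Or.inl c, (s3 rfl).resolve_left (not_not.2 c)⟩),
        Or.inl (t3 c).symm])))
  refine ⟨E, t, t1, t2, fun q n => ?_, a 0 (Nat.zero_le _), a 1 le_rfl, c⟩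
  obtain rfl := s2 (by omega)
  exact t3 n

end

end Pool.Agent.P.MP_08fd93_co.FK
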